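import Pool.Agent.Q80.EW.Def

set_option autoImplicit false

/-!
Project EW of helper80: statements of the independent parts.
-/

namespace Pool.Agent.Q80.EW

open Filter Topology MeasureTheory

noncomputable section

/-! ### primes -/

/-- MERT. Mertens: `∑_{log log p < y} 1/p = y + O(1)`. From any Mertens theorem of the library, e.g.
`Pool.Agent.Helper559.Mertens` (`|∑_{p ≤ x} 1/p - log log x| ≤ C`). `p < zc y` iff `p < exp (exp y)`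
(`Nat.lt_ceil`). -/
def J_MERT : Prop := ∃ C : ℝ, ∀ y : ℝ, 0 ≤ y → |VV y - y| ≤ C

/-- PS. Prime sums with a twist, from the prime number theorem with classical error
`|θ(x) - x|` or `|ψ(x) - x| ≤ C x exp(-c √log x)` (e.g. `Pool/Agent/Cov/PNT.lean`, `Pool/Agent/H343R2/Pnt.lean`,
or look for any such theorem in the library). Proof: `π(x) = li(x) + O(x exp(-c √log x))`, partial summation:
`∑_{a ≤ p < b} p^{-1-ih} = ∫_a^b x^{-1-ih} dx / log x + O((1+|h|) exp(-c' √log a))`, and with `x = e^w` the integral is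
`∫ e^{-ihw} dw / w = O(1/(|h| log a))` (monotone weight, or one integration by parts). -/
def J_PS : Prop := ∃ C c : ℝ, 0 < C ∧ 0 < c ∧ ∀ h : ℝ, h ≠ 0 → ∀ a b : ℕ, 2 ≤ a → a ≤ b →
  ‖∑ p ∈ (Finset.Ico a b).filter Nat.Prime, (p : ℂ) ^ (-((1 : ℂ) + (h : ℂ) * Complex.I))‖ ≤
    C / (|h| * Real.log a) + C * (1 + |h|) * Real.exp (-(c * Real.sqrt (Real.log a)))

/-- FR. The two point function of the rough part. Proof. Write `B` for the rough numbers `≤ X` (all prime factors `≥ Z`),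
`ρ = ∑_{b ∈ B} 1/b = nm (ro Z X)`. The left side is `∑_{b1 b2 = b3 b4} (b2/b4)^{-ih} / (b1 b2)` over `b_i ∈ B`.
Every solution is `b1 = k r, b3 = k s, b2 = g s, b4 = g r` with `gcd(r,s) = 1` in exactly one way, so it equals
`∑_{gcd(r,s)=1} (r/s)^{ih} / (r s) * K(X / max(r,s))^2` with `K(x) = ∑_{k ≤ x, k rough} 1/k ≤ ρ`.
The term `r = s = 1` gives `ρ^2`. For `r > s` put `r = q r0`, `q` the largest prime factor of `r`; for fixed `s, r0` the sum over `q`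
(`q ≥ max(Z, P^+(r0))`, `q r0 > s`, `q ∤ s`) of `q^{-1+ih} K(X/(q r0))^2` is, without the condition `q ∤ s`, at most `ρ^2 δ` by
Abel summation (the weight is nonnegative, nonincreasing in `q`, at most `ρ^2`), and the removed primes `q | s` contribute at most
`ρ^2 ω(s) / Z ≤ ρ^2 (2 log X + 2) / Z`. Summing `1/(s r0)` gives `ρ^4 (δ + ...)`; the part `r < s` is the complex conjugate. -/
def J_FR : Prop := ∀ (Z X : ℕ) (h δ : ℝ), 2 ≤ Z → 1 ≤ X → 0 ≤ δ →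
  (∀ a b : ℕ, Z ≤ a → a ≤ b →
    ‖∑ p ∈ (Finset.Ico a b).filter Nat.Prime, (p : ℂ) ^ (-((1 : ℂ) + (h : ℂ) * Complex.I))‖ ≤ δ) →
  nm (ro Z X * sh h (ro Z X)) ≤
    nm (ro Z X) ^ 2 + 4 * (δ + (2 * Real.log X + 2) / Z) * nm (ro Z X) ^ 4

/-- FR2. The trivial bound: `|∑_{b1 b2 = n}| ≤ (ro * ro)(n)` and, as in FR, `∑_{b1 b2 = b3 b4} 1/(b1 b2) ≤ ∑ 1/(k r s g) = ρ^4`
(or: for rough `n`, `(ro*ro)(n)^2 ≤ (ro*ro*ro*ro)(n)`). -/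
def J_FR2 : Prop := ∀ (Z X : ℕ) (h : ℝ), nm (ro Z X * sh h (ro Z X)) ≤ nm (ro Z X) ^ 4

/-- AV. The average of the correlation factor. Uses `J_PS` and `J_MERT` as hypotheses (or their proofs). Proof. Let `w = exp(y^3)`
(so `log log w = 3 log y`; `w ≤ zc y` for large `y`). For `1 ≤ h ≤ exp(K √y)` the part of the product over the primes `w ≤ p < zc y`
is `exp(2 ∑ cos(h log p)/p + O(∑_{p ≥ w} 1/p^2)) ≤ 1 + ε/4` by `J_PS` with `a = w`: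
`C/(h y^3) + C (1+h) exp(-c y^{3/2}) → 0` uniformly. The part `p < w` is `∏ (1-p^{-2}) |F(h)|^2`,
`F(h) = ∑_{n w-smooth} n^{-1-ih}`, and by the mean value theorem with coefficients `1/n`
`∫_0^x |F|^2 ≤ ∑_{n w-smooth} (x + C n) / n^2 ≤ x ∏ (1-p^{-2})^{-1} + C ∏ (1-1/p)^{-1} ≤ x ∏ (1-p^{-2})^{-1} + C' y^3`,
and `y^3 = o(exp(κ √y)) = o(x)`. Mean value theorem of the form `∫ |∑ a_n n^{-it}|^2 ≤ ∑ (x + C n) |a_n|^2`:
`Pool.Agent.Y96.SX.MV.mv`, `Pool/Agent/W184/MV` (`mv_DS`), `Pool/Agent/Y840/SW/MVB` (`t_MVB`); pass to the infinite sum by truncation. -/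
def J_AV : Prop := ∀ K κ ε : ℝ, 0 < κ → 0 < ε → ∀ᶠ y : ℝ in atTop, ∀ x : ℝ,
  Real.exp (κ * Real.sqrt y) ≤ x → x ≤ Real.exp (K * Real.sqrt y) →
    ∫ h in (1 : ℝ)..x, Corr y h ≤ (1 + ε) * x

/-! ### Euler products -/

/-- EU. Euler product and local factors of `∑ |GG|^2 / n`. Proof. `GG` is multiplicative and vanishes off the `Z`-smooth numbers; at a prime
power `p^k`, `p < Z`, `ω = p^{-ih}`: `GG(p^k) = ∑_{a+b+c+d=k} [s0=1 or a=0][s1=1 or b=0] ω^b v^c/c! (v'ω)^d/d!`, so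
`|GG(p^k)| ≤ (k+1) e^4`, `GG(p) = s0 + v + (s1 + v') ω`, and `|GG_{v,v'}(p^k) - GG_{0,0}(p^k)| ≤ C (k+1) (|v|+|v'|)`.
Hence (Mathlib `EulerProduct.prod_primesBelow_tsum_eq_tsum_smoothNumbers` or similar) `nm GG = ∏_{p<Z} Loc_p`,
`Loc_p = ∑_k |GG(p^k)|^2 / p^k = 1 + c1/p + R_p ≥ 1`, `|R_p| ≤ C/p^2`, and `R_p(v,v') - R_p(0,0) = O((|v|+|v'|)/p^2)`; then
`|log(1+A) - log(1+B) - (A-B)| ≤ |A-B| max(A,B)` for `A, B ≥ 0`. `ex v` is multiplicative with `ex v (p^k) = v(p)^k/k!`. -/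
def J_EU : Prop := ∃ C : ℝ, 0 < C ∧ ∀ (s0 s1 Z : ℕ) (h : ℝ) (v v' : ℕ → ℝ), s0 ≤ 1 → s1 ≤ 1 →
  Wt Z v → Wt Z v' →
  Summable (fun n : ℕ => ‖GG s0 s1 Z h v v' n‖ ^ 2 / (n : ℝ)) ∧
  1 ≤ nm (GG s0 s1 Z h v v') ∧
  |Real.log (nm (GG s0 s1 Z h v v')) - ∑ p ∈ Nat.primesBelow Z, c1 s0 s1 h v v' p / (p : ℝ)| ≤ C ∧
  |Real.log (nm (GG s0 s1 Z h v v')) - Real.log (nm (GG s0 s1 Z h 0 0)) -
      ∑ p ∈ Nat.primesBelow Z, (c1 s0 s1 h v v' p - c1 s0 s1 h 0 0 p) / (p : ℝ)| ≤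
    C * ∑ p ∈ Nat.primesBelow Z, (|v p| + |v' p|) / (p : ℝ) ^ 2

/-- TAIL. Truncation of all four factors to `Ω ≤ l`. Proof. `GT n = GG n` if `Ω(n) ≤ l` (all divisors have `Ω ≤ l`), and always
`|GT n|, |GG n| ≤ g n` with the nonnegative multiplicative function `g = sm * sm * ex |v| * ex |v'|`, `g(p) ≤ 6`,
`g(p^k) ≤ (k+1) e^4`. So the difference is at most `2 ∑_{Ω(n) > l} g(n)^2/n ≤ 2 (7/5)^{-l} ∑ g(n)^2 (7/5)^{Ω(n)} / n` (Rankin) and the Euler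
product is at most `exp(∑_{p<Z} (36·7/5)/p + C/p^2)`, `36·7/5 = 50.4` (at `p = 2` the local series converges since `7/10 < 1`). -/
def J_TAIL : Prop := ∃ C : ℝ, 0 < C ∧ ∀ (l s0 s1 Z : ℕ) (h : ℝ) (v v' : ℕ → ℝ), s0 ≤ 1 → s1 ≤ 1 →
  Wt Z v → Wt Z v' →
  |nm (GT l s0 s1 Z h v v') - nm (GG s0 s1 Z h v v')| ≤
    C * Real.exp (51 * ∑ p ∈ Nat.primesBelow Z, (1 : ℝ) / (p : ℝ)) / (7 / 5 : ℝ) ^ l

/-- E3. The exact Euler products without weights. `ex 0 = 1`, `GG 1 0 Z h 0 0 = sm Z`, `GG 1 1 Z h 0 0 = sm Z * sh h (sm Z)`, and with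
`σ_k = ∑_{j ≤ k} ω^j`, `|ω| = 1`, `0 < x < 1`: `∑_k |σ_k|^2 x^k = (1 - x^2) / ((1-x)^2 |1-ωx|^2)` (as `|1-ω|^2 |σ_k|^2 = 2 - ω^{k+1} - ω^{-k-1}`
for `ω ≠ 1`, geometric series; `ω = 1` directly; or convolution of the four geometric series). -/
def J_E3 : Prop := ∀ (Z : ℕ) (h : ℝ),
  nm (GG 1 0 Z h 0 0) = ∏ p ∈ Nat.primesBelow Z, (1 - 1 / (p : ℝ))⁻¹ ∧
  nm (GG 1 1 Z h 0 0) = (∏ p ∈ Nat.primesBelow Z, (1 - 1 / (p : ℝ))⁻¹) ^ 2 *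
    ∏ p ∈ Nat.primesBelow Z, (1 - 1 / (p : ℝ) ^ 2) /
      ‖1 - (p : ℂ) ^ (-((1 : ℂ) + (h : ℂ) * Complex.I))‖ ^ 2

/-- MULT. Smooth and rough parts separate: every `n ≥ 1` is uniquely `n = a b`, `a` `Z`-smooth, `b` without prime factors `< Z`, and
`(f * g)(n) = f(a) g(b)`. -/
def J_MULT : Prop := ∀ (Z X Y : ℕ) (f g : ArithmeticFunction ℂ), FS X f → FS Y g →
  (∀ n : ℕ, f n ≠ 0 → n ∈ Nat.smoothNumbers Z) →
  (∀ n : ℕ, g n ≠ 0 → ∀ p : ℕ, p.Prime → p ∣ n → Z ≤ p) → nm (f * g) = nm f * nm g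

/-- EXP. The truncated exponential as a Dirichlet polynomial. `Ω(n) e(n) = ∑_{p | n} v(p) e(n/p)` for `e = ex v`, i.e.
`(k+1) pk (k+1) e = V * pk k e` with `V` the arithmetic function `v` on the primes; induction on `k` gives
`dp (pk k e) = PV^k / k!` (finite supports: `n` smooth with `Ω(n) ≤ l` implies `n ≤ Z^l`), and `tr l e = ∑_{k ≤ l} pk k e`. -/
def J_EXP : Prop := ∀ (Z l : ℕ) (v : ℕ → ℝ), 1 ≤ Z → Wt Z v →
  FS (Z ^ l) (tr l (ex v)) ∧ FS (Z ^ l) (pk l (ex v)) ∧ FS (Z ^ l) (tr l (sm Z)) ∧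
  ∀ t : ℝ, dp (tr l (ex v)) t = eT l (PV Z v t) ∧
    dp (pk l (ex v)) t = PV Z v t ^ l / (l.factorial : ℂ)

/-- ET. The truncated exponential near the exponential: `|eT l w - e^w| ≤ 2 |w|^{l+1}/(l+1)! ≤ 2 (e/10)^{l+1}`,
`|e^w| ≥ e^{-l/10}`. -/
def J_ET : Prop := ∀ᶠ l : ℕ in atTop, ∀ w : ℂ, ‖w‖ ≤ (l : ℝ) / 10 →
  |‖eT l w‖ ^ 2 - Real.exp (2 * w.re)| ≤ Real.exp (-(l : ℝ)) * Real.exp (2 * w.re)

/-! ### mean values -/

/-- MV. Mean value theorem of Montgomery and Vaughan, from the library (`Pool.Agent.Y96.SX.MV.mv`, `Pool/Agent/W184/MV` `mv_DS`,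
`Pool/Agent/Y840/SW/MVB` `t_MVB`, or `H345`). -/
def J_MV : Prop := ∃ C : ℝ, 0 < C ∧ ∀ (X : ℕ) (f : ArithmeticFunction ℂ), FS X f →
  ∀ a b : ℝ, a ≤ b →
  |(∫ t in a..b, ‖dp f t‖ ^ 2) - (b - a) * nm f| ≤ C * X * nm f

/-- SUP. Large values somewhere in the window. `sup_{0≤h≤U} |F(t+h)|^2 ≤ (1/U) ∫_0^U |F(t+h)|^2 dh + 2 ∫_0^U |F F'|(t+h) dh`; integrate over
`t ∈ [T,3T]`, Cauchy-Schwarz, `F' = dp` of `-i f(n) log n`, `nm ≤ (log X)^2 nm f`, mean value theorem (`J_MV` as hypothesis) on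
`[T, 4T]`, Markov. -/
def J_SUP : Prop := ∃ C : ℝ, 0 < C ∧ ∀ (X : ℕ) (f : ArithmeticFunction ℂ), 1 ≤ X → FS X f →
  ∀ T U lam : ℝ, 1 ≤ U → U ≤ T → (X : ℝ) ≤ T → 0 < lam →
  (volume {t : ℝ | t ∈ Set.Icc T (3 * T) ∧ ∃ h ∈ Set.Icc (0 : ℝ) U, lam < ‖dp f (t + h)‖ ^ 2}).toReal ≤
    C * (U * T * (1 + Real.log X) * nm f) / lam

/-! ### the main polynomial -/

/-- DD. The coefficients of `D'`. `dd n = 1` iff `n = a b` with `a` `Z`-smooth, `Ω(a) ≤ l`, `b ≤ T^{1/2-2η}` rough (unique factorisation), so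
`n ≤ Z^l T^{1/2-2η} ≤ T^{1/2-η}` for large `T` (`Z = zc(Yt T) ≤ exp(log T/Λ^2) + 1`, `l = ⌈400 Λ⌉`, `Λ = log log T`);
for `n ≤ T^{1/2-2η}` only `Ω(smooth part) > l` can fail, `∑ 1/n` of these is at most
`(5/4)^{-l} ∏_{p<Z} (1-(5/4)/p)^{-1} ∏_{Z ≤ p ≤ X} (1-1/p)^{-1} = o(1)` (Rankin; `(5/4)^{-400Λ} = e^{-89Λ}`), and
`∑_{T^{1/2-2η} < n ≤ √T} 1/n ≤ 2η log T + 1`. -/
def J_DD : Prop := ∀ η : ℝ, 0 < η → η ≤ 1 / 100 → ∀ᶠ T : ℝ in atTop,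
  (∀ n : ℕ, dd η T n = 0 ∨ dd η T n = 1) ∧ (∀ n : ℕ, T ^ (1 / 2 - η) < (n : ℝ) → dd η T n = 0) ∧
  ∑ n ∈ Finset.Icc 1 ⌊Real.sqrt T⌋₊, (1 - ‖dd η T n‖) / (n : ℝ) ≤ 5 * η * Real.log T

/-- MASS. The mean square of `D'`: `nm (dd) = ∑_{dd n = 1} 1/n`, upper bound from the support in `n ≤ Z^l T^{1/2-2η}`, lower bound from all
`n ≤ T^{1/2-2η}` minus those with `Ω(smooth part) > l` (see DD). -/
def J_MASS : Prop := ∀ η : ℝ, 0 < η → η ≤ 1 / 100 →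
  Tendsto (fun T : ℝ => nm (dd η T) / Real.log T) atTop (𝓝 (1 / 2 - 2 * η))

/-- RHO. The mass of the rough part: `∑_{b ∈ B} 1/b ≤ ∏_{Z ≤ p ≤ X} (1-1/p)^{-1} ≤ C log X / log Z` (Mertens), `log Z ≥ log T / Λ^2`. -/
def J_RHO : Prop := ∃ C : ℝ, ∀ η : ℝ, 0 < η → η ≤ 1 / 100 → ∀ᶠ T : ℝ in atTop,
  nm (ro (zc (Yt T)) (Nt η T)) ≤ C * La T ^ 2

/-! ### zeta -/

/-- AP1. The approximate functional equation in mean square. Use `P_AFP` of `Pool/Agent/TH806/N4/Defs.lean`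
(proved: `Pool.Agent.TH110.N4_AFP.t_AFP` from `P_AFE`, and `P_AFE` from `Pool.Agent.TH75.AFE1.main`) at a large fixed `k` with the same `η`: `ζ - cs(D1) - χ conj cs(D2)` is
small in mean square; the coefficients of `cs(D1)` are `1` for `n ≤ T^{1/2-2η}` and `0` for `n > T^{1/2-η}`, those of `cs(D2)` are `1` for
`n ≤ √T` and `0` for `n > T^{1/2+2η}`, always in `[0,1]`; so replacing both by `dp d` costs, by the mean value theorem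
(`J_MV` as hypothesis), `O(T ∑ |c_n - d_n|^2 / n) = O(η T log T)`. `|chi t| = 1` (`norm_XX_cl` in TH110/N4_AFP). -/
def J_AP1 : Prop := ∃ C : ℝ, 0 < C ∧ ∀ η : ℝ, 0 < η → η ≤ 1 / 100 → ∀ᶠ T : ℝ in atTop,
  ∀ d : ArithmeticFunction ℂ, (∀ n : ℕ, d n = 0 ∨ d n = 1) →
  (∀ n : ℕ, T ^ (1 / 2 - η) < (n : ℝ) → d n = 0) →
  ∑ n ∈ Finset.Icc 1 ⌊Real.sqrt T⌋₊, (1 - ‖d n‖) / (n : ℝ) ≤ 5 * η * Real.log T →
  ∫ t in T..(4 * T), ‖ze t - dp d t - chi t * (starRingEnd ℂ) (dp d t)‖ ^ 2 ≤ C * η * T * Real.log T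

/-- AP2. The off-diagonal term is small in mean over windows. Proof. Stirling: `conj (chi t) = e^{iπ/4}-type constant * exp(i t log(t/(2πe))) (1 + O(1/t))`
(library: `XX` asymptotics, `Pool/Agent/H345R2`, `H448R2/GC`, `TH75/AFE1`). For `0 ≤ h ≤ U ≤ T^{1/10}` the phase is
`φ(t+h) = φ(t) + h log(t/2π) + O(U^2/T)`. With `D^2 = ∑ c_n n^{-1/2-it}`, `n ≤ T^{1-2η}`, `c = d*d`, `|c_n| ≤ τ(n)`: up to `O(T^{-1/10})`, the inner integral is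
`const * ∑ c_n n^{-1/2-it} (e^{iU λ_n} - 1)/(i λ_n)`, `λ_n = log(t/2π) - log n = (A - log n) + x`, `A = log(T/2π)`, `x = log(t/T) ∈ [0, log 3]`,
`A - log n ≥ 2η log T - 2 ≥ η log T ≥ 4`. The two terms are `W(t)` and `e^{iU log(t/2π)} W(t+U)`-like, `W(t) = ∑ c_n n^{-1/2-it}/λ_n =
∑_k (-x)^k ∑_n c_n n^{-1/2-it} (A - log n)^{-k-1}`, and each inner sum has `L^2` norm on an interval of length `≍ T` at most
`(η log T)^{-k-1} (C T ∑ τ(n)^2/n)^{1/2} ≤ (η log T)^{-k-1} (C T log^4 T)^{1/2}` (mean value theorem, `J_MV` as hypothesis); Cauchy-Schwarz gives the claim. -/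
def J_AP2 : Prop := ∃ C : ℝ, 0 < C ∧ ∀ η : ℝ, 0 < η → η ≤ 1 / 100 → ∀ᶠ T : ℝ in atTop,
  ∀ d : ArithmeticFunction ℂ, (∀ n : ℕ, d n = 0 ∨ d n = 1) →
  (∀ n : ℕ, T ^ (1 / 2 - η) < (n : ℝ) → d n = 0) → ∀ U : ℝ, 1 ≤ U → U ≤ T ^ (1 / 10 : ℝ) →
  ∫ t in T..(3 * T), ‖∫ h in (0 : ℝ)..U, (starRingEnd ℂ) (chi (t + h)) * dp d (t + h) ^ 2‖ ≤
    C / η * T * Real.log T

/-- HLW. The mean square of zeta (Hardy and Littlewood), library: `∫_0^T |ζ(1/2+it)|^2 dt = T log T + O(T)` (e.g. H345, H306R2). -/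
def J_HLW : Prop := ∃ C : ℝ, ∀ T h : ℝ, 2 ≤ T → 0 ≤ h → h ≤ 2 * T →
  |(∫ t in T..(2 * T), ‖ze (t + h)‖ ^ 2) - T * Real.log T| ≤ C * T

/-! ### probability -/

/-- CL. Convergence of moment generating functions implies convergence in law. Proof: sequences suffice (`l` countably generated,
`Filter.tendsto_of_seq_tendsto`); total masses tend to `1` (`u = 0`), normalise; for every direction `u` the real variable `∑ u_j X_j` has a moment generating function converging at every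
real point to that of a centred normal law, hence (Curtiss; library `Pool/Agent/Y753/NL/Cur.lean`, `Pool/Agent/Q273/WL1.lean`, `Pool/Agent/Q273/WL3.lean`, or convexity and Montel) its law converges, so the characteristic function of
`(X_j)` at `u` converges; Levy (`ProbabilityMeasure.tendsto_iff_tendsto_charFun` in `EuclideanSpace ℝ J`), then
portmanteau for the set `A` with null boundary. `mgf_gaussianReal`, `charFun_gaussianReal`, `charFun_pi`. -/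
def J_CL : Prop := ∀ (ι Ω J : Type) [Fintype J] [MeasurableSpace Ω] (l : Filter ι)
  [l.IsCountablyGenerated] (μ : ι → Measure Ω) (X : ι → J → Ω → ℝ) (m : ℕ), 1 ≤ m →
  (∀ᶠ n in l, IsFiniteMeasure (μ n)) → (∀ᶠ n in l, ∀ j : J, Measurable (X n j)) →
  (∀ u : J → ℝ, (∀ᶠ n in l, Integrable (fun ω => Real.exp (∑ j, u j * X n j ω)) (μ n)) ∧
    Tendsto (fun n => ∫ ω, Real.exp (∑ j, u j * X n j ω) ∂(μ n)) l
      (𝓝 (Real.exp ((∑ j, u j ^ 2) / (4 * m))))) →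
  ∀ A : Set (J → ℝ), MeasurableSet A → gm m J (frontier A) = 0 →
    Tendsto (fun n => (μ n).real {ω | (fun j => X n j ω) ∈ A}) l (𝓝 ((gm m J).real A))

/-- LV. The maximum of the Gaussian walk (reflection principle), `S_k = ∑_{i<k} g_i`, `M = max S_k`, `τ` the first `k` with `S_k > b`.
Levy: `P(M > b) ≤ 2 P(S_m > b)` (on `τ = k`, `S_m - S_k` is symmetric and independent of the past), and for `δ > 0`
`P(S_m > b + 2δ) ≤ P(some g_i > δ) + ½ P(M > b)` (otherwise `S_τ ≤ b + δ`, so `S_m - S_τ > 0` on this event, symmetric).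
`S_m ~ N(0,1/2)`, `1 - 2 P(N(0,1/2) > b) = erf b`, and `m P(|N(0,1/(2m))| > δ) → 0`. -/
def J_LV : Prop := ∀ b : ℝ, 0 < b → Tendsto (fun m : ℕ => gam m b) atTop (𝓝 (erf b))

/-- LV2. The polyhedra have null boundary (the frontier lies in the union of the hyperplanes `∑_{i ≤ k} x_i = b`, Gaussian-null by absolute continuity
or by Fubini), one and two walks; the last one is the product formula (`MeasureTheory.measurePreserving_sumPiEquivProdPi` or similar). -/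
def J_LV2 : Prop := ∀ (m : ℕ) (b : ℝ), 1 ≤ m →
  MeasurableSet {x : Fin m → ℝ | ∀ k : Fin m, ∑ i ∈ Finset.Iic k, x i ≤ b} ∧
  gm m (Fin m) (frontier {x : Fin m → ℝ | ∀ k : Fin m, ∑ i ∈ Finset.Iic k, x i ≤ b}) = 0 ∧
  MeasurableSet {x : Fin m ⊕ Fin m → ℝ | (∀ k : Fin m, ∑ i ∈ Finset.Iic k, x (Sum.inl i) ≤ b) ∧
    ∀ k : Fin m, ∑ i ∈ Finset.Iic k, x (Sum.inr i) ≤ b} ∧
  gm m (Fin m ⊕ Fin m) (frontier {x : Fin m ⊕ Fin m → ℝ |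
    (∀ k : Fin m, ∑ i ∈ Finset.Iic k, x (Sum.inl i) ≤ b) ∧
    ∀ k : Fin m, ∑ i ∈ Finset.Iic k, x (Sum.inr i) ≤ b}) = 0 ∧
  (gm m (Fin m ⊕ Fin m)).real {x : Fin m ⊕ Fin m → ℝ |
    (∀ k : Fin m, ∑ i ∈ Finset.Iic k, x (Sum.inl i) ≤ b) ∧
    ∀ k : Fin m, ∑ i ∈ Finset.Iic k, x (Sum.inr i) ≤ b} = gam m b ^ 2

/-- CH. Maximal inequality from fourth moments of increments (dyadic chaining). Let `2^r ≥ n` minimal; for `j ≤ n` write `S_j - S_0` as a sum over `l ≤ r` of dyadic increments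
`S_{i 2^l + 2^l} - S_{i 2^l}` (all indices `≤ n`; binary expansion of `j`). If `|S_j - S_0| > a`, some level has an increment `> a c_l`, `c_l = c 2^{-(r-l)/8}`, `∑ c_l ≤ 1`;
union bound and Markov: `∑_l (n/2^l) K 4^l / (a c_l)^4 ≤ C K n^2 / a^4`. -/
def J_CH : Prop := ∃ C : ℝ, 0 < C ∧ ∀ (Ω : Type) [MeasurableSpace Ω] (μ : Measure Ω) [IsFiniteMeasure μ]
  (n : ℕ) (S : ℕ → Ω → ℝ) (K : ℝ), 0 ≤ K → (∀ j : ℕ, j ≤ n → Measurable (S j)) →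
  (∀ j k : ℕ, k ≤ j → j ≤ n → Integrable (fun ω => (S j ω - S k ω) ^ 4) μ ∧
    ∫ ω, (S j ω - S k ω) ^ 4 ∂μ ≤ K * ((j : ℝ) - k) ^ 2) →
  ∀ a : ℝ, 0 < a → μ.real {ω | ∃ j : ℕ, j ≤ n ∧ a < |S j ω - S 0 ω|} ≤ C * K * (n : ℝ) ^ 2 / a ^ 4

/-! ### reduction to windows of length `exp(y √Λ)` -/

/-- RED. From the law for `U = exp(y √Λ)`, every fixed `y > 0`, to all `1 ≤ U ≤ T`. Write `M_U(t) = MM U T t`, `W_y = exp(y √Λ)`.
For `W ≤ U`, `t ∈ [T,2T]`: (i) `M_U(t) ≥ (1/U) ∫_0^{U-W} M_W(t+h) dh`. `J_HLW` gives `(1/T) ∫_T^{2T} M_U(t) dt ≤ 1 + o(1)` uniformly for `1 ≤ U ≤ T`.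
Lower bound: if `U ≥ W_{y+δ}` then `W_y/U → 0`, and by (i) with `min(M, erf(y/2))` inside, for almost all `t` (measure `o(T)` excepted, Markov and Fubini, as `t+h ∈ [T,3T]`)
`M_U(t) ≥ erf(y/2) - ε`. Upper bound, `U ≤ W_y` and `y' = y + δ`: `M_{W_{y'}}(t) ≥ (1/W_{y'}) ∫_0^{W_{y'}-U} min(M_U(t+h), 2) dh`, the right side is always `≤ 2`, the left is `≤ erf(y'/2) + ε` for almost all `t`,
so `(1/T) ∫_T^{2T} min(M_U, 2) ≤ erf(y'/2) + 2ε`; with the lower bound `M_U ≥ erf(y''/2) - ε` a.e. (for `U ≥ W_{y''+δ}`; trivially `M_U ≥ 0` for small `U`) this makes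
`{M_U > erf(y''/2) + √ε'}` small when `y' - y''` is small. For `U ≥ W_K`, `K` large: lower bound `erf(K/2) - ε` and mean `≤ 1 + o(1)` give `|M_U - 1|` small.
Finite grid of `y`, continuity and monotonicity of `erf`, `erf 0 = 0`, `erf → 1` (Gaussian integral). -/
def J_RED : Prop := J_HLW →
  (∀ y : ℝ, 0 < y → ∀ ε : ℝ, 0 < ε → Tendsto (fun T : ℝ => (volume {t : ℝ | t ∈ Set.Icc T (3 * T) ∧
    ε < |MM (Real.exp (y * Real.sqrt (La T))) T t - erf (y / 2)|}).toReal / T) atTop (𝓝 0)) →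
  ∀ ε : ℝ, 0 < ε → ∀ᶠ T : ℝ in atTop, ∀ U : ℝ, 1 ≤ U → U ≤ T →
    (volume {t : ℝ | t ∈ Set.Icc T (2 * T) ∧
      ε < |MM U T t - erf (Real.log U / (2 * Real.sqrt (La T)))|}).toReal ≤ ε * T

/-! ### asymptotic consequences of the Euler products -/

/-- ONE. One point. From `J_EU`, `J_MERT` (hypotheses): `c1 - c1(0) = 2w + w^2`, `∑ 2w/p = vu T m u` exactly, `∑ w^2/p = ∑_i u_i^2 (V_{i+1}-V_i)/(4Λ) → ∑ u_i^2/(4m)`
(`V_{i+1}-V_i = Y/m + O(1)`, `Y/Λ → 1`), error `O(∑ |w|/p^2) = O(1/√Λ)`. The blocks are disjoint. -/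
def J_ONE : Prop := ∀ (m : ℕ) (u : Fin m → ℝ), 1 ≤ m → Tendsto (fun T : ℝ =>
  nm (GG 1 0 (zc (Yt T)) 0 (wu T m u) 0) / nm (GG 1 0 (zc (Yt T)) 0 0 0) * Real.exp (-(vu T m u)))
  atTop (𝓝 (Real.exp ((∑ i, u i ^ 2) / (4 * m))))

/-- TWO. Two points. From `J_EU`, `J_MERT`, `J_PS` (hypotheses): with `ω = p^{-ih}`, `|(1+w)+(1+w')ω|^2 - |1+ω|^2 = 2w+w^2+2w'+w'^2+2cos(h log p)(w+w'+ww')`.
The first four terms as in ONE. `w, w'` are constant on blocks, `O(1/√Λ)`; over a block (or any range of primes) `|∑ cos(h log p)/p| ≤ ∑_{p < exp(Λ^3)} 1/p + PS ≤ 3 log Λ + C` uniformly for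
`1 ≤ h ≤ exp(K √Λ)` (`J_PS` with `a ≥ exp(Λ^3)`: `C/Λ^3 + C (1+h) exp(-cΛ^{3/2})`), so the cosine terms are `O(log Λ/√Λ)`. -/
def J_TWO : Prop := ∀ (m : ℕ) (u u' : Fin m → ℝ) (K ε : ℝ), 1 ≤ m → 0 < ε → ∀ᶠ T : ℝ in atTop,
  ∀ h : ℝ, 1 ≤ h → h ≤ Real.exp (K * Real.sqrt (La T)) →
  |nm (GG 1 1 (zc (Yt T)) h (wu T m u) (wu T m u')) / nm (GG 1 1 (zc (Yt T)) h 0 0) *
    Real.exp (-(vu T m u) - vu T m u') - Real.exp ((∑ i, u i ^ 2 + ∑ i, u' i ^ 2) / (4 * m))| ≤ ε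

/-- NEAR. Near points. From `J_EU`, `J_MERT`, `J_PS` (hypotheses): `c1 = |ω|^2 = 1` below the level `a`, `c1 ≤ 4` between `a` and `b`, `c1 = 2 + 2cos(h log p)` above `b`,
where `∑_{p ≥ zc b} cos(h log p)/p = O(1)` by `J_PS` (`h log (zc b) ≥ h e^b ≥ 1`). Total `a + 4(b-a) + 2(Y-b) + O(1)`. -/
def J_NEAR : Prop := ∃ C : ℝ, 0 < C ∧ ∀ Y a b h : ℝ, 0 ≤ a → a ≤ b → b ≤ Y → 0 ≤ h → h ≤ 1 →
  (Real.exp (-b) ≤ h ∨ b = Y) →
  nm (GG 1 1 (zc Y) h (fun p => -(lo a p)) 0) ≤ C * Real.exp (2 * Y - a + 2 * (b - a))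

/-- FOUR. Increments. From `J_EU`, `J_MERT`: `c1 - c1(0) = (2u+u^2)` on the block, `u^2 (VV b - VV a) ≤ u^2 (b-a) + 2C ≤ 1 + 2C`. -/
def J_FOUR : Prop := ∃ C : ℝ, 0 < C ∧ ∀ Y a b u : ℝ, 0 ≤ a → a ≤ b → b ≤ Y →
  |u| ≤ 1 → u ^ 2 * (b - a) ≤ 1 →
  nm (GG 1 0 (zc Y) 0 (fun p => u * ind a b p) 0) ≤
    C * Real.exp (2 * u * (VV b - VV a)) * nm (GG 1 0 (zc Y) 0 0 0)

/-- CHERN. The exponential alone. From `J_EU`, `J_MERT`: `c1 = 1`. -/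
def J_CHERN : Prop := ∃ C : ℝ, 0 < C ∧ ∀ a : ℝ, 0 ≤ a →
  nm (GG 0 0 (zc a) 0 (lo a) 0) ≤ C * Real.exp a

end

end Pool.Agent.Q80.EW
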