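import Pool.Agent.Q80.EW.Stm5

set_option autoImplicit false

/-!
Project EWX of helper80: the law of `log |ζ|` under the weight `|ζ|^2` in short windows, and the maximum.

For almost all `t ∈ [T,2T]`, uniformly in `1 ≤ U ≤ T` and `x` real,
`(1/(U log T)) ∫_{u ∈ [t,t+U], |ζ(1/2+iu)| ≤ e^{x√Λ} log T} |ζ(1/2+iu)|^2 du = GX (log U/(2√Λ)) x + o(1)`,
`GX b x = (erf(min x b) - erf(min x b - 2b))/2 = P(max_{s ≤ 1} W_s ≤ b, W_1 ≤ x)`, `W` Brownian motion with variance `s/2`.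
This contains project EW (`x = ∞`: `GX b ∞ = erf b`).

Notation: `L = log T`, `Λ = La T`, `Y = Yt T`, `U = UU y T = exp(y√Λ)`.
-/

namespace Pool.Agent.Q80.EW

open Filter Topology MeasureTheory

noncomputable section

/-- the limit function -/
def GX (b x : ℝ) : ℝ := (erf (min x b) - erf (min x b - 2 * b)) / 2

/-- the probability that all partial sums are `≤ b` and the total sum is `≤ x` -/
def gam2 (m : ℕ) (b x : ℝ) : ℝ :=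
  (gm m (Fin m)).real {z : Fin m → ℝ | (∀ k : Fin m, ∑ i ∈ Finset.Iic k, z i ≤ b) ∧ ∑ i, z i ≤ x}

/-- the total increment is `≤ x` -/
def TS (T : ℝ) (m : ℕ) (x t : ℝ) : Prop := ∑ i : Fin m, De T m i t ≤ x

/-- LVx. Reflection principle with end point. For `x ≤ b`: `P(M > b, S_m ≤ x)` is asymptotically `P(S_m ≥ 2b - x)`: as in `J_LV` (`Pool.Agent.Q129.EW.t_LV`), for `δ > 0`, reflect the path after the first
passage `τ` above `b`: `S_m - S_τ` and its negative have the same law given the past, and `b < S_τ ≤ b + δ` unless some `g_i > δ`; so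
`P(S_m ≥ 2b - x + 2δ) - m P(|g| > δ) ≤ P(M > b, S_m ≤ x) ≤ P(S_m ≥ 2b - x) ` (up to `δ`), `S_m ~ N(0,1/2)`. For `x ≥ b` it is `J_LV`. -/
def J_LVx : Prop := ∀ b x : ℝ, 0 < b → Tendsto (fun m : ℕ => gam2 m b x) atTop (𝓝 (GX b x))

/-- LV2x. As `J_LV2` (`Pool.Agent.Q247.EW.t_LV2`) with the additional half space. -/
def J_LV2x : Prop := ∀ (m : ℕ) (b x : ℝ), 1 ≤ m →
  MeasurableSet {z : Fin m → ℝ | (∀ k : Fin m, ∑ i ∈ Finset.Iic k, z i ≤ b) ∧ ∑ i, z i ≤ x} ∧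
  gm m (Fin m) (frontier {z : Fin m → ℝ | (∀ k : Fin m, ∑ i ∈ Finset.Iic k, z i ≤ b) ∧ ∑ i, z i ≤ x}) = 0 ∧
  MeasurableSet {z : Fin m ⊕ Fin m → ℝ | ((∀ k : Fin m, ∑ i ∈ Finset.Iic k, z (Sum.inl i) ≤ b) ∧ ∑ i, z (Sum.inl i) ≤ x) ∧
    ((∀ k : Fin m, ∑ i ∈ Finset.Iic k, z (Sum.inr i) ≤ b) ∧ ∑ i, z (Sum.inr i) ≤ x)} ∧
  gm m (Fin m ⊕ Fin m) (frontier {z : Fin m ⊕ Fin m → ℝ |
    ((∀ k : Fin m, ∑ i ∈ Finset.Iic k, z (Sum.inl i) ≤ b) ∧ ∑ i, z (Sum.inl i) ≤ x) ∧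
    ((∀ k : Fin m, ∑ i ∈ Finset.Iic k, z (Sum.inr i) ≤ b) ∧ ∑ i, z (Sum.inr i) ≤ x)}) = 0 ∧
  (gm m (Fin m ⊕ Fin m)).real {z : Fin m ⊕ Fin m → ℝ |
    ((∀ k : Fin m, ∑ i ∈ Finset.Iic k, z (Sum.inl i) ≤ b) ∧ ∑ i, z (Sum.inl i) ≤ x) ∧
    ((∀ k : Fin m, ∑ i ∈ Finset.Iic k, z (Sum.inr i) ≤ b) ∧ ∑ i, z (Sum.inr i) ≤ x)} = gam2 m b x ^ 2

/-- P1x. As `J_P1` (from `J_G1, J_CL, J_LV2x`). -/
def J_P1x : Prop := ∀ (η : ℝ) (m : ℕ) (b x : ℝ), 0 < η → η ≤ 1 / 100 → 1 ≤ m →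
  Tendsto (fun T : ℝ => (∫ t in T..(3 * T), Set.indicator {t | NE T m t ∧ (WK T m b t ∧ TS T m x t)}
    (fun t => ‖Dp η T t‖ ^ 2) t) / (2 * T * nm (dd η T))) atTop (𝓝 (gam2 m b x))

/-- P2x. As `J_P2` (from `J_G2, J_CL, J_LV2x, J_M2`). -/
def J_P2x : Prop := ∀ (η : ℝ) (m : ℕ) (b x K ε : ℝ), 0 < η → η ≤ 1 / 100 → 1 ≤ m → 0 < ε →
  ∀ᶠ T : ℝ in atTop, ∀ h : ℝ, 1 ≤ h → h ≤ Real.exp (K * Real.sqrt (La T)) →
    ∫ t in T..(3 * T), Set.indicator {t | (NE T m t ∧ (WK T m b t ∧ TS T m x t)) ∧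
        (NE T m (t + h) ∧ (WK T m b (t + h) ∧ TS T m x (t + h)))}
      (fun t => ‖Dp η T t‖ ^ 2 * ‖Dp η T (t + h)‖ ^ 2) t ≤
    2 * T * ((1 / 2 - 2 * η) * Real.log T) ^ 2 * Corr (Yt T) h * (gam2 m b x ^ 2 + ε)

/-- the points where the walk ends below `x√Λ` -/
def EX (x T : ℝ) : Set ℝ := {t | XX (Yt T) t ≤ x * Real.sqrt (La T)}

/-- `(2/L)|D'|^2` on the good set, with the end point restricted -/
def ffx (η y ε x T : ℝ) (m : ℕ) (t : ℝ) : ℝ :=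
  Set.indicator (GD y ε T m ∩ EX x T) (fun t => 2 / Real.log T * ‖Dp η T t‖ ^ 2) t

/-- its window means -/
def WWx (η y ε x : ℝ) (m : ℕ) (T t : ℝ) : ℝ := 1 / UU y T * ∫ h in (0 : ℝ)..(UU y T), ffx η y ε x T m (t + h)

/-- window means of `(2/L)|D'|^2` with the end point restricted -/
def NNx (η y x T t : ℝ) : ℝ := 2 / (UU y T * Real.log T) *
  ∫ h in (0 : ℝ)..(UU y T), Set.indicator (EX x T) (fun s => ‖Dp η T s‖ ^ 2) (t + h)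

/-- window means of `|ζ|^2/L`, with the end point of the walk restricted -/
def MXx (y x T t : ℝ) : ℝ := 1 / (UU y T * Real.log T) *
  ∫ h in (0 : ℝ)..(UU y T), Set.indicator (EX x T) (fun s => ‖ze s‖ ^ 2) (t + h)

/-- window means of `|ζ|^2/L` over the points with `|ζ| ≤ e^{x√Λ} log T` -/
def MZ (U T x t : ℝ) : ℝ := 1 / (U * Real.log T) *
  ∫ u in t..(t + U), Set.indicator {s | ‖ze s‖ ≤ Real.exp (x * Real.sqrt (La T)) * Real.log T} (fun s => ‖ze s‖ ^ 2) u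

/-- C2x. As `J_C2`, with `J_P1x`. (`|XX 0| ≤ 2 ≤ ε√Λ`: `EX x` implies `TS T m (x+ε)`.) -/
def J_C2x : Prop := ∀ (η y ε x δ : ℝ) (m : ℕ), 0 < η → η ≤ 1 / 100 → 0 < y → 0 < ε → 0 < δ → 1 ≤ m →
  ∀ᶠ T : ℝ in atTop, ∃ B : Set ℝ, MeasurableSet B ∧ (volume (B ∩ Set.Icc T (3 * T))).toReal ≤ δ * T ∧
    ∫ t in Set.Icc T (3 * T) \ B, NNx η y x T t ≤ 2 * T * ((1 - 4 * η) * gam2 m (y / 2 + 2 * ε) (x + ε) + δ)

/-- C3x. As `J_C3`, with `J_P1x`. (`TS T m (x-ε)` implies `EX x`.) -/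
def J_C3x : Prop := ∃ C : ℝ, 0 < C ∧ ∀ (η y ε x δ : ℝ) (m : ℕ), 0 < η → η ≤ 1 / 100 → 0 < y → 0 < ε → ε ≤ y / 8 → 0 < δ → 1 ≤ m →
  ∀ᶠ T : ℝ in atTop,
    2 * T * ((1 - 4 * η) * gam2 m (y / 2 - 3 * ε) (x - ε) - C / (m * ε ^ 4) - δ) ≤ ∫ t in T..(3 * T), WWx η y ε x m T t

/-- C4x. As `J_C4`, with `J_P2x` (the near part is unchanged). -/
def J_C4x : Prop := ∀ (η y ε x δ : ℝ) (m : ℕ), 0 < η → η ≤ 1 / 100 → 0 < y → 0 < ε → 0 < δ → 1 ≤ m →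
  ∀ᶠ T : ℝ in atTop,
    ∫ t in T..(3 * T), WWx η y ε x m T t ^ 2 ≤ 2 * T * ((1 - 4 * η) ^ 2 * gam2 m (y / 2 - ε / 2) (x + ε) ^ 2 + δ)

/-- CONx. As `J_CON` (windows integrals of locally bounded measurable functions are continuous in `t`). -/
def J_CONx : Prop := ∀ (η y ε x : ℝ) (m : ℕ) (T : ℝ), 3 < T →
  Continuous (MXx y x T) ∧ Continuous (NNx η y x T) ∧ Continuous (WWx η y ε x m T) ∧
  ∀ t : ℝ, 0 ≤ WWx η y ε x m T t ∧ WWx η y ε x m T t ≤ NNx η y x T t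

/-- the imaginary weights `w = iu/(2√Λ)` on the primes from level `0` to level `Y` -/
def wc (T u : ℝ) (p : ℕ) : ℂ := ((u / (2 * Real.sqrt (La T)) * ind 0 (Yt T) p : ℝ) : ℂ) * Complex.I

/-- EXCc. As `J_EXC` for complex weights of modulus `≤ 1/2` (domination by the absolute values; `J_EXPc`). -/
def J_EXCc : Prop := ∀ η : ℝ, 0 < η → η ≤ 1 / 100 → ∀ᶠ T : ℝ in atTop,
  ∀ (s0 s1 : ℕ) (h a : ℝ) (w w' : ℕ → ℂ), s0 ≤ 1 → s1 ≤ 1 → 0 ≤ a → a ≤ Yt T →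
    (∀ p, ‖w p‖ ≤ 1 / 2) → (∀ p, ‖w' p‖ ≤ 1 / 2) → (∀ p, zc (Yt T) ≤ p → w p = 0 ∧ w' p = 0) →
    ∫ t in T..(4 * T), Set.indicator {t | 40 * La T < ‖PP a t‖ ∨ 40 * La T < ‖PP a (t + h)‖}
      (fun t => (‖Dp η T t‖ ^ s0 * ‖Dp η T (t + h)‖ ^ s1 * ‖eT (el T) (PVc (zc (Yt T)) w t)‖ *
        ‖eT (el T) (PVc (zc (Yt T)) w' (t + h))‖) ^ 2) t ≤ T / Real.log T

/-- AP2c. The oscillating term with a character, in windows. As `J_AP2` (job AP2 of helper247), with `D^2` replaced by `D'^2 · A · conj B`, `A = eT(w P)`, `B = eT(-w P)` (polynomials of length `T^{o(1)}`, `J_EXPc`),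
`w = wc T u`. After integration over the window the terms carry `1/(log(t/2π) - log n + log m)`, `n` from `D'^2 A`, `m` from `B`; with `A0 = log(T/2π)`, `x = log(t/T)`, expand in powers of `x + log m` (`log m = o(log T)`):
sums of products of two polynomials, `L^1`-norm by Cauchy-Schwarz: `‖∑_n c_n n^{-1/2-it}(A0 - log n)^{-k-1}‖_2 ≤ (η L)^{-k-1} (C T nm(dd*dd*tr(exc w)))^{1/2}`, `nm(dd*dd*tr(exc w)) ≤ C_u L^4`
(`J_CEP` with `f = g`: `|2 + iw|^2 = 4 + w^2`, rough part `≤ ρ^4`... the product of smooth part `exp(4 Y + O(u^2))` and rough part `nm(ro*ro) ≤ (CΛ^2)^4`; a factor `Λ^8` is harmless, so the bound is `≤ C T Λ^5 L`). -/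
def J_AP2c : Prop := ∀ (η u : ℝ), 0 < η → η ≤ 1 / 100 → ∃ C : ℝ, ∀ᶠ T : ℝ in atTop, ∀ U : ℝ, 1 ≤ U → U ≤ T ^ (1 / 10 : ℝ) →
  ∫ t in T..(3 * T), ‖∫ h in (0 : ℝ)..U, (starRingEnd ℂ) (chi (t + h)) * Dp η T (t + h) ^ 2 *
    (eT (el T) (PVc (zc (Yt T)) (wc T u) (t + h)) *
      (starRingEnd ℂ) (eT (el T) (PVc (zc (Yt T)) (wc T (-u)) (t + h))))‖ ≤ C * T * La T ^ 5 * Real.log T

/-- DIFx. As `J_DIF` with the restriction `EX x`. With `S = (XX Y - XX 0)/√Λ` (`= De T 1 0`), replace `1_{EX x}` by `φ(S)`, `φ` from `J_TRG` at `b = x` (`ε` small): the error is `≤ ∫∫ (|ζ|^2 + 2|D'|^2) |1_{EX x} - φ(S)|`,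
`|ζ|^2 ≤ 2|ζ-B|^2 + 8|D'|^2`, first part `≤ CηTL`, second part small by the law of `S` under `|D'|^2` (`J_G1, J_CL` with `m = 1` for the bad set, `J_EXC` off `NE`; `|XX 0| ≤ 2`). Then `(|ζ|^2 - 2|D'|^2) φ(S) = (|ζ|^2 - |B|^2) φ(S) + 2 Re(conj chi D'^2) φ(S)`:
the first as in `J_DIF`, the second: `e^{iuS} = const · eT(wP) conj(eT(-wP)) (1 + O(e^{-l}))` on `NE` (`J_ETc`), `J_EXCc` off `NE`, and `J_AP2c` (`U = e^{y√Λ} ≫ Λ^5`). -/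
def J_DIFx : Prop := ∃ C : ℝ, 0 < C ∧ ∀ η : ℝ, 0 < η → η ≤ 1 / 100 → ∀ y x : ℝ, 0 < y → ∀ᶠ T : ℝ in atTop,
  ∫ t in T..(3 * T), |MXx y x T t - NNx η y x T t| ≤ C * Real.sqrt η * T

/-- CMP. Comparison of `log|ζ|` with the walk under the weight `|ζ|^2`. (a) On `{‖ze‖ ≤ L e^{x√Λ}, XX Y > (x+δ)√Λ}`: `|ζ|^2 ≤ L^2 e^{2 Re PP - 2 VV Y - 2δ√Λ} ≤ C Λ^4 e^{-2δ√Λ} e^{2 Re PP}`; where `|PP Y| ≤ 40Λ` use
`e^{2 Re PP} ≤ 2 ‖eT(PP)‖^2` and `J_MV, J_EXP, J_CHERN, J_TAIL` (`nm ≤ C e^Y ≤ C L`); elsewhere `|ζ|^2 ≤ 2|ζ-B|^2 + 8|D'|^2`, `J_AP1, J_DD, J_EXC`. (b) On `{‖ze‖ > L e^{x√Λ}, XX Y ≤ (x-δ)√Λ}`: either `|ζ| ≤ 2|ζ-B|` (`J_AP1`) or `|D'| ≥ |ζ|/4 ≥ c e^{Re PP} e^{δ√Λ}`, so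
`|D'|^2 ≤ C e^{-2δ√Λ} |D'|^4 e^{-2 Re PP}`, and `∫ |D'|^4 ‖eT(-PP)‖^2 ≤ C T L^2` times a power of `Λ`: `J_NR` with `h = 0`, `a = b = Y` (or its proof). -/
def J_CMP : Prop := ∃ C : ℝ, 0 < C ∧ ∀ η : ℝ, 0 < η → η ≤ 1 / 100 → ∀ x δ : ℝ, 0 < δ → ∀ᶠ T : ℝ in atTop,
  ∫ t in T..(4 * T), Set.indicator {s | (‖ze s‖ ≤ Real.exp (x * Real.sqrt (La T)) * Real.log T ∧
      (x + δ) * Real.sqrt (La T) < XX (Yt T) s) ∨
      (Real.exp (x * Real.sqrt (La T)) * Real.log T < ‖ze s‖ ∧ XX (Yt T) s ≤ (x - δ) * Real.sqrt (La T))}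
    (fun s => ‖ze s‖ ^ 2) t ≤ C * η * T * Real.log T

/-- LAWx. The law for `U = UU y T`: `J_C2x, J_C3x, J_C4x, J_FIN, J_CONx, J_DIFx, J_LVx` exactly as in `t_LAW` (Pool/Agent/Q80/EW/LAW.lean; `GX` continuous, `0 ≤ GX ≤ 1`) for `MXx`, and then `J_CMP`:
`MXx (x-δ) - E ≤ MZ x ≤ MXx (x+δ) + E` with `∫_T^{3T} E ≤ Cη T` (Fubini; `t + h ≤ 4T`). -/
def J_LAWx : Prop := ∀ y x : ℝ, 0 < y → ∀ ε : ℝ, 0 < ε → Tendsto (fun T : ℝ =>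
  (volume {t : ℝ | t ∈ Set.Icc T (3 * T) ∧ ε < |MZ (UU y T) T x t - GX (y / 2) x|}).toReal / T) atTop (𝓝 0)

/-- MAINx. From `J_LAWx`, `J_MAIN`, `J_EF` (and `J_HLW`) to all `1 ≤ U ≤ T`, uniformly in `x`. For fixed `x`: lower bounds for `MZ x` and for `MM - MZ x` by averaging over subwindows of length `UU y T` as in job RED
(`min(·,1)` inside, almost all subwindows are good), for `U ≥ UU (y+δ) T`; since `MM` itself is close to `erf(log U/(2√Λ))` (`J_MAIN`) these give both bounds for `MZ x` when `y` is close to `log U/√Λ` (or `y` large if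
`log U/√Λ` is large, as `GX b x → (1+erf x)/2`; for small `log U/√Λ` everything is small). Uniformity in `x`: `MZ` and `GX` are nondecreasing in `x`, `GX` is continuous, `GX b (-∞) = 0`, `GX b x ≤ erf b`: finite grid of `x`. -/
def J_MAINx : Prop := ∀ ε : ℝ, 0 < ε → ∀ᶠ T : ℝ in atTop, ∀ U : ℝ, 1 ≤ U → U ≤ T →
    (volume {t : ℝ | t ∈ Set.Icc T (2 * T) ∧
      ∃ x : ℝ, ε < |MZ U T x t - GX (Real.log U / (2 * Real.sqrt (La T))) x|}).toReal ≤ ε * T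

/-- MAXx. The maximum in windows. Upper bound: `sup_{[t,t+U]} |ζ|^2 ≤ (1/U)∫ |ζ|^2 + 2 ∫ |ζζ'|`, mean `≤ C U L^2` (`∫_T^{4T} |ζ'(1/2+iu)|^2 ≤ C T L^3`: library, Ingham, or Cauchy's formula on circles of radius `1/L` and the mean squares near the line),
Markov: `|ζ| > L e^{(b+ε)√Λ}`, `b = log U/(2√Λ)`, somewhere in the window with probability `≤ C e^{-2ε√Λ}`. Lower bound: by `J_MAINx` and `J_MAIN`, for `b ≥ ε` the mass of `{|ζ| > L e^{(b-ε)√Λ}}` is close to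
`GX b ∞ - GX b (b-ε) > c(ε,K) > 0`; for `b ≤ ε`: compare with... only `sup ≥ -ε` is needed, `J_MAINx` at the window itself if `b ≥ ε/2`; for `b < ε/2` use the mean square of a window: `MM` is not `o(e^{-ε√Λ})`; simplest: restrict the statement to `log U ≥ ε √Λ`. -/
def J_MAXx : Prop := ∀ ε K : ℝ, 0 < ε → ∀ᶠ T : ℝ in atTop, ∀ U : ℝ, Real.exp (ε * Real.sqrt (La T)) ≤ U → U ≤ Real.exp (K * Real.sqrt (La T)) →
    (volume {t : ℝ | t ∈ Set.Icc T (2 * T) ∧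
      ε * Real.sqrt (La T) < |Real.log (⨆ u : Set.Icc t (t + U), ‖ze u‖) - La T - Real.log U / 2|}).toReal ≤ ε * T

end

end Pool.Agent.Q80.EW
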