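import Pool.Agent.Q80.EW.Stm3

set_option autoImplicit false

/-!
Project EW of helper80: corollaries of the main theorem.
-/

namespace Pool.Agent.Q80.EW

open Filter Topology MeasureTheory

noncomputable section

/-- EF. Facts about `erf`: `erf 0 = 0`, continuous, strictly increasing, `0 < erf b < 1` for `b > 0`, limit `1` (Gaussian integral
`integral_gaussian_Ioi`). -/
def J_EF : Prop := erf 0 = 0 ∧ Continuous erf ∧ StrictMono erf ∧ (∀ b : ℝ, 0 < b → 0 < erf b ∧ erf b < 1) ∧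
  Tendsto erf atTop (𝓝 1)

/-- COR1. Moments of order `0 < q < 1` of the window means, uniformly in `1 ≤ U ≤ T`. Hypotheses `J_MAIN`, `J_HLW`, `J_EF`. Proof: with `e = erf(...) ∈ [0,1]`, split
`|M^q - e^q|` on `{|M - e| ≤ ε'}` (`x ↦ x^q` is uniformly continuous on `[0,2]`: `|a^q - b^q| ≤ |a-b|^q`) and its complement `E`, where by Hoelder
`∫_E M^q ≤ (∫ M)^q (vol E)^{1-q} ≤ (2T)^q (ε' T)^{1-q}` (`J_HLW` and Fubini: `∫_T^{2T} M ≤ 2T` for large `T`). -/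
def J_COR1 : Prop := ∀ q ε : ℝ, 0 < q → q < 1 → 0 < ε → ∀ᶠ T : ℝ in atTop, ∀ U : ℝ, 1 ≤ U → U ≤ T →
  |1 / T * (∫ t in T..(2 * T), MM U T t ^ q) - erf (Real.log U / (2 * Real.sqrt (La T))) ^ q| ≤ ε

/-- COR2. The Hardy-Littlewood asymptotic in almost all windows. Hypotheses `J_MAIN`, `J_HLW`, `J_EF`. Proof. (a) implies (c): otherwise `log U/√Λ` is bounded by some `K` along a
sequence `T_n → ∞`, there `erf ≤ erf(K/2) < 1`, so `|M - 1| ≥ (1 - erf(K/2))/2` outside a set of measure `o(T)`. (c) implies (a): `erf → 1`, triangle inequality.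
(b) implies (a): Markov. (a) implies (b): `(1/T) ∫_T^{2T} M ≤ 1 + o(1)` (`J_HLW`, Fubini, `1 ≤ U ≤ T`), `∫ |M-1| = ∫ (M-1) + 2 ∫ (1-M)^+ `, and
`(1/T) ∫ (1-M)^+ ≤ ε + (1/T) vol{|M-1| > ε}` as `M ≥ 0`. -/
def J_COR2 : Prop := ∀ U : ℝ → ℝ, (∀ T : ℝ, 1 ≤ T → 1 ≤ U T ∧ U T ≤ T) →
  ((∀ ε : ℝ, 0 < ε → Tendsto (fun T : ℝ => (volume {t : ℝ | t ∈ Set.Icc T (2 * T) ∧
      ε < |MM (U T) T t - 1|}).toReal / T) atTop (𝓝 0)) ↔
    Tendsto (fun T : ℝ => Real.log (U T) / Real.sqrt (La T)) atTop atTop) ∧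
  (Tendsto (fun T : ℝ => 1 / T * ∫ t in T..(2 * T), |MM (U T) T t - 1|) atTop (𝓝 0) ↔
    Tendsto (fun T : ℝ => Real.log (U T) / Real.sqrt (La T)) atTop atTop)

end

end Pool.Agent.Q80.EW
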