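import Pool.Agent.Q80.EW.Stm3

set_option autoImplicit false

/-!
Project EWD of helper80 (discrete sampling): for `α > 0` with `exp(2πk/α)` irrational for every `k ≥ 1`, uniformly in `1 ≤ N ≤ T`, for almost all `t ∈ [T,2T]`
`(1/(N log T)) ∑_{n<N} |ζ(1/2 + i(t + nα))|^2 = ½ (1 + erf((log N - Λ)/(2√Λ))) + o(1)`, `Λ = log log T`:
about `log T` sample points are needed to see the mean square of zeta.

Notation: `L = log T`, `Λ = La T`, `Y = Yt T`, `Z = zc Y`, `l = el T`. Everything uses the definitions and results of project EW with `m = 1`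
(`NE T 1`, `WK T 1 b`, `De T 1 0 t = (XX Y t - XX 0 t)/√Λ`), and `N = Ny y T = ⌊exp(Λ + y√Λ)⌋`.
-/

namespace Pool.Agent.Q80.EW

open Filter Topology MeasureTheory

noncomputable section

/-- the sampling step is not resonant -/
def NR (α : ℝ) : Prop := 0 < α ∧ ∀ k : ℕ, 1 ≤ k → Irrational (Real.exp (2 * Real.pi * k / α))

/-- `N = ⌊exp(Λ + y √Λ)⌋` -/
def Ny (y T : ℝ) : ℕ := ⌊Real.exp (La T + y * Real.sqrt (La T))⌋₊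

/-- the sampled mean square of zeta -/
def DM (α : ℝ) (N : ℕ) (T t : ℝ) : ℝ := 1 / (N * Real.log T) * ∑ n ∈ Finset.range N, ‖ze (t + n * α)‖ ^ 2

/-- the limit: the distribution function of `N(0,1/2)` -/
def cdf2 (b : ℝ) : ℝ := (1 + erf b) / 2

/-- pairs `(T,h)`, `T → ∞`, `κ ≤ h ≤ exp(K Λ)` -/
def lW (κ K : ℝ) : Filter (ℝ × ℝ) :=
  comap Prod.fst atTop ⊓ 𝓟 {x | κ ≤ x.2 ∧ x.2 ≤ Real.exp (K * La x.1)}

/-! ### the wide versions of the two point statements -/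

/-- TWOw. As `J_TWO` (`Pool.Agent.Q237.EW.One`, `two`), with the range `κ ≤ h ≤ exp(K Λ)`: the bound of `J_PS` at `a ≥ exp(Λ^3)` is still
`C/(κ Λ^3) + C (1 + e^{KΛ}) exp(-c Λ^{3/2}) → 0`. Hypotheses `J_EU, J_MERT, J_PS`. -/
def J_TWOw : Prop := ∀ (m : ℕ) (u u' : Fin m → ℝ) (κ K ε : ℝ), 1 ≤ m → 0 < κ → 0 < ε → ∀ᶠ T : ℝ in atTop,
  ∀ h : ℝ, κ ≤ h → h ≤ Real.exp (K * La T) →
  |nm (GG 1 1 (zc (Yt T)) h (wu T m u) (wu T m u')) / nm (GG 1 1 (zc (Yt T)) h 0 0) *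
    Real.exp (-(vu T m u) - vu T m u') - Real.exp ((∑ i, u i ^ 2 + ∑ i, u' i ^ 2) / (4 * m))| ≤ ε

/-- G2w. As `J_G2` (`Pool.Agent.Q16.EW.g2`) with the filter `lW κ K` and `J_TWOw`. -/
def J_G2w : Prop := ∀ (η : ℝ) (m : ℕ) (u u' : Fin m → ℝ) (κ K : ℝ), 0 < η → η ≤ 1 / 100 → 1 ≤ m → 0 < κ →
  Tendsto (fun x : ℝ × ℝ => (∫ t in x.1..(3 * x.1), Set.indicator {t | NE x.1 m t ∧ NE x.1 m (t + x.2)}
    (fun t => ‖Dp η x.1 t‖ ^ 2 * ‖Dp η x.1 (t + x.2)‖ ^ 2 *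
      Real.exp (∑ i, u i * De x.1 m i t + ∑ i, u' i * De x.1 m i (t + x.2))) t) /
      (2 * x.1 * nm (dd η x.1 * sh x.2 (dd η x.1))))
    (lW κ K) (𝓝 (Real.exp ((∑ i, u i ^ 2 + ∑ i, u' i ^ 2) / (4 * m))))

/-- M2w. As `J_M2` with the range `κ ≤ h ≤ exp(K Λ)` (`δ` of `J_FR` from `J_PS`: `C/(κ log Z) + C (1+e^{KΛ}) exp(-c √(log Z))`, `log Z ≥ L/Λ^2`). -/
def J_M2w : Prop := ∀ (η κ K ε : ℝ), 0 < η → η ≤ 1 / 100 → 0 < κ → 0 < ε → ∀ᶠ T : ℝ in atTop,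
  ∀ h : ℝ, κ ≤ h → h ≤ Real.exp (K * La T) →
    nm (dd η T * sh h (dd η T)) ≤ (1 + ε) * ((1 / 2 - 2 * η) * Real.log T) ^ 2 * Corr (Yt T) h

/-- P2w. As `J_P2` with the range `κ ≤ h ≤ exp(K Λ)`, from `J_G2w, J_CL, J_LV2, J_M2w`. -/
def J_P2w : Prop := ∀ (η : ℝ) (m : ℕ) (b κ K ε : ℝ), 0 < η → η ≤ 1 / 100 → 1 ≤ m → 0 < κ → 0 < ε →
  ∀ᶠ T : ℝ in atTop, ∀ h : ℝ, κ ≤ h → h ≤ Real.exp (K * La T) →
    ∫ t in T..(3 * T), Set.indicator {t | (NE T m t ∧ WK T m b t) ∧ (NE T m (t + h) ∧ WK T m b (t + h))}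
      (fun t => ‖Dp η T t‖ ^ 2 * ‖Dp η T (t + h)‖ ^ 2) t ≤
    2 * T * ((1 / 2 - 2 * η) * Real.log T) ^ 2 * Corr (Yt T) h * (gam m b ^ 2 + ε)

/-! ### discrete ingredients -/

/-- AVD. The average of the correlation factor over the points `nα`. Hypotheses `J_PS, J_MERT, J_MV`. As `J_AV` (job AV of helper61): with `w = exp(y^3)` the primes `≥ w` contribute
`1 + o(1)` uniformly for `α ≤ h ≤ α exp(K y)` (`J_PS`). For the `w`-smooth series `F(h) = ∑ n^{-1-ih}`, `|F|^2 ≤ (1+ε)|F_0|^2 + (1+1/ε)|F_1|^2`, `F_0` the part `n ≤ K0` (fixed),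
`∑_{n ≤ N} |F_0(nα)|^2 = ∑_{a,b ≤ K0} (1/(ab)) ∑_n (b/a)^{inα} ≤ N ∑ 1/a^2 + C(K0,α)`, since `(b/a)^{iα} ≠ 1` for `a ≠ b` (else `α log(b/a) = 2πk`, `b/a = exp(2πk/α)` rational),
and `∑_{n ≤ N} |F_1(nα)|^2 ≤ C_α ∫_0^{(N+1)α} (|F_1|^2 + |F_1 F_1'|) ≤ C_α ∑_{n > K0, w-smooth} (1 + log n)(N + n)/n^2 ≤ C_α (N (1+log K0)/K0 + y^6)`.
`∏_{p<w} (1-p^{-2}) ∑_{a ≤ K0} a^{-2} ≤ 1 + ε`. -/
def J_AVD : Prop := ∀ α : ℝ, NR α → ∀ K κ ε : ℝ, 0 < κ → 0 < ε → ∀ᶠ y : ℝ in atTop, ∀ N : ℕ,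
  Real.exp (κ * y) ≤ N → (N : ℝ) ≤ Real.exp (K * y) →
    ∑ n ∈ Finset.Icc 1 N, Corr y (n * α) ≤ (1 + ε) * N

/-- LD. Large deviations at one point. First part: on the set `1 ≤ 2 e^{-2β-2 VV a} ‖eT(PP a)‖^2` (`J_ET`), polynomial of `tr l (ex (lo a))` (`J_EXP`), mean value theorem (`J_MV`; `Z^l ≤ T`),
`nm ≤ C e^a` (`J_CHERN`, `J_TAIL` with `s0 = s1 = 0`), `VV a ≥ a - C` (`J_MERT`). Second part: `k = ⌈20Λ⌉`, polynomial `PP^k/k!` of `pk k (ex (lo a))`, `nm ≤ C e^a` (domination, `J_CHERN`),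
`(k!/(40Λ)^k)^2 ≤ (1.99)^{-40Λ} ≤ e^{-27Λ}`. -/
def J_LD : Prop := ∃ C : ℝ, 0 < C ∧ ∀ᶠ T : ℝ in atTop, ∀ a β : ℝ, 0 ≤ a → a ≤ Yt T →
  (volume {t : ℝ | t ∈ Set.Icc T (4 * T) ∧ β < XX a t ∧ ‖PP a t‖ ≤ 40 * La T}).toReal ≤ C * T * Real.exp (-a - 2 * β) ∧
  (volume {t : ℝ | t ∈ Set.Icc T (4 * T) ∧ 40 * La T < ‖PP a t‖}).toReal ≤ T * Real.exp (-(20 * La T))

/-- the good set, last level only -/
def GE (b T : ℝ) : Set ℝ := {t | XX (Yt T) t ≤ b * Real.sqrt (La T) ∧ NE T 1 t}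

/-- `(2/L)|D'|^2` on the good set -/
def fe (η b T t : ℝ) : ℝ := Set.indicator (GE b T) (fun t => 2 / Real.log T * ‖Dp η T t‖ ^ 2) t

/-- its sampled means -/
def WE (η b α : ℝ) (N : ℕ) (T t : ℝ) : ℝ := 1 / (N : ℝ) * ∑ n ∈ Finset.range N, fe η b T (t + n * α)

/-- the sampled means of `(2/L)|D'|^2` -/
def NX (η α : ℝ) (N : ℕ) (T t : ℝ) : ℝ := 2 / (N * Real.log T) * ∑ n ∈ Finset.range N, ‖Dp η T (t + n * α)‖ ^ 2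

/-- C2D. Upper bound in mean on good points, `N = Ny y T`. `B = {t | ∃ n < N, XX Y (t+nα) > (y/2+ε)√Λ or t + nα not in NE T 1}`, measure
`≤ N (C T exp(-Y - (y+2ε)√Λ) + 3 T e^{-20Λ}) = o(T)` by `J_LD` (`e^{-Y} = Λ^2/L`, `N ≤ L e^{y√Λ}`); off `B`, as in `J_C2` with `m = 1` (`J_P1`, `J_FF`, `J_MASS`; `Nα = T^{o(1)}`). -/
def J_C2D : Prop := ∀ (α η y ε δ : ℝ), 0 < α → 0 < η → η ≤ 1 / 100 → 0 < ε → 0 < δ →
  ∀ᶠ T : ℝ in atTop, ∃ B : Set ℝ, MeasurableSet B ∧ (volume (B ∩ Set.Icc T (3 * T))).toReal ≤ δ * T ∧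
    (∀ t ∈ Set.Icc T (3 * T) \ B, ∀ n < Ny y T, t + n * α ∈ GE (y / 2 + ε) T) ∧
    ∫ t in Set.Icc T (3 * T) \ B, NX η α (Ny y T) T t ≤ 2 * T * ((1 - 4 * η) * gam 1 (y / 2 + 2 * ε) + δ)

/-- C3D. `∫_T^{3T} WE ≥ ∫_{T+Nα}^{3T} fe`, `GE b T ⊇ {NE ∧ WK T 1 (b - ε)}` for large `T` (`|XX 0| ≤ 2`), `J_P1`, `J_MASS`, `J_FF` for the short interval. -/
def J_C3D : Prop := ∀ (α η y b ε δ : ℝ), 0 < α → 0 < η → η ≤ 1 / 100 → 0 < ε → 0 < δ →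
  ∀ᶠ T : ℝ in atTop,
    2 * T * ((1 - 4 * η) * gam 1 (b - ε) - δ) ≤ ∫ t in T..(3 * T), WE η b α (Ny y T) T t

/-- C4D. Second moment, barrier `b < y/2`. Diagonal: `(1/N)(4/L^2) ∫ ‖D'‖^4 1_GE ≤ (C T Λ^4/N) exp(Y + 2b√Λ) → 0` relative to `T` by `J_NR` with `h = 0`, `a = b = Y`, `β = b√Λ`
(`e^Y = L/Λ^2`, `N ≥ ½ L e^{y√Λ}`). Off the diagonal, `h = |n-n'| α ∈ [α, exp(3Λ)]`: `J_P2w` (`m = 1`, `GE b T ⊆ NE ∧ WK T 1 (b+ε)`), edges by `J_FF, J_M2w`, and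
`(1/N^2) ∑_{n ≠ n'} Corr(Y, |n-n'|α) ≤ 1 + o(1)` from `J_AVD` (as `y → Yt T`; for `N' < exp(Y/2)` use monotonicity: `∑_{n ≤ N'} ≤ (1+ε)(N' + exp(Y/2) + 1)`). -/
def J_C4D : Prop := ∀ (α η y b ε δ : ℝ), NR α → 0 < η → η ≤ 1 / 100 → b < y / 2 → 0 < ε → 0 < δ →
  ∀ᶠ T : ℝ in atTop,
    ∫ t in T..(3 * T), WE η b α (Ny y T) T t ^ 2 ≤ 2 * T * ((1 - 4 * η) ^ 2 * gam 1 (b + ε) ^ 2 + δ)

/-! ### the oscillating term -/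

/-- complex weights -/
def exc (w : ℕ → ℂ) : ArithmeticFunction ℂ :=
  ⟨fun n => if n = 0 then 0 else n.factorization.prod fun p a => w p ^ a / (a.factorial : ℂ), by simp⟩

/-- `∑ w(p) p^{-1/2-it}` over the primes `< Z` -/
def PVc (Z : ℕ) (w : ℕ → ℂ) (t : ℝ) : ℂ :=
  ∑ p ∈ Nat.primesBelow Z, w p * (p : ℂ) ^ (-((1 / 2 : ℂ) + (t : ℂ) * Complex.I))

/-- EXPc. `J_EXP` for complex weights. -/
def J_EXPc : Prop := ∀ (Z l : ℕ) (w : ℕ → ℂ), 1 ≤ Z → (∀ p : ℕ, Z ≤ p → w p = 0) →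
  FS (Z ^ l) (tr l (exc w)) ∧ ∀ t : ℝ, dp (tr l (exc w)) t = eT l (PVc Z w t)

/-- ETc. The truncated exponential against the exponential, complex form: `|eT l w - e^w| ≤ e^{-l} |e^w|` for `|w| ≤ l/10`, `l` large. -/
def J_ETc : Prop := ∀ᶠ l : ℕ in atTop, ∀ w : ℂ, ‖w‖ ≤ (l : ℝ) / 10 →
  ‖eT l w - Complex.exp w‖ ≤ Real.exp (-(l : ℝ)) * ‖Complex.exp w‖

/-- CEP. Complex Euler products: for multiplicative `f, g` supported on `Z`-smooth numbers with `|f(p^k)|, |g(p^k)| ≤ K (k+1)^3`: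
`|∑ f(n) conj g(n) / n| ≤ exp(Re ∑_{p<Z} f(p) conj g(p)/p + C(K))`. (Local factor `1 + f(p) conj g(p)/p + O_K(p^{-2})`; for `p ≤ p0(K)` bound trivially; for larger `p`
`|1+z| ≤ exp(Re z + |z|^2)`.) -/
def J_CEP : Prop := ∀ K : ℝ, 0 < K → ∃ C : ℝ, 0 < C ∧ ∀ (Z : ℕ) (f g : ArithmeticFunction ℂ), f.IsMultiplicative → g.IsMultiplicative →
  (∀ n : ℕ, f n ≠ 0 → n ∈ Nat.smoothNumbers Z) → (∀ p k : ℕ, p.Prime → ‖f (p ^ k)‖ ≤ K * ((k : ℝ) + 1) ^ 3 ∧ ‖g (p ^ k)‖ ≤ K * ((k : ℝ) + 1) ^ 3) →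
  ‖∑' n : ℕ, f n * (starRingEnd ℂ) (g n) / (n : ℂ)‖ ≤
    Real.exp ((∑ p ∈ Nat.primesBelow Z, (f p * (starRingEnd ℂ) (g p)).re / (p : ℝ)) + C)

/-- BMV. Bilinear mean value theorem with the weight `t^{-ih}` (more generally any `C^1` weight): from the bilinear Montgomery-Vaughan theorem (`MVB` in `Pool/Agent/Y840/SW/MVB.lean`, `W184/MV.lean` `mv_DS`,
or polarisation of `J_MV`) on `[a, x]` and partial integration: the error is `≤ C X (sup|w| + ∫|w'|) (nm f nm g)^{1/2}`. -/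
def J_BMV : Prop := ∃ C : ℝ, 0 < C ∧ ∀ (X : ℕ) (f g : ArithmeticFunction ℂ), FS X f → FS X g →
  ∀ (a b M : ℝ) (w : ℝ → ℂ), a ≤ b → ContDiff ℝ 1 w → (∀ t ∈ Set.Icc a b, ‖w t‖ ≤ M) → ∫ t in a..b, ‖deriv w t‖ ≤ M →
  ‖(∫ t in a..b, w t * dp f t * (starRingEnd ℂ) (dp g t)) -
    (∫ t in a..b, w t) * ∑ n ∈ Finset.Icc 1 X, f n * (starRingEnd ℂ) (g n) / (n : ℂ)‖ ≤ C * X * M * Real.sqrt (nm f * nm g)

/-- CHI. Stirling for the factor of the functional equation: `conj(chi t) chi(t+h) = exp(-ih log(t/2π)) (1 + O((1+h^2)/t))` for `0 ≤ h ≤ √t`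
(`chi t = e^{iπ/4} exp(-i t log(t/(2πe))) (1 + O(1/t))`; library, see the docstring of `J_AP2`). -/
def J_CHI : Prop := ∃ C : ℝ, 0 < C ∧ ∀ t h : ℝ, 100 ≤ t → 0 ≤ h → h ≤ Real.sqrt t →
  ‖(starRingEnd ℂ) (chi t) * chi (t + h) - Complex.exp (-((h * Real.log (t / (2 * Real.pi)) : ℝ) * Complex.I))‖ ≤ C * (1 + h ^ 2) / t

/-- the oscillating term on the good set -/
def FX (η b T t : ℝ) : ℂ := Set.indicator {t | NE T 1 t ∧ WK T 1 b t} (fun t => (starRingEnd ℂ) (chi t) * Dp η T t ^ 2) t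

/-- OSM. The two point oscillation with characters `e^{iuS}`, `S(t) = De T 1 0 t`, is small. Proof. On `NE`, `e^{iuS(t)} = e^{-iuc} eT(w P) conj(eT(-w P))` up to a relative error `O(e^{-l})`, `w = iu/(2√Λ)` on the block,
`P = PVc`, `c` real (`J_ETc`, `J_EXPc`; `conj(exp(-wP)) = exp(w conj P)` as `w` is imaginary). With `J_CHI` the integrand becomes `e^{-ih log(t/2π)} A(t) conj(B(t))`,
`A(t) = D'(t)^2 eT(w P(t)) · eT(w' P(t+h))`, `B(t) = D'(t+h)^2 eT(..)(t+h) eT(..)(t)` (four exponential factors in all, two in `A`, two in `B`), polynomials of length `≤ T^{1-3η}`; `J_BMV` gives the diagonal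
`∑ A_n conj B_n / n`, smooth part times rough part: the smooth part is `≤ exp(Re ∑ (2 + O(|w|)) conj((2+O(|w|)) p^{-ih})/p + C) ≤ exp(4 ∑ cos(h log p)/p + C√Λ) = e^{O(√Λ)}` by `J_CEP` and `J_PS` (primes `< exp(Λ^3)` trivially, `O(log Λ)`),
the truncation to `Ω ≤ l` costs `o(1)` (domination as in `J_TAIL`; all weights at most 1), and the rough part is `≤ nm(ro)^4 ≤ (CΛ^2)^4` (`J_RHO`). The part off `NE`: `J_EXC`-type bounds with `|e^{iuS}| = 1` and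
`|eT eT| ` bounded through `nm` (or first multiply out with the indicator of `NE` replaced by `1` using `‖D'‖^2‖D'_h‖^2 1_{NE^c}` and Cauchy-Schwarz with `nm`-bounds of size `e^{20Λ}` against `e^{-27Λ}`).
So the whole is `≤ T e^{C√Λ} ≤ T L`. -/
def J_OSM : Prop := ∀ (η u u' κ K : ℝ), 0 < η → η ≤ 1 / 100 → 0 < κ → ∀ᶠ T : ℝ in atTop, ∀ h : ℝ, κ ≤ h → h ≤ Real.exp (K * La T) →
  ‖∫ t in T..(3 * T), Set.indicator {t | NE T 1 t ∧ NE T 1 (t + h)}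
    (fun t => (starRingEnd ℂ) (chi t) * Dp η T t ^ 2 * (chi (t + h) * (starRingEnd ℂ) (Dp η T (t + h)) ^ 2) *
      Complex.exp (((u * De T 1 0 t + u' * De T 1 0 (t + h) : ℝ) : ℂ) * Complex.I)) t‖ ≤ T * Real.log T

/-- TRG. Trigonometric approximation of the indicator of a half line: for `b` real and `ε > 0` there are `A > 0`, `r > 0`, and a finite trigonometric polynomial `φ`, `|φ| ≤ 2` everywhere, with
`|1_{s ≤ b} - φ(s)| ≤ ε` for `|s| ≤ A`, `|s - b| ≥ r`, and the law `N(0,1/2)` gives mass at most `ε` to `{|s| > A} ∪ {|s - b| < r}` (Fejer kernel of a periodised piecewise linear function). -/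
def J_TRG : Prop := ∀ b ε : ℝ, 0 < ε → ∃ (A r : ℝ) (F : Finset ℝ) (c : ℝ → ℂ), 0 < A ∧ 0 < r ∧
  (∀ s : ℝ, ‖∑ u ∈ F, c u * Complex.exp (((u * s : ℝ) : ℂ) * Complex.I)‖ ≤ 2) ∧
  (∀ s : ℝ, |s| ≤ A → r ≤ |s - b| →
    ‖(if s ≤ b then (1 : ℂ) else 0) - ∑ u ∈ F, c u * Complex.exp (((u * s : ℝ) : ℂ) * Complex.I)‖ ≤ ε) ∧
  (gm 1 (Fin 1)).real {x | A < |x 0| ∨ |x 0 - b| < r} ≤ ε

/-- OSC. The two point oscillation on the good set. From `J_TRG` (replace both indicators by `φ(S(t))`, `φ(S(t+h))`: the error is at most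
`∫ ‖D'‖^2‖D'_h‖^2 1_NE 1_NE (4 ε + 9 · 1_{bad}(S(t)) + 9 · 1_{bad}(S(t+h)))`, and by `J_G2w, J_CL, J_M2w` the bad parts are `≤ 2ε · 2T (..L)^2 Corr`), then `J_OSM` for the finitely many pairs of characters. -/
def J_OSC : Prop := ∀ (η b κ K ε : ℝ), 0 < η → η ≤ 1 / 100 → 0 < κ → 0 < ε → ∀ᶠ T : ℝ in atTop, ∀ h : ℝ, κ ≤ h → h ≤ Real.exp (K * La T) →
  ‖∫ t in T..(3 * T), FX η b T t * (starRingEnd ℂ) (FX η b T (t + h))‖ ≤ ε * T * Real.log T ^ 2 * (Corr (Yt T) h + 1)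

/-- XD. The oscillating term is small in measure. `X(t) = (2/(NL)) ∑ Re(conj chi D'^2)(t+nα)`. Fix a small `ε'`, `b = y/2 - ε'`. (1) the part `X^-` with `FX η b T`: `∫ |X^-|^2 ≤ (4/(N^2L^2)) (N ∫ ‖D'‖^4 1 + 2 N ∑_{n<N} |∫ FX conj FX(·+nα)| + edges)`;
diagonal by `J_NR` as in `J_C4D` (`o(T)`), off-diagonal by `J_OSC` and `J_AVD`: `≤ C ε'' T`. (2) points in `GE (y/2+ε') T` but not in `{NE ∧ WK T 1 b}`: mass `(2/L)∫ ‖D'‖^2 ≤ 2T (gam 1 (y/2+2ε') - gam 1 (y/2-ε') + o(1)) = O(ε') T` by `J_P1`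
(`gam 1` is continuous, even Lipschitz: `gam 1 b = P(N(0,1/2) ≤ b)`). (3) other points: only for `t ∈ B` of `J_C2D`, `vol B ≤ δ T`. Markov. -/
def J_XD : Prop := ∀ (α η y δ : ℝ), NR α → 0 < η → η ≤ 1 / 100 → 0 < δ → ∀ᶠ T : ℝ in atTop,
  (volume {t : ℝ | t ∈ Set.Icc T (3 * T) ∧ δ < |2 / (Ny y T * Real.log T) *
    ∑ n ∈ Finset.range (Ny y T), ((starRingEnd ℂ) (chi (t + n * α)) * Dp η T (t + n * α) ^ 2).re|}).toReal ≤ δ * T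

/-! ### conclusion -/

/-- DIFD. Comparison of the sampled means. With `B = D' + chi conj D'`, `|ζ|^2 - 2|D'|^2 - 2 Re(conj chi D'^2) = |ζ|^2 - |B|^2` (`|chi| = 1`), mean over `t ∈ [T,3T]` of the sampled absolute values
`≤ C √η T` (`J_AP1` on `[T,4T]`, `J_HLW`, `J_DD`), and `J_XD`. So in measure `|DM - NX| ≤ δ` outside a set of measure `(C √η/δ + δ) T`. -/
def J_DIFD : Prop := ∃ C : ℝ, 0 < C ∧ ∀ (α η y δ : ℝ), NR α → 0 < η → η ≤ 1 / 100 → 0 < δ → ∀ᶠ T : ℝ in atTop,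
  (volume {t : ℝ | t ∈ Set.Icc T (3 * T) ∧ 2 * δ < |DM α (Ny y T) T t - NX η α (Ny y T) T t|}).toReal ≤ (C * Real.sqrt η / δ + δ) * T

/-- FINp. As `J_FIN` (`Pool.Agent.Q251.EW.FIN`), with the comparison of `M` and `N` in measure, and without continuity. -/
def J_FINp : Prop := ∀ ε0 ε1 : ℝ, 0 < ε0 → 0 < ε1 → ∃ α : ℝ, 0 < α ∧ ∀ (T e w1 w2 w3 : ℝ) (M N W : ℝ → ℝ) (B : Set ℝ),
  0 < T → 0 ≤ e → e ≤ 1 → MeasurableSet B → Continuous M → Continuous N → Measurable W →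
  (∀ t, 0 ≤ W t ∧ W t ≤ N t) →
  (volume {t : ℝ | t ∈ Set.Icc T (3 * T) ∧ α < |M t - N t|}).toReal ≤ α * T →
  2 * T * w1 ≤ ∫ t in T..(3 * T), W t → ∫ t in T..(3 * T), W t ^ 2 ≤ 2 * T * w2 → w2 ≤ w1 ^ 2 + α →
  (volume (B ∩ Set.Icc T (3 * T))).toReal ≤ α * T →
  ∫ t in Set.Icc T (3 * T) \ B, N t ≤ 2 * T * w3 → w3 ≤ w1 + α → |w1 - e| ≤ α → 0 ≤ w1 →
  (volume {t : ℝ | t ∈ Set.Icc T (3 * T) ∧ ε0 < |M t - e|}).toReal ≤ ε1 * T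

/-- CONp. `DM`, `NX` continuous, `WE` measurable, `0 ≤ WE ≤ NX`. -/
def J_CONp : Prop := ∀ (α η b : ℝ) (N : ℕ) (T : ℝ), 3 < T →
  Continuous (DM α N T) ∧ Continuous (NX η α N T) ∧ Measurable (WE η b α N T) ∧
  ∀ t : ℝ, 0 ≤ WE η b α N T t ∧ WE η b α N T t ≤ NX η α N T t

/-- G1E. `gam 1 b = (1 + erf b)/2` for all real `b`. -/
def J_G1E : Prop := ∀ b : ℝ, gam 1 b = cdf2 b

/-- the law for `N = Ny y T` -/
def J_LAWD : Prop := ∀ α : ℝ, NR α → ∀ y : ℝ, ∀ ε : ℝ, 0 < ε → Tendsto (fun T : ℝ =>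
  (volume {t : ℝ | t ∈ Set.Icc T (3 * T) ∧ ε < |DM α (Ny y T) T t - cdf2 (y / 2)|}).toReal / T) atTop (𝓝 0)

/-- REDD. From `J_LAWD` to all `1 ≤ N`, `N α ≤ T`: as `J_RED` (job RED), with sums instead of integrals; hypotheses `J_LAWD, J_HLW`. `N = Ny y T` for fixed real `y` gives a grid; `cdf2 → 0` at `-∞`, `→ 1` at `+∞`. -/
def J_MAIND : Prop := ∀ α : ℝ, NR α → ∀ ε : ℝ, 0 < ε → ∀ᶠ T : ℝ in atTop, ∀ N : ℕ, 1 ≤ N → N * α ≤ T →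
    (volume {t : ℝ | t ∈ Set.Icc T (2 * T) ∧
      ε < |DM α N T t - cdf2 ((Real.log N - La T) / (2 * Real.sqrt (La T)))|}).toReal ≤ ε * T

end

end Pool.Agent.Q80.EW
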