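import Pool.Agent.Q80.EW.Stm2

set_option autoImplicit false

/-!
Project EW of helper80: statements of the third level (assembly). They use statements of `Stm.lean`, `Stm2.lean` as hypotheses.

Write `L = log T`, `Λ = La T = log log T`, `Y = Yt T`, `U = exp(y √Λ)`.
-/

namespace Pool.Agent.Q80.EW

open Filter Topology MeasureTheory

noncomputable section

/-- the length of the window -/
def UU (y T : ℝ) : ℝ := Real.exp (y * Real.sqrt (La T))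

/-- number of fine levels in one coarse block: the spacing `g = Y/(m q)` is at most `(ε/4) √Λ` -/
def qq (ε T : ℝ) (m : ℕ) : ℕ := ⌈Yt T / (m * (ε / 4 * Real.sqrt (La T)))⌉₊

/-- the good set: the walk is below `(y/2 - ε) √Λ` at all fine levels, no exceptional values -/
def GD (y ε T : ℝ) (m : ℕ) : Set ℝ := {t | ∀ j : ℕ, j ≤ m * qq ε T m →
  XX ((j : ℝ) * (Yt T / ((m : ℝ) * qq ε T m))) t ≤ (y / 2 - ε) * Real.sqrt (La T) ∧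
  ‖PP ((j : ℝ) * (Yt T / ((m : ℝ) * qq ε T m))) t‖ ≤ 40 * La T}

/-- `(2/L) |D'|^2` on the good set -/
def ff (η y ε T : ℝ) (m : ℕ) (t : ℝ) : ℝ :=
  Set.indicator (GD y ε T m) (fun t => 2 / Real.log T * ‖Dp η T t‖ ^ 2) t

/-- its window means -/
def WW (η y ε : ℝ) (m : ℕ) (T t : ℝ) : ℝ := 1 / UU y T * ∫ h in (0 : ℝ)..(UU y T), ff η y ε T m (t + h)

/-- the window means of `(2/L) |D'|^2` -/
def NN (η y T t : ℝ) : ℝ := 2 / (UU y T * Real.log T) * ∫ h in (0 : ℝ)..(UU y T), ‖Dp η T (t + h)‖ ^ 2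

/-- C2. Upper bound in mean on the good windows. `B = {t | ∃ h ∈ [0,U], ∃ i ≤ m, (y/2+ε)√Λ < XX (iY/m) (t+h) or 40Λ < ‖PP (iY/m) (t+h)‖}` is open (continuity) and small
(`J_GW`, sum over `i`). Off `B`, for every `h ∈ [0,U]`, `t + h` is in `{NE ∧ WK (y/2+2ε)}`: `∑_{i ≤ k} De_i = (XX((k+1)Y/m) - XX 0)/√Λ` and `|XX 0| ≤ 2 ≤ ε√Λ`. So by Fubini
`∫_{[T,3T] \ B} NN ≤ (2/L) ∫_T^{3T+U} ‖D'‖^2 1{NE ∧ WK(y/2+2ε)} ≤ (2/L) (2T nm(dd) (gam m (y/2+2ε) + δ') + (U + T^{1-2η}) nm(dd))` (`J_P1`, `J_FF` for `[3T,3T+U]`), and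
`(2/L) nm(dd) → 1 - 4η` (`J_MASS`). Hypotheses `J_GW, J_P1, J_FF, J_MASS` (and `J_EXP, J_MULT, J_MV` if useful). -/
def J_C2 : Prop := ∀ (η y ε δ : ℝ) (m : ℕ), 0 < η → η ≤ 1 / 100 → 0 < y → 0 < ε → 0 < δ → 1 ≤ m →
  ∀ᶠ T : ℝ in atTop, ∃ B : Set ℝ, MeasurableSet B ∧ (volume (B ∩ Set.Icc T (3 * T))).toReal ≤ δ * T ∧
    ∫ t in Set.Icc T (3 * T) \ B, NN η y T t ≤ 2 * T * ((1 - 4 * η) * gam m (y / 2 + 2 * ε) + δ)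

/-- C3. Lower bound of the mean of `WW`. Fubini: `∫_T^{3T} WW ≥ ∫_{T+U}^{3T} ff ≥ ∫_T^{3T} ff - (2/L)(U + T^{1-2η}) nm(dd)` (`J_FF`). With `M = m q`, `q = qq ε T m`, `g = Y/M ≤ (ε/4)√Λ`, `g → ∞`
(so `g ≥ 1`), levels `y_j = j g`: the complement of `GD` inside `{NE ∧ WK (y/2-3ε)}` is contained in `{some ‖PP y_j‖ > 40Λ}` (contribution `≤ (M+1) T/L`, `J_EXC` with `s0 = 1, s1 = 0`,
`v = v' = 0`) and `{all ‖PP y_j‖ ≤ 40Λ and some block i < m has j ≤ q with |XX y_{iq+j} - XX y_{iq}| > ε√Λ}`, because `XX` at the coarse levels is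
`≤ XX 0 + √Λ (y/2-3ε) ≤ (y/2-2ε) √Λ` (`|XX 0| ≤ 2 ≤ ε √Λ`; also `XX 0 ≤ (y/2 - 2ε)√Λ` for the level `0`, here `ε ≤ y/8` is used). For each block `J_CH` with `μ = ‖D'‖^2 1{all ‖PP y_j‖ ≤ 40Λ} dt` on `[T,3T]`,
`K = C T L g^2` (`J_INC`), `a = ε√Λ`: at most `C T L (g q)^2/(ε√Λ)^4 ≤ C T L/(m^2 ε^4)` since `g q = Y/m ≤ Λ/m`. Sum over `m` blocks. Main term `J_P1`, `J_MASS`.
Hypotheses `J_P1, J_FF, J_MASS, J_EXC, J_CH, J_INC`. -/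
def J_C3 : Prop := ∃ C : ℝ, 0 < C ∧ ∀ (η y ε δ : ℝ) (m : ℕ), 0 < η → η ≤ 1 / 100 → 0 < y → 0 < ε → ε ≤ y / 8 → 0 < δ → 1 ≤ m →
  ∀ᶠ T : ℝ in atTop,
    2 * T * ((1 - 4 * η) * gam m (y / 2 - 3 * ε) - C / (m * ε ^ 4) - δ) ≤ ∫ t in T..(3 * T), WW η y ε m T t

/-- C4. Upper bound of the second moment of `WW`. With `J(h) = ∫_T^{3T+U} ff(s) ff(s+h) ds` and `K(x) = ∫_0^x J`, Fubini and the substitution `s = t + min(h1,h2)` give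
`∫_T^{3T} WW^2 ≤ (2/U^2) ∫_0^U K(x) dx`. (a) Near: split `(0,1]` at the points `e^{-y_j}`, `j ≤ M`; on `[e^{-y_{j+1}}, e^{-y_j}]` use `J_NR` with `a = y_j`, `b = y_{j+1}`, `β = (y/2-ε)√Λ`, and on `(0, e^{-Y}]` with `a = b = Y`
(`3T+U ≤ 4T`; `ff ≤ (2/L)‖D'‖^2` for the second factor): `K(1) ≤ (M+2) C T Λ^4 exp(2g + (y-2ε)√Λ) = o(T U)`, as `2g ≤ (ε/2)√Λ`, `M ≤ Λ`. (b) Far, `1 ≤ h ≤ U`: `GD ⊆ {NE ∧ WK (y/2 - ε/2)}` (coarse levels are fine levels,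
`|XX 0| ≤ 2`), so by `J_P2` (and `J_FF, J_M2` for `[3T,3T+U]`: `(U+T^{1-2η}) nm(dd * sh h dd)`, `dd * sh h dd = FF 1 1 h 0 0`) `J(h) ≤ 2T (1-4η)^2 Corr(Y,h) (gam^2 + 2δ')`. (c) `J_AV` with `κ = y/2`, `K = 2y` (`Y ≥ Λ/4`, `Y ≤ Λ`):
`∫_1^x Corr ≤ (1+δ')(x + x0)`, `x0 = exp((y/2)√Y) ≤ U^{1/2}`, for all `1 ≤ x ≤ U` (`Corr ≥ 0`). Total `≤ 2T (1-4η)^2 (gam^2+2δ')(1+δ')(1+2x0/U) + o(T)`; `gam ≤ 1`.
Hypotheses `J_NR, J_P2, J_FF, J_M2, J_AV`. -/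
def J_C4 : Prop := ∀ (η y ε δ : ℝ) (m : ℕ), 0 < η → η ≤ 1 / 100 → 0 < y → 0 < ε → 0 < δ → 1 ≤ m →
  ∀ᶠ T : ℝ in atTop,
    ∫ t in T..(3 * T), WW η y ε m T t ^ 2 ≤ 2 * T * ((1 - 4 * η) ^ 2 * gam m (y / 2 - ε / 2) ^ 2 + δ)

/-- FIN. Abstract last step (Chebyshev for `W`, then the mean of `N` on the complement of `B`). Proof: `vol{|M-N| > ε0/2} ≤ 4Tα/ε0`;
`∫ (W-w1)^2 ≤ 2T (w2 - w1^2) ≤ 2Tα`, so `vol{|W-w1| > δ} ≤ 2Tα/δ^2`; off these and off `B`, `N ≥ W ≥ w1 - δ ≥ e - α - δ`; and `∫_{good} (N - w1 + δ) ≤ 2T w3 - (w1-δ) vol(good)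
≤ 2T (w3 - w1 + δ) + vol(bad)` bounds `vol{good, N > e + ε0/2}` by `(4/ε0) (...)`. First choose `δ`, then `α`. -/
def J_FIN : Prop := ∀ ε0 ε1 : ℝ, 0 < ε0 → 0 < ε1 → ∃ α : ℝ, 0 < α ∧ ∀ (T e w1 w2 w3 : ℝ) (M N W : ℝ → ℝ) (B : Set ℝ),
  0 < T → 0 ≤ e → e ≤ 1 → MeasurableSet B → Continuous M → Continuous N → Continuous W →
  (∀ t, 0 ≤ W t ∧ W t ≤ N t) →
  ∫ t in T..(3 * T), |M t - N t| ≤ α * T →
  2 * T * w1 ≤ ∫ t in T..(3 * T), W t → ∫ t in T..(3 * T), W t ^ 2 ≤ 2 * T * w2 → w2 ≤ w1 ^ 2 + α →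
  (volume (B ∩ Set.Icc T (3 * T))).toReal ≤ α * T →
  ∫ t in Set.Icc T (3 * T) \ B, N t ≤ 2 * T * w3 → w3 ≤ w1 + α → |w1 - e| ≤ α → 0 ≤ w1 →
  (volume {t : ℝ | t ∈ Set.Icc T (3 * T) ∧ ε0 < |M t - e|}).toReal ≤ ε1 * T

/-- CON. Regularity: the window means are continuous and ordered (`MM`, `NN` integrals of continuous functions; `WW`: the integrand is bounded on compact sets and measurable,
`GD` is closed, so the window mean is continuous in `t` by `∫_0^U f(t+h) dh = ∫_t^{t+U} f`). -/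
def J_CON : Prop := ∀ (η y ε : ℝ) (m : ℕ) (T : ℝ), 3 < T →
  Continuous (MM (UU y T) T) ∧ Continuous (NN η y T) ∧ Continuous (WW η y ε m T) ∧
  ∀ t : ℝ, 0 ≤ WW η y ε m T t ∧ WW η y ε m T t ≤ NN η y T t

/-- the law for windows of length `exp(y √Λ)` -/
def J_LAW : Prop := ∀ y : ℝ, 0 < y → ∀ ε : ℝ, 0 < ε → Tendsto (fun T : ℝ =>
  (volume {t : ℝ | t ∈ Set.Icc T (3 * T) ∧
    ε < |MM (Real.exp (y * Real.sqrt (La T))) T t - erf (y / 2)|}).toReal / T) atTop (𝓝 0)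

/-- the final theorem -/
def J_MAIN : Prop := ∀ ε : ℝ, 0 < ε → ∀ᶠ T : ℝ in atTop, ∀ U : ℝ, 1 ≤ U → U ≤ T →
    (volume {t : ℝ | t ∈ Set.Icc T (2 * T) ∧
      ε < |MM U T t - erf (Real.log U / (2 * Real.sqrt (La T)))|}).toReal ≤ ε * T

end

end Pool.Agent.Q80.EW
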