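import Pool.Agent.Q80.EW.Def

set_option autoImplicit false

/-!
Project EW of helper80: algebra of the Dirichlet polynomials `dp f`.
-/

namespace Pool.Agent.Q80.EW

open Filter Topology MeasureTheory

noncomputable section

theorem sh_apply (h : ℝ) (f : ArithmeticFunction ℂ) (n : ℕ) :
    sh h f n = f n * (n : ℂ) ^ (-((h : ℂ) * Complex.I)) := rfl

theorem tr_apply (l : ℕ) (f : ArithmeticFunction ℂ) (n : ℕ) :
    tr l f n = if ArithmeticFunction.cardFactors n ≤ l then f n else 0 := rfl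

theorem pk_apply (l : ℕ) (f : ArithmeticFunction ℂ) (n : ℕ) :
    pk l f n = if ArithmeticFunction.cardFactors n = l then f n else 0 := rfl

theorem norm_cpow_I (n : ℕ) (hn : n ≠ 0) (h : ℝ) : ‖(n : ℂ) ^ (-((h : ℂ) * Complex.I))‖ = 1 := by
  rw [Complex.norm_natCast_cpow_of_pos (Nat.pos_of_ne_zero hn)]
  simp

theorem norm_sh (h : ℝ) (f : ArithmeticFunction ℂ) (n : ℕ) : ‖sh h f n‖ = ‖f n‖ := by
  rw [sh_apply, norm_mul]
  rcases Nat.eq_zero_or_pos n with rfl | hn
  · simp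
  · rw [norm_cpow_I n hn.ne', mul_one]

theorem norm_tr_le (l : ℕ) (f : ArithmeticFunction ℂ) (n : ℕ) : ‖tr l f n‖ ≤ ‖f n‖ := by
  rw [tr_apply]; split_ifs
  · exact le_rfl
  · simp

theorem norm_pk_le (l : ℕ) (f : ArithmeticFunction ℂ) (n : ℕ) : ‖pk l f n‖ ≤ ‖f n‖ := by
  rw [pk_apply]; split_ifs
  · exact le_rfl
  · simp

theorem nm_nonneg (f : ArithmeticFunction ℂ) : 0 ≤ nm f :=
  tsum_nonneg fun n => by positivity

theorem nm_sh (h : ℝ) (f : ArithmeticFunction ℂ) : nm (sh h f) = nm f := by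
  unfold nm
  simp_rw [norm_sh]

/-! ### supports -/

theorem FS.mono {X Y : ℕ} {f : ArithmeticFunction ℂ} (hf : FS X f) (h : X ≤ Y) : FS Y f :=
  fun n hn => hf n (h.trans_lt hn)

theorem FS_sh {X : ℕ} {f : ArithmeticFunction ℂ} (h : ℝ) (hf : FS X f) : FS X (sh h f) := by
  intro n hn
  rw [sh_apply, hf n hn, zero_mul]

theorem FS_mul {X Y : ℕ} {f g : ArithmeticFunction ℂ} (hf : FS X f) (hg : FS Y g) : FS (X * Y) (f * g) := by
  intro n hn
  rw [ArithmeticFunction.mul_apply]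
  refine Finset.sum_eq_zero fun x hx => ?_
  have h1 := (Nat.mem_divisorsAntidiagonal.1 hx).1
  by_contra hne
  have hf0 : f x.1 ≠ 0 := fun h => hne (by rw [h, zero_mul])
  have hg0 : g x.2 ≠ 0 := fun h => hne (by rw [h, mul_zero])
  have h2 : x.1 ≤ X := by
    by_contra h; exact hf0 (hf _ (by omega))
  have h3 : x.2 ≤ Y := by
    by_contra h; exact hg0 (hg _ (by omega))
  have := Nat.mul_le_mul h2 h3
  rw [h1] at this
  omega

theorem FS_one : FS 1 (1 : ArithmeticFunction ℂ) := by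
  intro n hn
  rw [ArithmeticFunction.one_apply, if_neg (by omega)]

open scoped Classical in
theorem ro_apply (Z X n : ℕ) : ro Z X n =
    if n ≠ 0 ∧ n ≤ X ∧ ∀ p : ℕ, p.Prime → p ∣ n → Z ≤ p then (1 : ℂ) else 0 := rfl

theorem FS_ro (Z X : ℕ) : FS X (ro Z X) := by
  intro n hn
  rw [ro_apply, if_neg]
  rintro ⟨_, h, _⟩
  omega

theorem FS_finite {X : ℕ} {f : ArithmeticFunction ℂ} (hf : FS X f) : (Function.support fun n => f n).Finite := by
  refine (Set.finite_Iic X).subset fun n hn => ?_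
  by_contra h
  exact hn (hf n (by simpa using h))

theorem LSS {X : ℕ} {f : ArithmeticFunction ℂ} (hf : FS X f) (s : ℂ) : LSeriesSummable (fun n => f n) s := by
  refine summable_of_hasFiniteSupport ((FS_finite hf).subset fun n hn => ?_)
  intro h
  apply hn
  show LSeries.term (fun n => f n) s n = 0
  rw [LSeries.term_def]
  split_ifs
  · rfl
  · have : f n = 0 := h
    simp [this]

/-- `dp f` as a finite sum -/
theorem dp_eq {X : ℕ} {f : ArithmeticFunction ℂ} (hf : FS X f) (t : ℝ) :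
    dp f t = ∑ n ∈ Finset.Icc 1 X, f n * (n : ℂ) ^ (-((1 / 2 : ℂ) + (t : ℂ) * Complex.I)) := by
  unfold dp LSeries
  rw [tsum_eq_sum (s := Finset.Icc 1 X)]
  · refine Finset.sum_congr rfl fun n hn => ?_
    have hn1 := (Finset.mem_Icc.1 hn).1
    rw [LSeries.term_of_ne_zero (by omega), Complex.cpow_neg, div_eq_mul_inv]
  · intro n hn
    rw [LSeries.term_def]
    split_ifs with h0
    · rfl
    · have : X < n := by
        by_contra h
        exact hn (Finset.mem_Icc.2 ⟨by omega, by omega⟩)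
      rw [hf n this, zero_div]

theorem nm_eq {X : ℕ} {f : ArithmeticFunction ℂ} (hf : FS X f) :
    nm f = ∑ n ∈ Finset.Icc 1 X, ‖f n‖ ^ 2 / (n : ℝ) := by
  unfold nm
  rw [tsum_eq_sum (s := Finset.Icc 1 X)]
  intro n hn
  rcases Nat.eq_zero_or_pos n with rfl | h0
  · simp
  · have : X < n := by
      by_contra h
      exact hn (Finset.mem_Icc.2 ⟨by omega, by omega⟩)
    rw [hf n this]
    simp

theorem nm_summable {X : ℕ} {f : ArithmeticFunction ℂ} (hf : FS X f) :
    Summable (fun n : ℕ => ‖f n‖ ^ 2 / (n : ℝ)) := by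
  refine summable_of_hasFiniteSupport ((FS_finite hf).subset fun n hn => ?_)
  intro h
  apply hn
  have : f n = 0 := h
  show ‖f n‖ ^ 2 / (n : ℝ) = 0
  rw [this]; simp

theorem dp_mul {X Y : ℕ} {f g : ArithmeticFunction ℂ} (hf : FS X f) (hg : FS Y g) (t : ℝ) :
    dp (f * g) t = dp f t * dp g t := by
  unfold dp
  exact ArithmeticFunction.LSeries_mul' (LSS hf _) (LSS hg _)

theorem sh_mul (h : ℝ) (f g : ArithmeticFunction ℂ) : sh h (f * g) = sh h f * sh h g := by
  ext n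
  rw [sh_apply, ArithmeticFunction.mul_apply, ArithmeticFunction.mul_apply, Finset.sum_mul]
  refine Finset.sum_congr rfl fun x hx => ?_
  have h1 := (Nat.mem_divisorsAntidiagonal.1 hx)
  rw [sh_apply, sh_apply, ← h1.1]
  push_cast
  rw [Complex.natCast_mul_natCast_cpow]
  ring

theorem sh_one (h : ℝ) : sh h (1 : ArithmeticFunction ℂ) = 1 := by
  ext n
  rw [sh_apply, ArithmeticFunction.one_apply]
  split_ifs with h1
  · subst h1; simp
  · simp

theorem sh_zero (f : ArithmeticFunction ℂ) : sh 0 f = f := by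
  ext n
  rw [sh_apply]
  simp

theorem dp_sh {X : ℕ} {f : ArithmeticFunction ℂ} (hf : FS X f) (h t : ℝ) :
    dp (sh h f) t = dp f (t + h) := by
  rw [dp_eq (FS_sh h hf), dp_eq hf]
  refine Finset.sum_congr rfl fun n hn => ?_
  have hn1 : n ≠ 0 := by
    have := (Finset.mem_Icc.1 hn).1
    omega
  rw [sh_apply, mul_assoc, ← Complex.cpow_add _ _ (by exact_mod_cast hn1)]
  congr 2
  push_cast
  ring

theorem dp_cont {X : ℕ} {f : ArithmeticFunction ℂ} (hf : FS X f) : Continuous (dp f) := by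
  have : dp f = fun t : ℝ => ∑ n ∈ Finset.Icc 1 X, f n * (n : ℂ) ^ (-((1 / 2 : ℂ) + (t : ℂ) * Complex.I)) := by
    funext t; exact dp_eq hf t
  rw [this]
  refine continuous_finsetSum _ fun n hn => ?_
  have hn1 : n ≠ 0 := by
    have := (Finset.mem_Icc.1 hn).1
    omega
  refine continuous_const.mul ?_
  refine Continuous.const_cpow (by fun_prop) (Or.inl (by exact_mod_cast hn1))

/-! ### domination -/

/-- the function `n ↦ |f(n)|` -/
def ab (f : ArithmeticFunction ℂ) : ArithmeticFunction ℂ := ⟨fun n => ((‖f n‖ : ℝ) : ℂ), by simp⟩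

theorem ab_apply (f : ArithmeticFunction ℂ) (n : ℕ) : ab f n = ((‖f n‖ : ℝ) : ℂ) := rfl

/-- `f` is dominated by the nonnegative function `g` -/
def Dom (f g : ArithmeticFunction ℂ) : Prop := ∀ n : ℕ, ∃ r : ℝ, g n = (r : ℂ) ∧ ‖f n‖ ≤ r

theorem Dom.mul {f g f' g' : ArithmeticFunction ℂ} (h : Dom f g) (h' : Dom f' g') :
    Dom (f * f') (g * g') := by
  intro n
  choose r hr hr' using h
  choose s hs hs' using h'
  refine ⟨∑ x ∈ n.divisorsAntidiagonal, r x.1 * s x.2, ?_, ?_⟩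
  · rw [ArithmeticFunction.mul_apply]
    push_cast
    refine Finset.sum_congr rfl fun x _ => ?_
    rw [hr, hs]
  · rw [ArithmeticFunction.mul_apply]
    refine (norm_sum_le _ _).trans (Finset.sum_le_sum fun x _ => ?_)
    rw [norm_mul]
    exact mul_le_mul (hr' _) (hs' _) (norm_nonneg _) ((norm_nonneg _).trans (hr' _))

theorem Dom.one : Dom 1 1 := by
  intro n
  rw [ArithmeticFunction.one_apply]
  split_ifs
  · exact ⟨1, by simp, by simp⟩
  · exact ⟨0, by simp, by simp⟩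

theorem Dom.pow {f g : ArithmeticFunction ℂ} (h : Dom f g) (k : ℕ) : Dom (f ^ k) (g ^ k) := by
  induction k with
  | zero => simpa using Dom.one
  | succ k ih =>
    rw [pow_succ, pow_succ]
    exact ih.mul h

theorem Dom.sh {f g : ArithmeticFunction ℂ} (h : Dom f g) (x : ℝ) : Dom (EW.sh x f) g := by
  intro n
  obtain ⟨r, hr, hr'⟩ := h n
  exact ⟨r, hr, by rwa [norm_sh]⟩

theorem Dom.tr {f g : ArithmeticFunction ℂ} (h : Dom f g) (l : ℕ) : Dom (EW.tr l f) g := by
  intro n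
  obtain ⟨r, hr, hr'⟩ := h n
  exact ⟨r, hr, (norm_tr_le _ _ _).trans hr'⟩

theorem Dom.pk {f g : ArithmeticFunction ℂ} (h : Dom f g) (l : ℕ) : Dom (EW.pk l f) g := by
  intro n
  obtain ⟨r, hr, hr'⟩ := h n
  exact ⟨r, hr, (norm_pk_le _ _ _).trans hr'⟩

theorem Dom_sm (Z : ℕ) : Dom (sm Z) (sm Z) := by
  intro n
  show ∃ r : ℝ, (if n ∈ Nat.smoothNumbers Z then (1 : ℂ) else 0) = r ∧
    ‖(if n ∈ Nat.smoothNumbers Z then (1 : ℂ) else 0)‖ ≤ r
  split_ifs
  · exact ⟨1, by simp, by simp⟩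
  · exact ⟨0, by simp, by simp⟩

theorem ex_apply (v : ℕ → ℝ) (n : ℕ) : ex v n = if n = 0 then 0 else
    ((n.factorization.prod fun p a => v p ^ a / (a.factorial : ℝ) : ℝ) : ℂ) := rfl

theorem Dom_ex (v w : ℕ → ℝ) (h : ∀ p, |v p| ≤ w p) : Dom (ex v) (ex w) := by
  intro n
  rw [ex_apply, ex_apply]
  split_ifs with h0
  · exact ⟨0, by simp, by simp⟩
  · refine ⟨_, rfl, ?_⟩
    rw [Complex.norm_real, Real.norm_eq_abs]
    unfold Finsupp.prod
    rw [Finset.abs_prod]
    refine Finset.prod_le_prod (fun _ _ => abs_nonneg _) fun p _ => ?_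
    rw [abs_div, abs_pow, Nat.abs_cast]
    have h1 : |v p| ^ (n.factorization p) ≤ w p ^ (n.factorization p) :=
      pow_le_pow_left₀ (abs_nonneg _) (h p) _
    exact div_le_div_of_nonneg_right h1 (by positivity)

theorem nm_mono {f g : ArithmeticFunction ℂ} (h : ∀ n, ‖f n‖ ≤ ‖g n‖)
    (hg : Summable (fun n : ℕ => ‖g n‖ ^ 2 / (n : ℝ))) : nm f ≤ nm g := by
  have h1 : ∀ n : ℕ, ‖f n‖ ^ 2 / (n : ℝ) ≤ ‖g n‖ ^ 2 / (n : ℝ) := fun n => by
    have := h n
    gcongr
  exact (hg.of_nonneg_of_le (fun n => by positivity) h1).tsum_le_tsum h1 hg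

theorem nm_dom {f g : ArithmeticFunction ℂ} (h : Dom f g)
    (hg : Summable (fun n : ℕ => ‖g n‖ ^ 2 / (n : ℝ))) : nm f ≤ nm g := by
  refine nm_mono (fun n => ?_) hg
  obtain ⟨r, hr, hr'⟩ := h n
  rw [hr, Complex.norm_real, Real.norm_eq_abs]
  exact hr'.trans (le_abs_self r)

end

end Pool.Agent.Q80.EW
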