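import Pool.Agent.Q80.EW.Stm3

set_option autoImplicit false

/-!
Project EW of helper80: assembly of the law for windows of length `exp(y √Λ)`.
-/

namespace Pool.Agent.Q80.EW

open Filter Topology MeasureTheory

noncomputable section

theorem gam_nonneg (m : ℕ) (b : ℝ) : 0 ≤ gam m b := measureReal_nonneg

theorem gam_le_one (m : ℕ) (b : ℝ) : gam m b ≤ 1 := by
  unfold gam gm
  exact measureReal_le_one

theorem erf_cont : Continuous erf := by
  unfold erf
  refine continuous_const.mul ?_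
  refine intervalIntegral.continuous_primitive (fun a b => ?_) 0
  exact (by fun_prop : Continuous fun x : ℝ => Real.exp (-x ^ 2)).intervalIntegrable _ _

theorem erf_mem (hLV : J_LV) (b : ℝ) (hb : 0 < b) : 0 ≤ erf b ∧ erf b ≤ 1 :=
  ⟨ge_of_tendsto' (hLV b hb) fun m => gam_nonneg m b, le_of_tendsto' (hLV b hb) fun m => gam_le_one m b⟩

theorem t_LAW (hC2 : J_C2) (hC3 : J_C3) (hC4 : J_C4) (hFIN : J_FIN) (hCON : J_CON) (hDIF : J_DIF)
    (hLV : J_LV) : J_LAW := by
  intro y hy ε0 hε0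
  rw [Metric.tendsto_nhds]
  intro ε1 hε1
  obtain ⟨α, hα, hfin⟩ := hFIN ε0 (ε1 / 2) hε0 (by positivity)
  obtain ⟨CD, hCD, hdif⟩ := hDIF
  obtain ⟨C3, hC3p, hc3⟩ := hC3
  obtain ⟨he0, he1⟩ := erf_mem hLV (y / 2) (by positivity)
  set e := erf (y / 2) with he
  obtain ⟨β, hβ⟩ : ∃ β : ℝ, β = min (α / 4) 1 := ⟨_, rfl⟩
  have hβ0 : 0 < β := by rw [hβ]; positivity
  have hβα : 4 * β ≤ α := by
    have : β ≤ α / 4 := by rw [hβ]; exact min_le_left _ _
    linarith
  have hβ1 : β ≤ 1 := by rw [hβ]; exact min_le_right _ _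
  -- choice of eta
  obtain ⟨η, hη⟩ : ∃ η : ℝ, η = min (min (1 / 100) (β / 32)) ((α / CD) ^ 2) := ⟨_, rfl⟩
  have hη0 : 0 < η := by rw [hη]; positivity
  have hη1 : η ≤ 1 / 100 := by rw [hη]; exact (min_le_left _ _).trans (min_le_left _ _)
  have hη2 : 4 * η ≤ β / 8 := by
    have : η ≤ β / 32 := by rw [hη]; exact (min_le_left _ _).trans (min_le_right _ _)
    linarith
  have hη3 : CD * Real.sqrt η ≤ α := by
    have h1 : Real.sqrt η ≤ α / CD := by
      rw [Real.sqrt_le_left (by positivity)]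
      rw [hη]; exact min_le_right _ _
    calc CD * Real.sqrt η ≤ CD * (α / CD) := by gcongr
      _ = α := by field_simp
  -- choice of epsilon
  obtain ⟨r, hr0, hr⟩ := Metric.continuous_iff.1 erf_cont (y / 2) (β / 8) (by positivity)
  obtain ⟨ε, hε⟩ : ∃ ε : ℝ, ε = min (y / 8) (r / 4) := ⟨_, rfl⟩
  have hεp : 0 < ε := by rw [hε]; positivity
  have hε8 : ε ≤ y / 8 := by rw [hε]; exact min_le_left _ _
  have hεr : 3 * ε < r := by
    have : ε ≤ r / 4 := by rw [hε]; exact min_le_right _ _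
    linarith
  have her : ∀ x : ℝ, |x - y / 2| ≤ 3 * ε → |erf x - e| ≤ β / 8 := by
    intro x hx
    have := hr x (by rw [Real.dist_eq]; linarith)
    rw [Real.dist_eq] at this
    exact this.le
  -- choice of m
  have hA : ∀ b : ℝ, 0 < b → ∀ᶠ m : ℕ in atTop, |gam m b - erf b| ≤ β / 8 := by
    intro b hb
    have := (Metric.tendsto_nhds.1 (hLV b hb)) (β / 8) (by positivity)
    filter_upwards [this] with m hm
    rw [Real.dist_eq] at hm
    exact hm.le
  have hB : ∀ᶠ m : ℕ in atTop, C3 / (m * ε ^ 4) ≤ β / 8 := by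
    have h1 : Tendsto (fun m : ℕ => C3 / (m * ε ^ 4)) atTop (𝓝 0) := by
      refine Tendsto.div_atTop tendsto_const_nhds ?_
      exact Tendsto.atTop_mul_const (by positivity) tendsto_natCast_atTop_atTop
    filter_upwards [(Metric.tendsto_nhds.1 h1) (β / 8) (by positivity)] with m hm
    rw [Real.dist_eq, sub_zero] at hm
    exact (le_abs_self _).trans hm.le
  obtain ⟨m, hm1, hmA, hmB, hmC, hmD⟩ := ((eventually_ge_atTop 1).and
    ((hA (y / 2 - 3 * ε) (by linarith)).and ((hA (y / 2 - ε / 2) (by linarith)).and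
      ((hA (y / 2 + 2 * ε) (by linarith)).and hB)))).exists
  have g1 : |gam m (y / 2 - 3 * ε) - e| ≤ β / 4 := by
    have h1 := her (y / 2 - 3 * ε) (by rw [show y / 2 - 3 * ε - y / 2 = -(3 * ε) by ring, abs_neg, abs_of_pos (by positivity)])
    have := abs_add_le (gam m (y / 2 - 3 * ε) - erf (y / 2 - 3 * ε)) (erf (y / 2 - 3 * ε) - e)
    rw [sub_add_sub_cancel] at this
    linarith
  have g2 : |gam m (y / 2 - ε / 2) - e| ≤ β / 4 := by
    have h1 := her (y / 2 - ε / 2) (by rw [show y / 2 - ε / 2 - y / 2 = -(ε / 2) by ring, abs_neg, abs_of_pos (by positivity)]; linarith)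
    have := abs_add_le (gam m (y / 2 - ε / 2) - erf (y / 2 - ε / 2)) (erf (y / 2 - ε / 2) - e)
    rw [sub_add_sub_cancel] at this
    linarith
  have g3 : |gam m (y / 2 + 2 * ε) - e| ≤ β / 4 := by
    have h1 := her (y / 2 + 2 * ε) (by rw [show y / 2 + 2 * ε - y / 2 = 2 * ε by ring, abs_of_pos (by positivity)]; linarith)
    have := abs_add_le (gam m (y / 2 + 2 * ε) - erf (y / 2 + 2 * ε)) (erf (y / 2 + 2 * ε) - e)
    rw [sub_add_sub_cancel] at this
    linarith
  obtain ⟨δ, hδ⟩ : ∃ δ : ℝ, δ = β / 8 := ⟨_, rfl⟩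
  have hδ0 : 0 < δ := by rw [hδ]; positivity
  set w := (1 - 4 * η) * gam m (y / 2 - 3 * ε) - C3 / (m * ε ^ 4) - δ with hw
  set w2 := (1 - 4 * η) ^ 2 * gam m (y / 2 - ε / 2) ^ 2 + δ with hw2
  set w3 := (1 - 4 * η) * gam m (y / 2 + 2 * ε) + δ with hw3
  have hC3n : 0 ≤ C3 / (m * ε ^ 4) := by positivity
  have ga0 := gam_nonneg m (y / 2 - 3 * ε)
  have ga1 := gam_le_one m (y / 2 - 3 * ε)
  have gb0 := gam_nonneg m (y / 2 - ε / 2)
  have gb1 := gam_le_one m (y / 2 - ε / 2)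
  have gc0 := gam_nonneg m (y / 2 + 2 * ε)
  have gc1 := gam_le_one m (y / 2 + 2 * ε)
  rw [abs_le] at g1 g2 g3
  have hwe : |w - e| ≤ β := by
    rw [abs_le, hw]
    constructor <;> nlinarith
  have hw3e : w3 ≤ e + β := by
    rw [hw3]; nlinarith
  have hw2e : w2 ≤ e ^ 2 + β := by
    have h1 : gam m (y / 2 - ε / 2) ^ 2 ≤ e ^ 2 + β / 2 + (β / 4) ^ 2 := by nlinarith
    have h2 : (1 - 4 * η) ^ 2 * gam m (y / 2 - ε / 2) ^ 2 ≤ gam m (y / 2 - ε / 2) ^ 2 := by
      have : (1 - 4 * η) ^ 2 ≤ 1 := by nlinarith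
      nlinarith [sq_nonneg (gam m (y / 2 - ε / 2))]
    rw [hw2, hδ]
    nlinarith
  -- the maximum with zero
  obtain ⟨w1, hw1⟩ : ∃ w1 : ℝ, w1 = max w 0 := ⟨_, rfl⟩
  have hw10 : 0 ≤ w1 := by rw [hw1]; exact le_max_right _ _
  have hww1 : w ≤ w1 := by rw [hw1]; exact le_max_left _ _
  rw [abs_le] at hwe
  have hw1e : |w1 - e| ≤ β := by
    rw [abs_le]
    constructor
    · linarith
    · rw [hw1]
      rcases le_total w 0 with h | h
      · rw [max_eq_right h]; linarith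
      · rw [max_eq_left h]; linarith
  rw [abs_le] at hw1e
  have c2 := hC2 η y ε δ m hη0 hη1 hy hεp hδ0 hm1
  have c3 := hc3 η y ε δ m hη0 hη1 hy hεp hε8 hδ0 hm1
  have c4 := hC4 η y ε δ m hη0 hη1 hy hεp hδ0 hm1
  have cd := hdif η hη0 hη1 y hy
  filter_upwards [c2, c3, c4, cd, eventually_gt_atTop 3] with T h2 h3 h4 h5 hT
  obtain ⟨B, hBm, hBv, hBi⟩ := h2
  obtain ⟨cM, cN, cW, hWN⟩ := hCON η y ε m T hT
  have hT0 : 0 < T := by linarith
  have key := hfin T e w1 w2 w3 (MM (UU y T) T) (NN η y T) (WW η y ε m T) B hT0 he0 he1 hBm cM cN cW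
    hWN ?_ ?_ h4 ?_ ?_ hBi ?_ ?_ hw10
  · rw [Real.dist_eq, sub_zero, abs_of_nonneg (by positivity), div_lt_iff₀ hT0]
    refine lt_of_le_of_lt key ?_
    nlinarith
  · calc ∫ t in T..(3 * T), |MM (UU y T) T t - NN η y T t| ≤ CD * Real.sqrt η * T := h5
      _ ≤ α * T := by gcongr
  · rcases le_total w 0 with h | h
    · rw [hw1, max_eq_right h]
      rw [mul_zero]
      exact intervalIntegral.integral_nonneg (by linarith) fun t _ => (hWN t).1
    · rw [hw1, max_eq_left h]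
      exact h3
  · nlinarith
  · refine hBv.trans ?_
    have : δ ≤ α := by linarith
    gcongr
  · linarith
  · rw [abs_le]; constructor <;> linarith

theorem t_MAIN (hLAW : J_LAW) (hRED : J_RED) (hHLW : J_HLW) : J_MAIN := hRED hHLW hLAW

end

end Pool.Agent.Q80.EW
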