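import Pool.Agent.Q16.EW.G
import Pool.Agent.Q16.EW.M2
import Pool.Agent.Q16.EW.NR
import Pool.Agent.Q16.EW.P
import Pool.Agent.Q61.EW.AV
import Pool.Agent.Q61.EW.EU
import Pool.Agent.Q61.EW.EXC
import Pool.Agent.Q61.EW.FF
import Pool.Agent.Q61.EW.FR
import Pool.Agent.Q61.EW.GW
import Pool.Agent.Q151.EW.C3
import Pool.Agent.Q151.EW.C4
import Pool.Agent.Q153.EW.E3
import Pool.Agent.Q153.EW.MULT
import Pool.Agent.Q153.EW.TAIL
import Pool.Agent.Q195.EW.MERT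
import Pool.Agent.Q195.EW.MV
import Pool.Agent.Q195.EW.SUP
import Pool.Agent.Q195.EW.Sc
import Pool.Agent.Q237.EW.Ch
import Pool.Agent.Q237.EW.Et
import Pool.Agent.Q237.EW.Near
import Pool.Agent.Q237.EW.One
import Pool.Agent.Q237.EW.Red
import Pool.Agent.Q247.EW.AP1
import Pool.Agent.Q247.EW.AP2
import Pool.Agent.Q247.EW.CL
import Pool.Agent.Q247.EW.LV2
import Pool.Agent.Q251.EW.C2
import Pool.Agent.Q251.EW.Con1
import Pool.Agent.Q251.EW.Cor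
import Pool.Agent.Q251.EW.DIF
import Pool.Agent.Q251.EW.EF
import Pool.Agent.Q251.EW.FIN
import Pool.Agent.Q280.EW.Exp
import Pool.Agent.Q280.EW.Fr2
import Pool.Agent.Q280.EW.Hlw
import Pool.Agent.Q129.EW.LV
import Pool.Agent.Q129.EW.PS
import Pool.Agent.Q80.EW.LAW

set_option autoImplicit false

/-!
Project EW of helper80: the main theorem.
-/

namespace Pool.Agent.Q80.EW

open Pool.Agent

theorem all : J_MAIN := by
  have hMERT : J_MERT := Q195.EW.t_MERT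
  have hPS : J_PS := Q129.EW.PS.t_PS
  have hFR : J_FR := Q61.EW.t_FR
  have hFR2 : J_FR2 := Q280.EW.Fr2.t_FR2
  have hAV : J_AV := Q61.EW.t_AV hPS hMERT
  have hEU : J_EU := Q61.EW.t_EU
  have hTAIL : J_TAIL := Q153.EW.t_TAIL
  have hE3 : J_E3 := Q153.EW.t_E3
  have hMULT : J_MULT := Q153.EW.t_MULT
  have hEXP : J_EXP := Q280.EW.t_EXP
  have hET : J_ET := Q237.EW.et
  have hMV : J_MV := Q195.EW.t_MV
  have hSUP : J_SUP := Q195.EW.t_SUP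
  have hDD : J_DD := Q195.EW.t_DD
  have hMASS : J_MASS := Q195.EW.t_MASS
  have hRHO : J_RHO := Q195.EW.t_RHO
  have hAP1 : J_AP1 := Q247.EW.t_AP1 hMV
  have hAP2 : J_AP2 := Q247.EW.t_AP2 hMV
  have hHLW : J_HLW := Q280.EW.t_HLW
  have hCL : J_CL := Q247.EW.t_CL
  have hLV : J_LV := Q129.EW.t_LV
  have hLV2 : J_LV2 := Q247.EW.t_LV2
  have hCH : J_CH := Q237.EW.ch
  have hONE : J_ONE := Q237.EW.one hEU hMERT
  have hTWO : J_TWO := Q237.EW.two hEU hMERT hPS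
  have hNEAR : J_NEAR := Q237.EW.near hEU hMERT hPS
  have hFOUR : J_FOUR := Q237.EW.four hEU hMERT
  have hFF : J_FF := Q61.EW.t_FF hEXP hMULT hMV
  have hEXC : J_EXC := Q61.EW.t_EXC hMV hEXP hMULT hEU hMERT hFR2 hRHO hFF
  have hG1 : J_G1 := Q16.EW.g1 hFF hEXC hTAIL hEU hET hMERT hONE
  have hG2 : J_G2 := Q16.EW.g2 hFF hEXC hTAIL hEU hET hMERT hTWO
  have hM2 : J_M2 := Q16.EW.m2 hFF hTAIL hE3 hEU hFR hPS hRHO hMASS hMERT
  have hP1 : J_P1 := Q16.EW.p1 hFF hG1 hCL hLV2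
  have hP2 : J_P2 := Q16.EW.p2 hFF hG2 hCL hLV2 hM2
  have hNR : J_NR := Q16.EW.nr hFF hNEAR hTAIL hFR2 hRHO hET hMERT hEU
  have hINC : J_INC := Q16.EW.inc hFF hFOUR hTAIL hEU hET hMASS hMERT
  have hDIF : J_DIF := Q251.EW.t_DIF hAP1 hAP2 hHLW hDD hEXP
  have hCHERN : J_CHERN := Q237.EW.chern hEU hMERT
  have hGW : J_GW := Q61.EW.t_GW hSUP hEXP hET hCHERN hEU hMERT
  have hC2 : J_C2 := Q251.EW.t_C2 hGW hP1 hMV hMASS hEXP hFF
  have hC3 : J_C3 := Q151.EW.t_C3 hP1 hFF hMASS hEXC hCH hINC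
  have hC4 : J_C4 := Q151.EW.t_C4 hNR hP2 hFF hM2 hAV
  have hFIN : J_FIN := Q251.EW.t_FIN
  have hCON : J_CON := Q251.EW.t_CON hEXP
  have hRED : J_RED := Q237.EW.red
  exact t_MAIN (t_LAW hC2 hC3 hC4 hFIN hCON hDIF hLV) hRED hHLW

end Pool.Agent.Q80.EW
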