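import Pool.Agent.Q80.EW.Stm6
import Pool.Agent.Q80.EW.LAW
import Pool.Agent.Q251.EW.C2
import Pool.Agent.Q251.EW.Con1
import Pool.Agent.Q251.EW.DIF

set_option autoImplicit false

/-!
Project EWX of helper80: assembly of the law with end point for windows of length `exp(y √Λ)`.
-/

namespace Pool.Agent.Q80.EW

open Filter Topology MeasureTheory

noncomputable section

theorem gam2_nonneg (m : ℕ) (b x : ℝ) : 0 ≤ gam2 m b x := measureReal_nonneg

theorem gam2_le_one (m : ℕ) (b x : ℝ) : gam2 m b x ≤ 1 := by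
  unfold gam2 gm
  exact measureReal_le_one

theorem GX_cont : Continuous fun p : ℝ × ℝ => GX p.1 p.2 := by
  unfold GX
  have h1 : Continuous fun p : ℝ × ℝ => min p.2 p.1 := continuous_snd.min continuous_fst
  exact ((erf_cont.comp h1).sub (erf_cont.comp (h1.sub (continuous_const.mul continuous_fst)))).div_const 2

theorem GX_mem (hLV : J_LVx) (b x : ℝ) (hb : 0 < b) : 0 ≤ GX b x ∧ GX b x ≤ 1 :=
  ⟨ge_of_tendsto' (hLV b x hb) fun m => gam2_nonneg m b x, le_of_tendsto' (hLV b x hb) fun m => gam2_le_one m b x⟩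

theorem law_MX (hC2 : J_C2x) (hC3 : J_C3x) (hC4 : J_C4x) (hFIN : J_FIN) (hCON : J_CONx) (hDIF : J_DIFx)
    (hLV : J_LVx) (y x : ℝ) (hy : 0 < y) (ε0 : ℝ) (hε0 : 0 < ε0) (ε1 : ℝ) (hε1 : 0 < ε1) : ∀ᶠ T : ℝ in atTop,
    (volume {t : ℝ | t ∈ Set.Icc T (3 * T) ∧ ε0 < |MXx y x T t - GX (y / 2) x|}).toReal ≤ ε1 * T := by
  obtain ⟨α, hα, hfin⟩ := hFIN ε0 ε1 hε0 hε1
  obtain ⟨CD, hCD, hdif⟩ := hDIF
  obtain ⟨C3, hC3p, hc3⟩ := hC3
  obtain ⟨he0, he1⟩ := GX_mem hLV (y / 2) x (by positivity)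
  set e := GX (y / 2) x with he
  obtain ⟨β, hβ⟩ : ∃ β : ℝ, β = min (α / 4) 1 := ⟨_, rfl⟩
  have hβ0 : 0 < β := by rw [hβ]; positivity
  have hβα : 4 * β ≤ α := by
    have : β ≤ α / 4 := by rw [hβ]; exact min_le_left _ _
    linarith
  have hβ1 : β ≤ 1 := by rw [hβ]; exact min_le_right _ _
  -- choice of eta
  obtain ⟨η, hη⟩ : ∃ η : ℝ, η = min (min (1 / 100) (β / 32)) ((α / CD) ^ 2) := ⟨_, rfl⟩
  have hη0 : 0 < η := by rw [hη]; positivity
  have hη1 : η ≤ 1 / 100 := by rw [hη]; exact (min_le_left _ _).trans (min_le_left _ _)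
  have hη2 : 4 * η ≤ β / 8 := by
    have : η ≤ β / 32 := by rw [hη]; exact (min_le_left _ _).trans (min_le_right _ _)
    linarith
  have hη3 : CD * Real.sqrt η ≤ α := by
    have h1 : Real.sqrt η ≤ α / CD := by
      rw [Real.sqrt_le_left (by positivity)]
      rw [hη]; exact min_le_right _ _
    calc CD * Real.sqrt η ≤ CD * (α / CD) := by gcongr
      _ = α := by field_simp
  -- choice of epsilon
  obtain ⟨r, hr0, hr⟩ := Metric.continuous_iff.1 GX_cont (y / 2, x) (β / 8) (by positivity)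
  obtain ⟨ε, hε⟩ : ∃ ε : ℝ, ε = min (y / 8) (r / 4) := ⟨_, rfl⟩
  have hεp : 0 < ε := by rw [hε]; positivity
  have hε8 : ε ≤ y / 8 := by rw [hε]; exact min_le_left _ _
  have hεr : 3 * ε < r := by
    have : ε ≤ r / 4 := by rw [hε]; exact min_le_right _ _
    linarith
  have her : ∀ b x' : ℝ, |b - y / 2| ≤ 3 * ε → |x' - x| ≤ 3 * ε → |GX b x' - e| ≤ β / 8 := by
    intro b x' hb hx'
    have := hr (b, x') (by
      rw [Prod.dist_eq]
      refine max_lt ?_ ?_
      · rw [Real.dist_eq]; exact hb.trans_lt hεr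
      · rw [Real.dist_eq]; exact hx'.trans_lt hεr)
    rw [Real.dist_eq] at this
    exact this.le
  -- choice of m
  have hA : ∀ b x' : ℝ, 0 < b → ∀ᶠ m : ℕ in atTop, |gam2 m b x' - GX b x'| ≤ β / 8 := by
    intro b x' hb
    have := (Metric.tendsto_nhds.1 (hLV b x' hb)) (β / 8) (by positivity)
    filter_upwards [this] with m hm
    rw [Real.dist_eq] at hm
    exact hm.le
  have hB : ∀ᶠ m : ℕ in atTop, C3 / (m * ε ^ 4) ≤ β / 8 := by
    have h1 : Tendsto (fun m : ℕ => C3 / (m * ε ^ 4)) atTop (𝓝 0) := by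
      refine Tendsto.div_atTop tendsto_const_nhds ?_
      exact Tendsto.atTop_mul_const (by positivity) tendsto_natCast_atTop_atTop
    filter_upwards [(Metric.tendsto_nhds.1 h1) (β / 8) (by positivity)] with m hm
    rw [Real.dist_eq, sub_zero] at hm
    exact (le_abs_self _).trans hm.le
  obtain ⟨m, hm1, hmA, hmB, hmC, hmD⟩ := ((eventually_ge_atTop 1).and
    ((hA (y / 2 - 3 * ε) (x - ε) (by linarith)).and ((hA (y / 2 - ε / 2) (x + ε) (by linarith)).and
      ((hA (y / 2 + 2 * ε) (x + ε) (by linarith)).and hB)))).exists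
  have x1 : |x - ε - x| ≤ 3 * ε := by
    rw [show x - ε - x = -ε by ring, abs_neg, abs_of_pos hεp]; linarith
  have x2 : |x + ε - x| ≤ 3 * ε := by
    rw [show x + ε - x = ε by ring, abs_of_pos hεp]; linarith
  have g1 : |gam2 m (y / 2 - 3 * ε) (x - ε) - e| ≤ β / 4 := by
    have h1 := her (y / 2 - 3 * ε) (x - ε) (by rw [show y / 2 - 3 * ε - y / 2 = -(3 * ε) by ring, abs_neg, abs_of_pos (by positivity)]) x1
    have := abs_add_le (gam2 m (y / 2 - 3 * ε) (x - ε) - GX (y / 2 - 3 * ε) (x - ε)) (GX (y / 2 - 3 * ε) (x - ε) - e)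
    rw [sub_add_sub_cancel] at this
    linarith
  have g2 : |gam2 m (y / 2 - ε / 2) (x + ε) - e| ≤ β / 4 := by
    have h1 := her (y / 2 - ε / 2) (x + ε) (by rw [show y / 2 - ε / 2 - y / 2 = -(ε / 2) by ring, abs_neg, abs_of_pos (by positivity)]; linarith) x2
    have := abs_add_le (gam2 m (y / 2 - ε / 2) (x + ε) - GX (y / 2 - ε / 2) (x + ε)) (GX (y / 2 - ε / 2) (x + ε) - e)
    rw [sub_add_sub_cancel] at this
    linarith
  have g3 : |gam2 m (y / 2 + 2 * ε) (x + ε) - e| ≤ β / 4 := by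
    have h1 := her (y / 2 + 2 * ε) (x + ε) (by rw [show y / 2 + 2 * ε - y / 2 = 2 * ε by ring, abs_of_pos (by positivity)]; linarith) x2
    have := abs_add_le (gam2 m (y / 2 + 2 * ε) (x + ε) - GX (y / 2 + 2 * ε) (x + ε)) (GX (y / 2 + 2 * ε) (x + ε) - e)
    rw [sub_add_sub_cancel] at this
    linarith
  obtain ⟨δ, hδ⟩ : ∃ δ : ℝ, δ = β / 8 := ⟨_, rfl⟩
  have hδ0 : 0 < δ := by rw [hδ]; positivity
  set w := (1 - 4 * η) * gam2 m (y / 2 - 3 * ε) (x - ε) - C3 / (m * ε ^ 4) - δ with hw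
  set w2 := (1 - 4 * η) ^ 2 * gam2 m (y / 2 - ε / 2) (x + ε) ^ 2 + δ with hw2
  set w3 := (1 - 4 * η) * gam2 m (y / 2 + 2 * ε) (x + ε) + δ with hw3
  have hC3n : 0 ≤ C3 / (m * ε ^ 4) := by positivity
  have ga0 := gam2_nonneg m (y / 2 - 3 * ε) (x - ε)
  have ga1 := gam2_le_one m (y / 2 - 3 * ε) (x - ε)
  have gb0 := gam2_nonneg m (y / 2 - ε / 2) (x + ε)
  have gb1 := gam2_le_one m (y / 2 - ε / 2) (x + ε)
  have gc0 := gam2_nonneg m (y / 2 + 2 * ε) (x + ε)
  have gc1 := gam2_le_one m (y / 2 + 2 * ε) (x + ε)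
  rw [abs_le] at g1 g2 g3
  have hwe : |w - e| ≤ β := by
    rw [abs_le, hw]
    constructor <;> nlinarith
  have hw3e : w3 ≤ e + β := by
    rw [hw3]; nlinarith
  have hw2e : w2 ≤ e ^ 2 + β := by
    have h1 : gam2 m (y / 2 - ε / 2) (x + ε) ^ 2 ≤ e ^ 2 + β / 2 + (β / 4) ^ 2 := by nlinarith
    have h2 : (1 - 4 * η) ^ 2 * gam2 m (y / 2 - ε / 2) (x + ε) ^ 2 ≤ gam2 m (y / 2 - ε / 2) (x + ε) ^ 2 := by
      have : (1 - 4 * η) ^ 2 ≤ 1 := by nlinarith
      nlinarith [sq_nonneg (gam2 m (y / 2 - ε / 2) (x + ε))]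
    rw [hw2, hδ]
    nlinarith
  -- the maximum with zero
  obtain ⟨w1, hw1⟩ : ∃ w1 : ℝ, w1 = max w 0 := ⟨_, rfl⟩
  have hw10 : 0 ≤ w1 := by rw [hw1]; exact le_max_right _ _
  have hww1 : w ≤ w1 := by rw [hw1]; exact le_max_left _ _
  rw [abs_le] at hwe
  have hw1e : |w1 - e| ≤ β := by
    rw [abs_le]
    constructor
    · linarith
    · rw [hw1]
      rcases le_total w 0 with h | h
      · rw [max_eq_right h]; linarith
      · rw [max_eq_left h]; linarith
  rw [abs_le] at hw1e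
  have c2 := hC2 η y ε x δ m hη0 hη1 hy hεp hδ0 hm1
  have c3 := hc3 η y ε x δ m hη0 hη1 hy hεp hε8 hδ0 hm1
  have c4 := hC4 η y ε x δ m hη0 hη1 hy hεp hδ0 hm1
  have cd := hdif η hη0 hη1 y x hy
  filter_upwards [c2, c3, c4, cd, eventually_gt_atTop 3] with T h2 h3 h4 h5 hT
  obtain ⟨B, hBm, hBv, hBi⟩ := h2
  obtain ⟨cM, cN, cW, hWN⟩ := hCON η y ε x m T hT
  have hT0 : 0 < T := by linarith
  refine hfin T e w1 w2 w3 (MXx y x T) (NNx η y x T) (WWx η y ε x m T) B hT0 he0 he1 hBm cM cN cW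
    hWN ?_ ?_ h4 ?_ ?_ hBi ?_ ?_ hw10
  · calc ∫ t in T..(3 * T), |MXx y x T t - NNx η y x T t| ≤ CD * Real.sqrt η * T := h5
      _ ≤ α * T := by gcongr
  · rcases le_total w 0 with h | h
    · rw [hw1, max_eq_right h]
      rw [mul_zero]
      exact intervalIntegral.integral_nonneg (by linarith) fun t _ => (hWN t).1
    · rw [hw1, max_eq_left h]
      exact h3
  · nlinarith
  · refine hBv.trans ?_
    have : δ ≤ α := by linarith
    gcongr
  · linarith
  · rw [abs_le]; constructor <;> linarith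

/-- the exceptional set of the comparison -/
def BX (x δ T : ℝ) : Set ℝ := {s | (‖ze s‖ ≤ Real.exp (x * Real.sqrt (La T)) * Real.log T ∧
      (x + δ) * Real.sqrt (La T) < XX (Yt T) s) ∨
      (Real.exp (x * Real.sqrt (La T)) * Real.log T < ‖ze s‖ ∧ XX (Yt T) s ≤ (x - δ) * Real.sqrt (La T))}

/-- the set of small values -/
def SZ (x T : ℝ) : Set ℝ := {s | ‖ze s‖ ≤ Real.exp (x * Real.sqrt (La T)) * Real.log T}

theorem SZ_meas (x T : ℝ) : MeasurableSet (SZ x T) :=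
  (isClosed_le Q251.EW.ze_cont.norm continuous_const).measurableSet

theorem EX_meas (x T : ℝ) : MeasurableSet (EX x T) :=
  (isClosed_le (Q251.EW.XX_cont _) continuous_const).measurableSet

theorem BX_meas (x δ T : ℝ) : MeasurableSet (BX x δ T) := by
  have hz : Measurable fun s => ‖ze s‖ := Q251.EW.ze_cont.norm.measurable
  have hx : Measurable fun s => XX (Yt T) s := (Q251.EW.XX_cont _).measurable
  exact ((measurableSet_le hz measurable_const).inter (measurableSet_lt measurable_const hx)).union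
    ((measurableSet_lt measurable_const hz).inter (measurableSet_le hx measurable_const))

theorem ind_ii {S : Set ℝ} (hS : MeasurableSet S) (a b : ℝ) :
    IntervalIntegrable (Set.indicator S (fun s => ‖ze s‖ ^ 2)) volume a b := by
  rw [intervalIntegrable_iff]
  exact (((Q251.EW.ze_cont.norm.pow 2).intervalIntegrable a b).def').indicator hS

theorem ind_nn (S : Set ℝ) (s : ℝ) : 0 ≤ Set.indicator S (fun s => ‖ze s‖ ^ 2) s :=
  Set.indicator_nonneg (fun _ _ => by positivity) s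

theorem cmp1 (x δ T s : ℝ) (hδ : 0 < δ) : Set.indicator (SZ x T) (fun s => ‖ze s‖ ^ 2) s ≤
    Set.indicator (EX (x + δ) T) (fun s => ‖ze s‖ ^ 2) s + Set.indicator (BX x δ T) (fun s => ‖ze s‖ ^ 2) s := by
  have h1 := ind_nn (EX (x + δ) T) s
  have h2 := ind_nn (BX x δ T) s
  by_cases h : s ∈ SZ x T
  · rw [Set.indicator_of_mem h]
    by_cases h' : s ∈ EX (x + δ) T
    · rw [Set.indicator_of_mem h']; linarith
    · have : s ∈ BX x δ T := Or.inl ⟨h, not_le.1 h'⟩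
      rw [Set.indicator_of_mem this]; linarith
  · rw [Set.indicator_of_notMem h]; linarith

theorem cmp2 (x δ T s : ℝ) (hδ : 0 < δ) : Set.indicator (EX (x - δ) T) (fun s => ‖ze s‖ ^ 2) s ≤
    Set.indicator (SZ x T) (fun s => ‖ze s‖ ^ 2) s + Set.indicator (BX x δ T) (fun s => ‖ze s‖ ^ 2) s := by
  have h1 := ind_nn (SZ x T) s
  have h2 := ind_nn (BX x δ T) s
  by_cases h : s ∈ EX (x - δ) T
  · rw [Set.indicator_of_mem h]
    by_cases h' : s ∈ SZ x T
    · rw [Set.indicator_of_mem h']; linarith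
    · have : s ∈ BX x δ T := Or.inr ⟨not_le.1 h', h⟩
      rw [Set.indicator_of_mem this]; linarith
  · rw [Set.indicator_of_notMem h]; linarith

/-- the window mean over a set -/
def WS (S : Set ℝ) (U T t : ℝ) : ℝ := 1 / (U * Real.log T) * ∫ u in t..(t + U), Set.indicator S (fun s => ‖ze s‖ ^ 2) u

theorem MXx_eq (y x T t : ℝ) : MXx y x T t = WS (EX x T) (UU y T) T t := by
  unfold MXx WS
  congr 1
  have := intervalIntegral.integral_comp_add_left (a := 0) (b := UU y T)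
    (fun u => Set.indicator (EX x T) (fun s => ‖ze s‖ ^ 2) u) t
  rw [add_zero] at this
  exact this

theorem MZ_eq (U T x t : ℝ) : MZ U T x t = WS (SZ x T) U T t := rfl

theorem WS_le {S S1 S2 : Set ℝ} (h : MeasurableSet S) (h1 : MeasurableSet S1) (h2 : MeasurableSet S2) {U T : ℝ}
    (hU : 0 < U) (hT : 1 < T)
    (hle : ∀ s, Set.indicator S (fun s => ‖ze s‖ ^ 2) s ≤ Set.indicator S1 (fun s => ‖ze s‖ ^ 2) s +
      Set.indicator S2 (fun s => ‖ze s‖ ^ 2) s) (t : ℝ) : WS S U T t ≤ WS S1 U T t + WS S2 U T t := by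
  have hL : 0 < Real.log T := Real.log_pos hT
  unfold WS
  rw [← mul_add]
  have : ∫ u in t..(t + U), Set.indicator S (fun s => ‖ze s‖ ^ 2) u ≤
      (∫ u in t..(t + U), Set.indicator S1 (fun s => ‖ze s‖ ^ 2) u) +
        ∫ u in t..(t + U), Set.indicator S2 (fun s => ‖ze s‖ ^ 2) u := by
    rw [← intervalIntegral.integral_add (ind_ii h1 _ _) (ind_ii h2 _ _)]
    exact intervalIntegral.integral_mono_on (by linarith) (ind_ii h _ _) ((ind_ii h1 _ _).add (ind_ii h2 _ _))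
      fun s _ => hle s
  gcongr

theorem WS_cont {S : Set ℝ} (h : MeasurableSet S) (U T : ℝ) : Continuous (WS S U T) := by
  unfold WS
  exact continuous_const.mul (Q251.EW.win_cont _ (fun a b => ind_ii h a b) _)

theorem WS_nn (S : Set ℝ) {U T : ℝ} (hU : 0 < U) (hT : 1 < T) (t : ℝ) : 0 ≤ WS S U T t := by
  have hL : 0 < Real.log T := Real.log_pos hT
  unfold WS
  exact mul_nonneg (by positivity) (intervalIntegral.integral_nonneg (by linarith) fun s _ => ind_nn S s)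

theorem t_LAWx (hC2 : J_C2x) (hC3 : J_C3x) (hC4 : J_C4x) (hFIN : J_FIN) (hCON : J_CONx) (hDIF : J_DIFx)
    (hLV : J_LVx) (hCMP : J_CMP) : J_LAWx := by
  intro y x hy ε0 hε0
  rw [Metric.tendsto_nhds]
  intro ε1 hε1
  -- choice of delta
  obtain ⟨r, hr0, hr⟩ := Metric.continuous_iff.1 GX_cont (y / 2, x) (ε0 / 4) (by positivity)
  obtain ⟨δ, hδ⟩ : ∃ δ : ℝ, δ = r / 2 := ⟨_, rfl⟩
  have hδ0 : 0 < δ := by rw [hδ]; positivity
  have hg : ∀ x' : ℝ, |x' - x| ≤ δ → |GX (y / 2) x' - GX (y / 2) x| ≤ ε0 / 4 := by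
    intro x' hx'
    have := hr (y / 2, x') (by
      rw [Prod.dist_eq]
      refine max_lt ?_ ?_
      · simpa using hr0
      · rw [Real.dist_eq]; exact hx'.trans_lt (by rw [hδ]; linarith))
    rw [Real.dist_eq] at this
    exact this.le
  have hgp := hg (x + δ) (by rw [show x + δ - x = δ by ring, abs_of_pos hδ0])
  have hgm := hg (x - δ) (by rw [show x - δ - x = -δ by ring, abs_neg, abs_of_pos hδ0])
  obtain ⟨C, hC, hcmp⟩ := hCMP
  obtain ⟨η, hη⟩ : ∃ η : ℝ, η = min (1 / 100) (ε0 * ε1 / (16 * C)) := ⟨_, rfl⟩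
  have hη0 : 0 < η := by rw [hη]; positivity
  have hη1 : η ≤ 1 / 100 := by rw [hη]; exact min_le_left _ _
  have hη2 : C * η ≤ ε0 * ε1 / 16 := by
    have : η ≤ ε0 * ε1 / (16 * C) := by rw [hη]; exact min_le_right _ _
    calc C * η ≤ C * (ε0 * ε1 / (16 * C)) := by gcongr
      _ = ε0 * ε1 / 16 := by field_simp
  have l1 := law_MX hC2 hC3 hC4 hFIN hCON hDIF hLV y (x + δ) hy (ε0 / 4) (by positivity) (ε1 / 8) (by positivity)
  have l2 := law_MX hC2 hC3 hC4 hFIN hCON hDIF hLV y (x - δ) hy (ε0 / 4) (by positivity) (ε1 / 8) (by positivity)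
  have l3 := hcmp η hη0 hη1 x δ hδ0
  have l4 : ∀ᶠ T : ℝ in atTop, UU y T ≤ T := by
    filter_upwards [Q251.EW.ev_UU y 1 one_pos] with T hT
    rw [Real.rpow_one] at hT
    exact hT
  filter_upwards [l1, l2, l3, l4, eventually_gt_atTop 3] with T h1 h2 h3 h4 hT
  have hT0 : 0 < T := by linarith
  have hT1 : 1 < T := by linarith
  have hU0 : 0 < UU y T := Real.exp_pos _
  have hL : 0 < Real.log T := Real.log_pos hT1
  rw [Real.dist_eq, sub_zero, abs_of_nonneg (by positivity), div_lt_iff₀ hT0]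
  -- the error term
  have hE : ∫ t in T..(3 * T), WS (BX x δ T) (UU y T) T t ≤ ε0 * ε1 / 16 * T := by
    have e1 : ∫ t in T..(3 * T), WS (BX x δ T) (UU y T) T t = 1 / (UU y T * Real.log T) *
        ∫ t in T..(3 * T), (∫ u in t..(t + UU y T), Set.indicator (BX x δ T) (fun s => ‖ze s‖ ^ 2) u) := by
      unfold WS
      rw [intervalIntegral.integral_const_mul]
    have e2 := Q251.EW.slide' (fun a b => ind_ii (BX_meas x δ T) a b) (ind_nn (BX x δ T)) (A := T) (B := 3 * T) hU0.le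
    have e3 : ∫ u in T..(3 * T + UU y T), Set.indicator (BX x δ T) (fun s => ‖ze s‖ ^ 2) u ≤
        ∫ u in T..(4 * T), Set.indicator (BX x δ T) (fun s => ‖ze s‖ ^ 2) u := by
      rw [← intervalIntegral.integral_add_adjacent_intervals (ind_ii (BX_meas x δ T) T (3 * T + UU y T))
        (ind_ii (BX_meas x δ T) (3 * T + UU y T) (4 * T))]
      have := intervalIntegral.integral_nonneg (a := 3 * T + UU y T) (b := 4 * T) (μ := volume) (by linarith)
        fun s _ => ind_nn (BX x δ T) s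
      linarith
    have e4 : ∫ u in T..(4 * T), Set.indicator (BX x δ T) (fun s => ‖ze s‖ ^ 2) u ≤ C * η * T * Real.log T := h3
    rw [e1]
    calc 1 / (UU y T * Real.log T) *
          ∫ t in T..(3 * T), (∫ u in t..(t + UU y T), Set.indicator (BX x δ T) (fun s => ‖ze s‖ ^ 2) u)
        ≤ 1 / (UU y T * Real.log T) * (UU y T * (C * η * T * Real.log T)) := by
          have := e2.trans (mul_le_mul_of_nonneg_left (e3.trans e4) hU0.le)
          gcongr
      _ = C * η * T := by field_simp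
      _ ≤ ε0 * ε1 / 16 * T := by gcongr
  have hMk : (volume {t : ℝ | t ∈ Set.Icc T (3 * T) ∧ ε0 / 4 ≤ WS (BX x δ T) (UU y T) T t}).toReal ≤ ε1 / 4 * T := by
    have hc := WS_cont (BX_meas x δ T) (UU y T) T
    have hn := fun t => WS_nn (BX x δ T) hU0 hT1 t
    have m1 := mul_meas_ge_le_integral_of_nonneg (μ := volume.restrict (Set.Icc T (3 * T)))
      (f := WS (BX x δ T) (UU y T) T) (Filter.Eventually.of_forall hn)
      (hc.continuousOn.integrableOn_compact isCompact_Icc) (ε0 / 4)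
    rw [integral_Icc_eq_integral_Ioc, ← intervalIntegral.integral_of_le (by linarith)] at m1
    have m2 : (volume.restrict (Set.Icc T (3 * T))).real {t | ε0 / 4 ≤ WS (BX x δ T) (UU y T) T t} =
        (volume {t : ℝ | t ∈ Set.Icc T (3 * T) ∧ ε0 / 4 ≤ WS (BX x δ T) (UU y T) T t}).toReal := by
      rw [measureReal_def, Measure.restrict_apply (measurableSet_le measurable_const hc.measurable)]
      congr 2
      ext t
      exact and_comm
    rw [m2] at m1
    have := m1.trans hE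
    nlinarith
  -- the inclusion
  have hsub : {t : ℝ | t ∈ Set.Icc T (3 * T) ∧ ε0 < |MZ (UU y T) T x t - GX (y / 2) x|} ⊆
      ({t : ℝ | t ∈ Set.Icc T (3 * T) ∧ ε0 / 4 < |MXx y (x + δ) T t - GX (y / 2) (x + δ)|} ∪
        {t : ℝ | t ∈ Set.Icc T (3 * T) ∧ ε0 / 4 < |MXx y (x - δ) T t - GX (y / 2) (x - δ)|}) ∪
        {t : ℝ | t ∈ Set.Icc T (3 * T) ∧ ε0 / 4 ≤ WS (BX x δ T) (UU y T) T t} := by
    rintro t ⟨ht, hε⟩
    by_contra hcon
    rw [Set.mem_union, Set.mem_union, not_or, not_or] at hcon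
    obtain ⟨⟨c1, c2⟩, c3⟩ := hcon
    have c1' : |MXx y (x + δ) T t - GX (y / 2) (x + δ)| ≤ ε0 / 4 := not_lt.1 fun h => c1 ⟨ht, h⟩
    have c2' : |MXx y (x - δ) T t - GX (y / 2) (x - δ)| ≤ ε0 / 4 := not_lt.1 fun h => c2 ⟨ht, h⟩
    have c3' : WS (BX x δ T) (UU y T) T t < ε0 / 4 := not_le.1 fun h => c3 ⟨ht, h⟩
    have u1 : MZ (UU y T) T x t ≤ MXx y (x + δ) T t + WS (BX x δ T) (UU y T) T t := by
      rw [MZ_eq, MXx_eq]
      exact WS_le (SZ_meas _ _) (EX_meas _ _) (BX_meas _ _ _) hU0 hT1 (fun s => cmp1 x δ T s hδ0) t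
    have u2 : MXx y (x - δ) T t ≤ MZ (UU y T) T x t + WS (BX x δ T) (UU y T) T t := by
      rw [MZ_eq, MXx_eq]
      exact WS_le (EX_meas _ _) (SZ_meas _ _) (BX_meas _ _ _) hU0 hT1 (fun s => cmp2 x δ T s hδ0) t
    rw [abs_le] at c1' c2' hgp hgm
    have : |MZ (UU y T) T x t - GX (y / 2) x| ≤ ε0 := by
      rw [abs_le]
      constructor <;> linarith
    linarith
  have fin : ∀ P : ℝ → Prop, volume {t : ℝ | t ∈ Set.Icc T (3 * T) ∧ P t} ≠ ⊤ := fun P => by
    have hI : volume (Set.Icc T (3 * T)) < ⊤ := by rw [Real.volume_Icc]; exact ENNReal.ofReal_lt_top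
    exact ((measure_mono (fun t ht => ht.1)).trans_lt hI).ne
  have hle : (volume {t : ℝ | t ∈ Set.Icc T (3 * T) ∧ ε0 < |MZ (UU y T) T x t - GX (y / 2) x|}).toReal ≤
      (volume {t : ℝ | t ∈ Set.Icc T (3 * T) ∧ ε0 / 4 < |MXx y (x + δ) T t - GX (y / 2) (x + δ)|}).toReal +
      (volume {t : ℝ | t ∈ Set.Icc T (3 * T) ∧ ε0 / 4 < |MXx y (x - δ) T t - GX (y / 2) (x - δ)|}).toReal +
      (volume {t : ℝ | t ∈ Set.Icc T (3 * T) ∧ ε0 / 4 ≤ WS (BX x δ T) (UU y T) T t}).toReal := by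
    rw [← ENNReal.toReal_add (fin _) (fin _), ← ENNReal.toReal_add (ENNReal.add_ne_top.2 ⟨fin _, fin _⟩) (fin _)]
    refine ENNReal.toReal_mono (ENNReal.add_ne_top.2 ⟨ENNReal.add_ne_top.2 ⟨fin _, fin _⟩, fin _⟩) ?_
    exact (measure_mono hsub).trans ((measure_union_le _ _).trans (add_le_add_left (measure_union_le _ _) _))
  nlinarith

end

end Pool.Agent.Q80.EW
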