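import Pool.Agent.Q80.EW.All
import Pool.Agent.Q80.EW.LAWX
import Pool.Agent.Q151.EW.LVx
import Pool.Agent.Q151.EW.LV2x
import Pool.Agent.Q151.EW.P12x
import Pool.Agent.Q151.EW.C2x
import Pool.Agent.Q151.EW.C3x
import Pool.Agent.Q151.EW.C4x
import Pool.Agent.Q151.EW.Conx
import Pool.Agent.Q151.EW.Expc
import Pool.Agent.Q61.EW.EXCc
import Pool.Agent.Q61.EW.CMP
import Pool.Agent.Q195.EW.CEP
import Pool.Agent.Q195.EW.ETc
import Pool.Agent.Q195.EW.TRG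
import Pool.Agent.Q195.EW.MAINx
import Pool.Agent.Q247.EW.AP2c

set_option autoImplicit false

/-!
Project EWX of helper80: the law of the values of zeta under its mean square in windows.
-/

namespace Pool.Agent.Q80.EW

open Pool.Agent

theorem allX (hDIF : J_DIFx) : J_MAINx := by
  have hMERT : J_MERT := Q195.EW.t_MERT
  have hPS : J_PS := Q129.EW.PS.t_PS
  have hFR : J_FR := Q61.EW.t_FR
  have hFR2 : J_FR2 := Q280.EW.Fr2.t_FR2
  have hAV : J_AV := Q61.EW.t_AV hPS hMERT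
  have hEU : J_EU := Q61.EW.t_EU
  have hTAIL : J_TAIL := Q153.EW.t_TAIL
  have hE3 : J_E3 := Q153.EW.t_E3
  have hMULT : J_MULT := Q153.EW.t_MULT
  have hEXP : J_EXP := Q280.EW.t_EXP
  have hET : J_ET := Q237.EW.et
  have hMV : J_MV := Q195.EW.t_MV
  have hSUP : J_SUP := Q195.EW.t_SUP
  have hDD : J_DD := Q195.EW.t_DD
  have hMASS : J_MASS := Q195.EW.t_MASS
  have hRHO : J_RHO := Q195.EW.t_RHO
  have hAP1 : J_AP1 := Q247.EW.t_AP1 hMV
  have hCL : J_CL := Q247.EW.t_CL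
  have hCH : J_CH := Q237.EW.ch
  have hONE : J_ONE := Q237.EW.one hEU hMERT
  have hTWO : J_TWO := Q237.EW.two hEU hMERT hPS
  have hNEAR : J_NEAR := Q237.EW.near hEU hMERT hPS
  have hFOUR : J_FOUR := Q237.EW.four hEU hMERT
  have hFF : J_FF := Q61.EW.t_FF hEXP hMULT hMV
  have hEXC : J_EXC := Q61.EW.t_EXC hMV hEXP hMULT hEU hMERT hFR2 hRHO hFF
  have hG1 : J_G1 := Q16.EW.g1 hFF hEXC hTAIL hEU hET hMERT hONE
  have hG2 : J_G2 := Q16.EW.g2 hFF hEXC hTAIL hEU hET hMERT hTWO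
  have hM2 : J_M2 := Q16.EW.m2 hFF hTAIL hE3 hEU hFR hPS hRHO hMASS hMERT
  have hLV2x : J_LV2x := Q151.EW.t_LV2x
  have hP1 : J_P1x := Q151.EW.t_P1x hFF hG1 hCL hLV2x
  have hP2 : J_P2x := Q151.EW.t_P2x hFF hG2 hCL hLV2x hM2
  have hNR : J_NR := Q16.EW.nr hFF hNEAR hTAIL hFR2 hRHO hET hMERT hEU
  have hINC : J_INC := Q16.EW.inc hFF hFOUR hTAIL hEU hET hMASS hMERT
  have hCHERN : J_CHERN := Q237.EW.chern hEU hMERT
  have hGW : J_GW := Q61.EW.t_GW hSUP hEXP hET hCHERN hEU hMERT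
  have hC2 : J_C2x := Q151.EW.t_C2x hGW hP1 hMV hMASS hEXP hFF
  have hC3 : J_C3x := Q151.EW.t_C3x hP1 hFF hMASS hEXC hCH hINC
  have hC4 : J_C4x := Q151.EW.t_C4x hNR hP2 hFF hM2 hAV
  have hFIN : J_FIN := Q251.EW.t_FIN
  have hCON : J_CONx := Q151.EW.t_CONx hEXP
  have hLV : J_LVx := Q151.EW.t_LVx
  have hCMP : J_CMP := Q61.EW.t_CMP hAP1 hDD hNR hEXC hFF hET hMV hEXP hCHERN hEU hMERT
  exact Q195.EW.t_MAINx (t_LAWx hC2 hC3 hC4 hFIN hCON hDIF hLV hCMP) all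

end Pool.Agent.Q80.EW
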