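import Mathlib
import Pool.Agent.H448R2.GC.Defs

set_option autoImplicit false

/-!
Project EW of helper80 (row MP_f9aece_nt, MP_91b7ff_nt): the law of the mean square of zeta in short windows.

Definitions used by the independent parts.
-/

namespace Pool.Agent.Q80.EW

open Filter Topology MeasureTheory

noncomputable section

/-! ### Dirichlet polynomials -/

/-- `f` is supported on `n ≤ X` -/
def FS (X : ℕ) (f : ArithmeticFunction ℂ) : Prop := ∀ n : ℕ, X < n → f n = 0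

/-- the Dirichlet series `∑ f(n) n^{-1/2-it}` -/
def dp (f : ArithmeticFunction ℂ) (t : ℝ) : ℂ :=
  LSeries (fun n => f n) ((1 / 2 : ℂ) + (t : ℂ) * Complex.I)

/-- `nm f = ∑ |f(n)|^2 / n`, the mean square of `dp f` -/
def nm (f : ArithmeticFunction ℂ) : ℝ := ∑' n : ℕ, ‖f n‖ ^ 2 / (n : ℝ)

/-- the shift: `n ↦ f(n) n^{-ih}` -/
def sh (h : ℝ) (f : ArithmeticFunction ℂ) : ArithmeticFunction ℂ :=
  ⟨fun n => f n * (n : ℂ) ^ (-((h : ℂ) * Complex.I)), by simp⟩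

/-- truncation to `Ω(n) ≤ l` -/
def tr (l : ℕ) (f : ArithmeticFunction ℂ) : ArithmeticFunction ℂ :=
  ⟨fun n => if ArithmeticFunction.cardFactors n ≤ l then f n else 0, by simp⟩

/-- the part `Ω(n) = k` -/
def pk (k : ℕ) (f : ArithmeticFunction ℂ) : ArithmeticFunction ℂ :=
  ⟨fun n => if ArithmeticFunction.cardFactors n = k then f n else 0, by simp⟩

/-- the indicator function of the `Z`-smooth numbers (all prime factors `< Z`) -/
def sm (Z : ℕ) : ArithmeticFunction ℂ :=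
  ⟨fun n => if n ∈ Nat.smoothNumbers Z then 1 else 0, by simp [Nat.smoothNumbers]⟩

open scoped Classical in
/-- the indicator function of the `b ≤ X` without prime factors `< Z` -/
def ro (Z X : ℕ) : ArithmeticFunction ℂ :=
  ⟨fun n => if n ≠ 0 ∧ n ≤ X ∧ ∀ p : ℕ, p.Prime → p ∣ n → Z ≤ p then 1 else 0, by simp⟩

/-- the coefficients of `exp(∑ v(p) p^{-s})`: `∏ v(p)^a / a!` for `n = ∏ p^a` -/
def ex (v : ℕ → ℝ) : ArithmeticFunction ℂ :=
  ⟨fun n => if n = 0 then 0 else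
    ((n.factorization.prod fun p a => v p ^ a / (a.factorial : ℝ) : ℝ) : ℂ), by simp⟩

/-- admissible weights -/
def Wt (Z : ℕ) (v : ℕ → ℝ) : Prop := ∀ p : ℕ, |v p| ≤ 2 ∧ (Z ≤ p → v p = 0)

/-- the full product `(sm)^{s0} * (shifted sm)^{s1} * exp(v) * shifted exp(v')` -/
def GG (s0 s1 Z : ℕ) (h : ℝ) (v v' : ℕ → ℝ) : ArithmeticFunction ℂ :=
  sm Z ^ s0 * sh h (sm Z) ^ s1 * ex v * sh h (ex v')

/-- the same with every factor truncated to `Ω ≤ l` -/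
def GT (l s0 s1 Z : ℕ) (h : ℝ) (v v' : ℕ → ℝ) : ArithmeticFunction ℂ :=
  tr l (sm Z) ^ s0 * sh h (tr l (sm Z)) ^ s1 * tr l (ex v) * sh h (tr l (ex v'))

/-- the square of the coefficient at `p`: `|s0 + s1 ω + v + v' ω|^2`, `ω = p^{-ih}` -/
def c1 (s0 s1 : ℕ) (h : ℝ) (v v' : ℕ → ℝ) (p : ℕ) : ℝ :=
  ‖((s0 : ℂ) + (v p : ℂ)) + ((s1 : ℂ) + (v' p : ℂ)) * (p : ℂ) ^ (-((h : ℂ) * Complex.I))‖ ^ 2

/-- the polynomial `∑ v(p) p^{-1/2-it}` over the primes `< Z` -/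
def PV (Z : ℕ) (v : ℕ → ℝ) (t : ℝ) : ℂ :=
  ∑ p ∈ Nat.primesBelow Z, (v p : ℂ) * (p : ℂ) ^ (-((1 / 2 : ℂ) + (t : ℂ) * Complex.I))

/-- truncated exponential series -/
def eT (l : ℕ) (w : ℂ) : ℂ := ∑ k ∈ Finset.range (l + 1), w ^ k / (k.factorial : ℂ)

/-! ### the scales -/

/-- the integer at the level `y`: a prime `p` is `< zc y` iff `log log p < y` -/
def zc (y : ℝ) : ℕ := ⌈Real.exp (Real.exp y)⌉₊

/-- `∑ 1/p` up to the level `y` -/
def VV (y : ℝ) : ℝ := ∑ p ∈ Nat.primesBelow (zc y), (1 : ℝ) / (p : ℝ)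

/-- indicator function of the primes between the levels `a` and `b` -/
def ind (a b : ℝ) (p : ℕ) : ℝ := if p.Prime ∧ zc a ≤ p ∧ p < zc b then 1 else 0

/-- indicator function of the primes up to the level `b` -/
def lo (b : ℝ) (p : ℕ) : ℝ := if p.Prime ∧ p < zc b then 1 else 0

/-- `∑ p^{-1/2-it}` up to the level `y` -/
def PP (y t : ℝ) : ℂ :=
  ∑ p ∈ Nat.primesBelow (zc y), (p : ℂ) ^ (-((1 / 2 : ℂ) + (t : ℂ) * Complex.I))

/-- the centred walk -/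
def XX (y t : ℝ) : ℝ := (PP y t).re - VV y

/-- `log log T` -/
def La (T : ℝ) : ℝ := Real.log (Real.log T)

/-- the last level -/
def Yt (T : ℝ) : ℝ := La T - 2 * Real.log (La T)

/-- the truncation parameter -/
def el (T : ℝ) : ℕ := ⌈400 * La T⌉₊

/-- the length of the rough part -/
def Nt (η T : ℝ) : ℕ := ⌊T ^ (1 / 2 - 2 * η)⌋₊

/-- the coefficients of the main polynomial `D' = A' R` -/
def dd (η T : ℝ) : ArithmeticFunction ℂ := tr (el T) (sm (zc (Yt T))) * ro (zc (Yt T)) (Nt η T)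

/-- the correlation factor `∏ (1-p^{-2}) / |1-p^{-1-ih}|^2` up to the level `y` -/
def Corr (y h : ℝ) : ℝ := ∏ p ∈ Nat.primesBelow (zc y),
  (1 - 1 / (p : ℝ) ^ 2) / ‖1 - (p : ℂ) ^ (-((1 : ℂ) + (h : ℂ) * Complex.I))‖ ^ 2

/-- the weights of the coarse blocks: `u_i / (2 √Λ)` on the block `[iY/m, (i+1)Y/m)` -/
def wu (T : ℝ) (m : ℕ) (u : Fin m → ℝ) (p : ℕ) : ℝ :=
  ∑ i : Fin m, u i / (2 * Real.sqrt (La T)) * ind ((i : ℝ) * (Yt T / m)) (((i : ℝ) + 1) * (Yt T / m)) p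

/-- the normalised increments of the walk over the coarse blocks -/
def De (T : ℝ) (m : ℕ) (i : Fin m) (t : ℝ) : ℝ :=
  (XX (((i : ℝ) + 1) * (Yt T / m)) t - XX ((i : ℝ) * (Yt T / m)) t) / Real.sqrt (La T)

/-- `∑ u_i (V_{i+1} - V_i) / √Λ` -/
def vu (T : ℝ) (m : ℕ) (u : Fin m → ℝ) : ℝ :=
  ∑ i : Fin m, u i * (VV (((i : ℝ) + 1) * (Yt T / m)) - VV ((i : ℝ) * (Yt T / m))) / Real.sqrt (La T)

/-! ### Gaussian walks -/

/-- the product of `m` normal laws of variance `1/(2m)` on a finite index set `J` -/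
def gm (m : ℕ) (J : Type) [Fintype J] : Measure (J → ℝ) :=
  Measure.pi fun _ : J => ProbabilityTheory.gaussianReal 0 (Real.toNNReal (1 / (2 * (m : ℝ))))

/-- the probability that all partial sums of `m` independent `N(0,1/(2m))` variables are `≤ b` -/
def gam (m : ℕ) (b : ℝ) : ℝ :=
  (gm m (Fin m)).real {x : Fin m → ℝ | ∀ k : Fin m, ∑ i ∈ Finset.Iic k, x i ≤ b}

/-- the error function -/
def erf (b : ℝ) : ℝ := 2 / Real.sqrt Real.pi * ∫ x in (0 : ℝ)..b, Real.exp (-x ^ 2)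

/-! ### zeta -/

/-- the factor of the functional equation: `ζ(1/2+it) = chi t * conj ζ(1/2+it)` -/
def chi (t : ℝ) : ℂ := Pool.Agent.H448R2.GC.XX (1 - ((1 / 2 : ℂ) + (t : ℂ) * Complex.I))

/-- `ζ(1/2+it)` -/
def ze (t : ℝ) : ℂ := riemannZeta ((1 / 2 : ℂ) + (t : ℂ) * Complex.I)

/-- the normalised local mean square of zeta over `[t, t+U]` -/
def MM (U T t : ℝ) : ℝ := 1 / (U * Real.log T) * ∫ u in t..(t + U), ‖ze u‖ ^ 2

end

end Pool.Agent.Q80.EW
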