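import Pool.Agent.Q80.EW.AllX
import Pool.Agent.Q61.EW.DIFx
import Pool.Agent.Q195.EW.MAXx

set_option autoImplicit false

/-!
Project EWX of helper80: the law of the values under the mean square in windows and the maximum,
without hypotheses.
-/

namespace Pool.Agent.Q80.EW

open Pool.Agent

theorem finX : J_MAINx := by
  have hMERT : J_MERT := Q195.EW.t_MERT
  have hFR2 : J_FR2 := Q280.EW.Fr2.t_FR2
  have hEU : J_EU := Q61.EW.t_EU
  have hTAIL : J_TAIL := Q153.EW.t_TAIL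
  have hMULT : J_MULT := Q153.EW.t_MULT
  have hEXP : J_EXP := Q280.EW.t_EXP
  have hEXPc : J_EXPc := Q151.EW.Expc.t_EXPc
  have hET : J_ET := Q237.EW.et
  have hMV : J_MV := Q195.EW.t_MV
  have hDD : J_DD := Q195.EW.t_DD
  have hMASS : J_MASS := Q195.EW.t_MASS
  have hRHO : J_RHO := Q195.EW.t_RHO
  have hAP1 : J_AP1 := Q247.EW.t_AP1 hMV
  have hHLW : J_HLW := Q280.EW.t_HLW
  have hCL : J_CL := Q247.EW.t_CL
  have hONE : J_ONE := Q237.EW.one hEU hMERT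
  have hFF : J_FF := Q61.EW.t_FF hEXP hMULT hMV
  have hEXC : J_EXC := Q61.EW.t_EXC hMV hEXP hMULT hEU hMERT hFR2 hRHO hFF
  have hEXCc : J_EXCc := Q61.EW.t_EXCc hMV hEXP hEXPc hMULT hEU hMERT hFR2 hRHO
  have hG1 : J_G1 := Q16.EW.g1 hFF hEXC hTAIL hEU hET hMERT hONE
  have hAP2c : J_AP2c := Q247.EW.t_AP2c hMV hEXP hEXPc hMULT hFR2 hRHO hMERT Q195.EW.t_CEP
  exact allX (Q61.EW.t_DIFx hAP1 hHLW hDD hEXP hMV hMASS hFF hEXCc Q195.EW.t_ETc hAP2c
    Q195.EW.t_TRG hG1 hCL)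

theorem finM : J_MAXx := Q195.EW.t_MAXx finX all

end Pool.Agent.Q80.EW
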