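import Pool.Agent.Q80.EW.Stm
import Pool.Agent.Q80.EW.Alg

set_option autoImplicit false

/-!
Project EW of helper80: statements of the second level (they use the statements of `Stm.lean` as hypotheses; algebra of `dp` in `Alg.lean`).

Write `L = log T`, `Λ = La T = log log T`, `Y = Yt T`, `Z = zc Y`, `l = el T`.
-/

namespace Pool.Agent.Q80.EW

open Filter Topology MeasureTheory

noncomputable section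

/-- the main polynomial `D'` -/
def Dp (η T t : ℝ) : ℂ := dp (dd η T) t

/-- the rough part of `D'(t)^{s0} D'(t+h)^{s1}` -/
def RF (η T : ℝ) (s0 s1 : ℕ) (h : ℝ) : ArithmeticFunction ℂ :=
  ro (zc (Yt T)) (Nt η T) ^ s0 * sh h (ro (zc (Yt T)) (Nt η T)) ^ s1

/-- coefficients of `D'(t)^{s0} D'(t+h)^{s1} E(P_v)(t) E(P_v')(t+h)` -/
def FF (η T : ℝ) (s0 s1 : ℕ) (h : ℝ) (v v' : ℕ → ℝ) : ArithmeticFunction ℂ :=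
  GT (el T) s0 s1 (zc (Yt T)) h v v' * RF η T s0 s1 h

/-- not exceptional at the coarse levels -/
def NE (T : ℝ) (m : ℕ) (t : ℝ) : Prop := ∀ i : ℕ, i ≤ m → ‖PP ((i : ℝ) * (Yt T / m)) t‖ ≤ 40 * La T

/-- the normalised coarse walk stays below `b` -/
def WK (T : ℝ) (m : ℕ) (b t : ℝ) : Prop := ∀ k : Fin m, ∑ i ∈ Finset.Iic k, De T m i t ≤ b

/-- pairs `(T,h)`, `T → ∞`, `1 ≤ h ≤ exp(K √Λ)` -/
def lK (K : ℝ) : Filter (ℝ × ℝ) :=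
  comap Prod.fst atTop ⊓ 𝓟 {x | 1 ≤ x.2 ∧ x.2 ≤ Real.exp (K * Real.sqrt (La x.1))}

/-- FF. Basic facts on the products, `T` large, uniformly in `s0, s1 ≤ 1`, `h`, weights.
(1) supports: `GT` in `n ≤ Z^{4l}`, `RF` in `n ≤ N^2`, `N = ⌊T^{1/2-2η}⌋`, `Z^l = T^{o(1)}` (`log Z ≤ L/Λ^2 + 1`, `l ≤ 400 Λ + 1`);
(2) `dd η T = tr l (sm Z) * ro Z N` and `dp_mul, sh_mul, dp_sh` (Alg.lean), `J_EXP` for `eT`;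
(3) `J_MULT`; (4) `J_MV` (`X ≤ T^{1-3η}`). Hypotheses `J_EXP`, `J_MULT`, `J_MV`. -/
def J_FF : Prop := ∀ η : ℝ, 0 < η → η ≤ 1 / 100 → ∀ᶠ T : ℝ in atTop,
  FS ⌊T ^ (1 / 2 - η)⌋₊ (dd η T) ∧
  ∀ (s0 s1 : ℕ) (h : ℝ) (v v' : ℕ → ℝ), s0 ≤ 1 → s1 ≤ 1 → Wt (zc (Yt T)) v → Wt (zc (Yt T)) v' →
    FS ⌊T ^ (1 - 3 * η)⌋₊ (FF η T s0 s1 h v v') ∧
    (∀ t : ℝ, dp (FF η T s0 s1 h v v') t = Dp η T t ^ s0 * Dp η T (t + h) ^ s1 *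
      eT (el T) (PV (zc (Yt T)) v t) * eT (el T) (PV (zc (Yt T)) v' (t + h))) ∧
    nm (FF η T s0 s1 h v v') = nm (GT (el T) s0 s1 (zc (Yt T)) h v v') * nm (RF η T s0 s1 h) ∧
    ∀ a b : ℝ, a ≤ b → |(∫ t in a..b, ‖dp (FF η T s0 s1 h v v') t‖ ^ 2) -
      (b - a) * nm (FF η T s0 s1 h v v')| ≤ T ^ (1 - 2 * η) * nm (FF η T s0 s1 h v v')

/-- EXC. Exceptional values contribute nothing. With `k = ⌈20 Λ⌉` and `P = PP a`, the indicator is at most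
`|P(t)^k/k!|^2 (k!/(40Λ)^k)^2 + ` the same at `t+h`, `k!/(40Λ)^k ≤ (k/(40Λ))^k ≤ (1.99)^{-20Λ}`; the product with `dp FF` is the
polynomial of `FF * pk k (ex (lo a))` (resp. its shift), supported in `n ≤ T`, whose smooth part is dominated (`Dom` in Alg.lean; `Dom_ex`,
`ex v * ex w = ex (v + w)` or any other way) by
`GG 1 1 Z 0 |v| (|v'| + lo a)`, so by `J_EU` (`c1 ≤ 16`) and `J_MERT` its `nm` is at most `exp(16 Y + C)`; the rough part has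
`nm ≤ (C Λ^2)^4` (`J_FR2`, `J_RHO`); and `16 - 27.5 < -2`. Hypotheses `J_MV`, `J_EXP`, `J_MULT`, `J_EU`, `J_MERT`, `J_FR2`, `J_RHO`, `J_FF`. -/
def J_EXC : Prop := ∀ η : ℝ, 0 < η → η ≤ 1 / 100 → ∀ᶠ T : ℝ in atTop,
  ∀ (s0 s1 : ℕ) (h a : ℝ) (v v' : ℕ → ℝ), s0 ≤ 1 → s1 ≤ 1 → 0 ≤ a → a ≤ Yt T →
    (∀ p, |v p| ≤ 1 / 2) → (∀ p, |v' p| ≤ 1 / 2) → Wt (zc (Yt T)) v → Wt (zc (Yt T)) v' →
    ∫ t in T..(4 * T), Set.indicator {t | 40 * La T < ‖PP a t‖ ∨ 40 * La T < ‖PP a (t + h)‖}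
      (fun t => ‖dp (FF η T s0 s1 h v v') t‖ ^ 2) t ≤ T / Real.log T

/-- G1. Moment generating function of the walk, one point. On `NE`, `∑ u_i De_i = 2 Re PV(wu) - vu`, `|PV(wu)| ≤ C √Λ ≤ l/10`, so by `J_ET`
`exp(∑ u_i De_i) = (1+O(e^{-l})) ‖eT(PV wu)‖^2 e^{-vu}`; `‖D'‖^2 ‖eT‖^2 = ‖dp (FF 1 0 h wu 0)‖^2`; its integral is
`2T nm(FF)(1+o(1))` (`J_FF`), the part off `NE` is `≤ (m+1) T/L` (`J_EXC`; `e^{-vu} ≤ e^{C√Λ}`), `nm FF = nm GT nm ro`, `nm GT = nm GG + o(1)` (`J_TAIL`),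
`nm(dd) = nm(FF 1 0 0 0 0)`, and `J_ONE`. Hypotheses `J_FF, J_EXC, J_TAIL, J_EU, J_ET, J_MERT, J_ONE, J_RHO`. -/
def J_G1 : Prop := ∀ (η : ℝ) (m : ℕ) (u : Fin m → ℝ), 0 < η → η ≤ 1 / 100 → 1 ≤ m →
  Tendsto (fun T : ℝ => (∫ t in T..(3 * T), Set.indicator {t | NE T m t}
    (fun t => ‖Dp η T t‖ ^ 2 * Real.exp (∑ i, u i * De T m i t)) t) / (2 * T * nm (dd η T)))
    atTop (𝓝 (Real.exp ((∑ i, u i ^ 2) / (4 * m))))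

/-- G2. The same for two points, uniformly for `1 ≤ h ≤ exp(K √Λ)`; `nm(dd * sh h dd) = nm(FF 1 1 h 0 0)`, with `J_TWO` in place of `J_ONE`
(`nm RF ≥ 1` and `nm GG ≥ 1` to pass from absolute to relative errors; `nm RF ≤ (CΛ^2)^4`). Hypotheses `J_FF, J_EXC, J_TAIL, J_EU, J_ET, J_MERT, J_TWO, J_RHO, J_FR2`. -/
def J_G2 : Prop := ∀ (η : ℝ) (m : ℕ) (u u' : Fin m → ℝ) (K : ℝ), 0 < η → η ≤ 1 / 100 → 1 ≤ m →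
  Tendsto (fun x : ℝ × ℝ => (∫ t in x.1..(3 * x.1), Set.indicator {t | NE x.1 m t ∧ NE x.1 m (t + x.2)}
    (fun t => ‖Dp η x.1 t‖ ^ 2 * ‖Dp η x.1 (t + x.2)‖ ^ 2 *
      Real.exp (∑ i, u i * De x.1 m i t + ∑ i, u' i * De x.1 m i (t + x.2))) t) /
      (2 * x.1 * nm (dd η x.1 * sh x.2 (dd η x.1))))
    (lK K) (𝓝 (Real.exp ((∑ i, u i ^ 2 + ∑ i, u' i ^ 2) / (4 * m))))

/-- M2. The two point mass. `dd * sh h dd = (tr * sh tr) * (ro * sh ro)`, `J_MULT`, `nm (tr * sh tr) = nm(GT 1 1 0 0) = nm(GG 1 1) + o(1)` (`J_TAIL`)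
`= A^2 Corr + o(1)` (`J_E3`, `A = ∏ (1-1/p)^{-1} = nm (GG 1 0)`), `nm (ro * sh ro) ≤ ρ^2 (1+o(1))` by `J_FR` with `δ` from `J_PS`
(`log Z ≥ L/Λ^2`, `ρ ≤ CΛ^2` by `J_RHO`), and `A ρ = nm(dd)(1+o(1)) = (1/2-2η) L (1+o(1))` (`J_MULT, J_TAIL, J_MASS`).
All `nm ≥ 1`. Hypotheses `J_MULT, J_TAIL, J_E3, J_EU, J_FR, J_PS, J_RHO, J_MASS, J_MERT`. -/
def J_M2 : Prop := ∀ (η K ε : ℝ), 0 < η → η ≤ 1 / 100 → 0 < ε → ∀ᶠ T : ℝ in atTop,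
  ∀ h : ℝ, 1 ≤ h → h ≤ Real.exp (K * Real.sqrt (La T)) →
    nm (dd η T * sh h (dd η T)) ≤ (1 + ε) * ((1 / 2 - 2 * η) * Real.log T) ^ 2 * Corr (Yt T) h

/-- P1. Law of the walk, one point: `J_G1`, `J_CL` (with `μ_T` = Lebesgue measure on `[T,3T]` with density `‖D'‖^2 1_NE / (2T nm(dd))`) and `J_LV2`. -/
def J_P1 : Prop := ∀ (η : ℝ) (m : ℕ) (b : ℝ), 0 < η → η ≤ 1 / 100 → 1 ≤ m →
  Tendsto (fun T : ℝ => (∫ t in T..(3 * T), Set.indicator {t | NE T m t ∧ WK T m b t}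
    (fun t => ‖Dp η T t‖ ^ 2) t) / (2 * T * nm (dd η T))) atTop (𝓝 (gam m b))

/-- P2. Two points: `J_G2`, `J_CL` (filter `lK K`, index set `Fin m ⊕ Fin m`), `J_LV2`, `J_M2`. -/
def J_P2 : Prop := ∀ (η : ℝ) (m : ℕ) (b K ε : ℝ), 0 < η → η ≤ 1 / 100 → 1 ≤ m → 0 < ε →
  ∀ᶠ T : ℝ in atTop, ∀ h : ℝ, 1 ≤ h → h ≤ Real.exp (K * Real.sqrt (La T)) →
    ∫ t in T..(3 * T), Set.indicator {t | (NE T m t ∧ WK T m b t) ∧ (NE T m (t + h) ∧ WK T m b (t + h))}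
      (fun t => ‖Dp η T t‖ ^ 2 * ‖Dp η T (t + h)‖ ^ 2) t ≤
    2 * T * ((1 / 2 - 2 * η) * Real.log T) ^ 2 * Corr (Yt T) h * (gam m b ^ 2 + ε)

/-- NR. Near points. On the set, `1 ≤ e^{2(β + VV a) - 2 Re PP a} ≤ 2 e^{2β + 2 VV a} ‖eT(-PP a)‖^2` (`J_ET`; `|PP a| ≤ 40 Λ ≤ l/10`), and
`D'(t) D'(t+h) eT(-PP a)(t) = dp (FF 1 1 h (-lo a) 0)`, whose `nm` is `nm GT nm RF`, `nm GT ≤ C exp(2Y - a + 2(b-a))` (`J_NEAR`, `J_TAIL`),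
`nm RF ≤ (CΛ^2)^4` (`J_FR2, J_RHO`), `e^{2Y} = L^2/Λ^4`, `VV a ≤ a + C`. Hypotheses `J_FF, J_NEAR, J_TAIL, J_FR2, J_RHO, J_ET, J_MERT, J_EU`. -/
def J_NR : Prop := ∃ C : ℝ, 0 < C ∧ ∀ η : ℝ, 0 < η → η ≤ 1 / 100 → ∀ᶠ T : ℝ in atTop,
  ∀ a b h β : ℝ, 0 ≤ a → a ≤ b → b ≤ Yt T → 0 ≤ h → h ≤ 1 → (Real.exp (-b) ≤ h ∨ b = Yt T) →
    ∫ t in T..(4 * T), Set.indicator {t | XX a t ≤ β ∧ ‖PP a t‖ ≤ 40 * La T}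
      (fun t => ‖Dp η T t‖ ^ 2 * ‖Dp η T (t + h)‖ ^ 2) t ≤
    C * T * Real.log T ^ 2 * La T ^ 4 * Real.exp (a + 2 * (b - a) + 2 * β)

/-- INC. Fourth moments of increments. `x^4 ≤ 12 u^{-4}(e^{ux} + e^{-ux})`; with `2w = ±(b-a)^{-1/2}`, `x = XX b - XX a`,
`e^{2 w x} = |exp(w (PP b - PP a))|^2 e^{-2w(VV b - VV a)} ≤ 2 ‖eT(PV (w ind a b))‖^2 e^{-2w(VV b - VV a)}` on the set (`J_ET`; the argument is at most `40 Λ`),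
and the integral is `≤ C T nm(FF 1 0 0 (w ind a b) 0) ≤ C T e^{2w(VV b - VV a)} nm(dd)` (`J_FF, J_FOUR, J_TAIL`), `nm(dd) ≤ L` (`J_MASS`).
Hypotheses `J_FF, J_FOUR, J_TAIL, J_EU, J_ET, J_MASS, J_MERT, J_RHO`. -/
def J_INC : Prop := ∃ C : ℝ, 0 < C ∧ ∀ η : ℝ, 0 < η → η ≤ 1 / 100 → ∀ᶠ T : ℝ in atTop,
  ∀ a b : ℝ, 0 ≤ a → a + 1 ≤ b → b ≤ Yt T →
    ∫ t in T..(3 * T), Set.indicator {t | ‖PP a t‖ ≤ 40 * La T ∧ ‖PP b t‖ ≤ 40 * La T}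
      (fun t => ‖Dp η T t‖ ^ 2 * (XX b t - XX a t) ^ 4) t ≤ C * T * Real.log T * (b - a) ^ 2

/-- GW. The walk stays below `½ log U + ε √Λ` in the whole window (`U = exp(y √Λ)`), for almost all `t`. On the event some `h` has `|PP a (t+h)| > 40 Λ`
(then `|P^k/k!| ≥ 1.99^{20Λ}`, `k = ⌈20Λ⌉`, polynomial of `pk k (ex (lo a))`, `nm ≤ nm(GG 0 0 (lo a) 0) ≤ C e^a`) or
`‖eT(PP a)‖^2 ≥ ½ exp(2 VV a + 2 (y/2+ε) √Λ)` (`J_ET`), polynomial of `tr l (ex (lo a))`, `nm ≤ C e^a`; apply `J_SUP` with `X = Z^l`, `Z = zc a`,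
`log X ≤ l (e^a + 1)`: `≤ C U T l e^{2a} e^{-2 VV a} e^{-(y+2ε)√Λ} = C T l e^{-2ε√Λ}`. `PP a = PV (zc a) (lo a)`.
Hypotheses `J_SUP, J_EXP, J_ET, J_CHERN, J_EU, J_MERT`. -/
def J_GW : Prop := ∀ y ε δ : ℝ, 0 < y → 0 < ε → 0 < δ → ∀ᶠ T : ℝ in atTop, ∀ a : ℝ, 0 ≤ a → a ≤ Yt T →
  (volume {t : ℝ | t ∈ Set.Icc T (3 * T) ∧ ∃ h ∈ Set.Icc (0 : ℝ) (Real.exp (y * Real.sqrt (La T))),
    ((y / 2 + ε) * Real.sqrt (La T) < XX a (t + h) ∨ 40 * La T < ‖PP a (t + h)‖)}).toReal ≤ δ * T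

/-- DIF. Comparison of zeta and the main polynomial in windows, `U = exp(y √Λ)`. With `B = D' + chi conj D'`, `|B|^2 = 2|D'|^2 + 2 Re(conj chi D'^2)` (`|chi| = 1`);
`∫∫ ||ζ|^2 - |B|^2| ≤ (∫∫ |ζ-B|^2)^{1/2} (∫∫ (|ζ|+|B|)^2)^{1/2} ≤ C √η U T L` (`J_AP1` applied to `d = dd η T` by `J_DD`; `J_HLW`), and the cross term is
`≤ (C/η) T L = o(U T L)` (`J_AP2`). Hypotheses `J_AP1, J_AP2, J_HLW, J_DD`. -/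
def J_DIF : Prop := ∃ C : ℝ, 0 < C ∧ ∀ η : ℝ, 0 < η → η ≤ 1 / 100 → ∀ y : ℝ, 0 < y → ∀ᶠ T : ℝ in atTop,
  ∫ t in T..(3 * T), |MM (Real.exp (y * Real.sqrt (La T))) T t -
    2 / (Real.exp (y * Real.sqrt (La T)) * Real.log T) *
      ∫ h in (0 : ℝ)..(Real.exp (y * Real.sqrt (La T))), ‖Dp η T (t + h)‖ ^ 2| ≤ C * Real.sqrt η * T

end

end Pool.Agent.Q80.EW
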