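import Pool.Agent.Q80.EW.Stm6

set_option autoImplicit false

/-!
Project EWF of helper80: frozen moments and high points in windows of length `exp(y √Λ)`.
Notation: `L = log T`, `Λ = La T = log log T`, `b = log U/(2√Λ)`.
-/

namespace Pool.Agent.Q80.EW

open Filter Topology MeasureTheory

noncomputable section

/-- FRZ. Moments of every real order `β ≥ 2` in almost all windows, up to `exp(o(√Λ))`. Hypotheses `J_MAIN`, `J_MAINx`, `J_MAXx` (all proved: `Pool.Agent.Q80.EW.all`, `finX`, `finM` in `Pool/Agent/Q80/EW/FinX.lean`,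
but take them as hypotheses here), `J_EF`. Proof. Upper bound: `∫ |ζ|^β ≤ (max |ζ|)^(β-2) ∫ |ζ|^2`, `J_MAXx` for the maximum (off a small set `max ≤ exp(Λ + ½ log U + ε'√Λ)`), `J_MAIN` for `(1/U) ∫ |ζ|^2 = L MM ≤ 2 L`.
Lower bound: with `x = b - ε'` (`b ≥ ε/2`, `b ≤ K/2`): the part of `MM` from `|ζ| > L e^{x√Λ}` is `MM - MZ U T x ≥ erf b - GX b x - 2δ ≥ c > 0` with `c = c(ε', ε, K)` (for `x ≤ b`: `GX b x = (erf x + erf (2b - x))/2`, as `erf` is odd,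
and `erf b - (erf (b-ε') + erf (b+ε'))/2 > 0` by strict concavity of `erf` on `[0,∞)`; compactness or an explicit bound), so
`(1/U) ∫ |ζ|^β ≥ (L e^{x√Λ})^(β-2) L c`. Note `(β/2-1) log U = (β-2) b √Λ`. -/
def J_FRZ : Prop := ∀ β ε K : ℝ, 2 ≤ β → 0 < ε → ∀ᶠ T : ℝ in atTop, ∀ U : ℝ,
  Real.exp (ε * Real.sqrt (La T)) ≤ U → U ≤ Real.exp (K * Real.sqrt (La T)) →
    (volume {t : ℝ | t ∈ Set.Icc T (2 * T) ∧
      ε * Real.sqrt (La T) < |Real.log (1 / U * ∫ u in t..(t + U), ‖ze u‖ ^ β) -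
        ((β - 1) * La T + (β / 2 - 1) * Real.log U)|}).toReal ≤ ε * T

/-- HIP. The number of high points in almost all windows, simultaneously for all levels `L e^{x√Λ}`, `-A ≤ x ≤ b - ε`. Hypotheses `J_MAIN`, `J_MAINx`, `J_EF`. Proof, `μ(x) = vol {u ∈ [t,t+U], |ζ| > L e^{x√Λ}}`.
Upper bound: `(L e^{x√Λ})^2 μ(x) ≤ ∫ |ζ|^2 = U L MM ≤ 2 U L`. Lower bound, with `x' = x + ε/4`: `μ(x) ≥ (mass of {L e^{x√Λ} < |ζ| ≤ L e^{x'√Λ}}) / (L e^{x'√Λ})^2`, and this mass is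
`U L (MZ x' - MZ x) ≥ U L (GX b x' - GX b x - 2δ) ≥ c U L` (`J_MAINx` is uniform in `x`), where for `x' ≤ b - ε/2`: `GX b x' - GX b x = ½ (erf x' - erf x) - ½ (erf (2b-x) - erf (2b-x'))` is at least `c(A, ε, K) > 0`,
because `erf' (s) = (2/√π) e^{-s²}` and for `s ∈ [x,x']`, `2b - s > |s|` with `(2b-s)² - s² = 4b(b-s) ≥ ε · ε` (`b ≥ ε/2`, `b - s ≥ ε/2`). -/
def J_HIP : Prop := ∀ A ε K : ℝ, 0 < ε → ∀ᶠ T : ℝ in atTop, ∀ U : ℝ,
  Real.exp (ε * Real.sqrt (La T)) ≤ U → U ≤ Real.exp (K * Real.sqrt (La T)) →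
    (volume {t : ℝ | t ∈ Set.Icc T (2 * T) ∧ ∃ x ∈ Set.Icc (-A) (Real.log U / (2 * Real.sqrt (La T)) - ε),
      ε * Real.sqrt (La T) < |Real.log ((volume {u : ℝ | u ∈ Set.Icc t (t + U) ∧
        Real.exp (x * Real.sqrt (La T)) * Real.log T < ‖ze u‖}).toReal / U) +
        (La T + 2 * x * Real.sqrt (La T))|}).toReal ≤ ε * T

end

end Pool.Agent.Q80.EW
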